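import Pool.Agent.Y980.Scale

/-!
# Averaging over the scales
-/

set_option autoImplicit false

namespace Pool.Agent.Y980

open MeasureTheory ProbabilityTheory Real DSquare Filter Topology

theorem anc_sft (j k : ℕ) (S : DSquare) : anc j (sft k S) = sft k (anc j S) := by
  ext
  · simp only [anc, sft]; ring
  · rfl
  · rfl

theorem quad_S0 (k : ℕ) : sft k S0 = ⟨k, 0, 0⟩ := by
  ext
  · simp [sft, S0]
  · rfl
  · rfl

section

variable {Ω : Type*} [MeasurableSpace Ω] {P : Measure Ω} {h : ℝ → ℂ → Ω → ℝ}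

/-- the event that the configuration at scale `k` is in `A` and that the threshold `-T` is in the
right window -/
def gev (Q : ℝ) (h : ℝ → ℂ → Ω → ℝ) (A : Set (DSquare → ℝ)) (T k : ℕ) : Set Ω :=
  {ω | inc Q h k ω ∈ A ∧ (T : ℝ) ≤ -fld Q h ω (sft k S0) ∧ -fld Q h ω (sft k S0) < T + 1}

omit [MeasurableSpace Ω] in
theorem tile_of_gev {Q : ℝ} {A : Set (DSquare → ℝ)} (hA : ∀ y ∈ A, Rooted y) {T k : ℕ} {ω : Ω}
    (hω : ω ∈ gev Q h A T k) : sft k S0 ∈ tiles (fld Q h ω) (-(T : ℝ)) := by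
  obtain ⟨h1, h2, h3⟩ := hω
  rw [mem_tiles]
  refine ⟨by linarith, fun j hj => ?_⟩
  have h4 := (hA _ h1).2 j hj
  unfold inc at h4
  rw [anc_sft]
  linarith

omit [MeasurableSpace Ω] in
theorem gev_disj {Q : ℝ} {A : Set (DSquare → ℝ)} (hA : ∀ y ∈ A, Rooted y) (T : ℕ) {k l : ℕ}
    (hkl : k < l) : Disjoint (gev Q h A T k) (gev Q h A T l) := by
  rw [Set.disjoint_left]
  intro ω h1 h2
  have h3 := tile_of_gev hA h1
  have h4 := tile_of_gev hA h2
  have e1 : sft k S0 = anc (l - k) (sft l S0) := by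
    rw [quad_S0, quad_S0, anc_quad (Or.inl rfl) (Or.inl rfl)]
    ext
    · simp only; omega
    · rfl
    · rfl
  have e2 : sft l S0 = anc 0 (sft l S0) := (anc_zero _).symm
  have h5 := tile_unique h3 h4 e1 e2
  rw [quad_S0, quad_S0] at h5
  have := congrArg DSquare.n h5
  simp only at this
  omega

theorem measurable_gev (hh : IsGFF P h) {Q : ℝ} {A : Set (DSquare → ℝ)} (hAm : MeasurableSet A)
    (T k : ℕ) : MeasurableSet (gev Q h A T k) := by
  have h1 : Measurable fun ω => -fld Q h ω (sft k S0) :=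
    (measurable_pi_iff.1 (measurable_fld hh Q) (sft k S0)).neg
  have h2 : MeasurableSet {ω | inc Q h k ω ∈ A} := measurable_inc hh Q k hAm
  have h3 : MeasurableSet {ω | (T : ℝ) ≤ -fld Q h ω (sft k S0)} :=
    measurableSet_le measurable_const h1
  have h4 : MeasurableSet {ω | -fld Q h ω (sft k S0) < (T : ℝ) + 1} :=
    measurableSet_lt h1 measurable_const
  exact h2.inter (h3.inter h4)

omit [MeasurableSpace Ω] in
theorem fld_sft (Q : ℝ) (h : ℝ → ℂ → Ω → ℝ) (ω : Ω) (k : ℕ) :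
    fld Q h ω (sft k S0) = sqv h (sft k S0) ω - Q * k * log 2 := by
  unfold fld
  have : (((sft k S0).n : ℤ) : ℝ) = k := by simp [sft, S0]
  rw [this]

/-- `X_k` is rarely larger than `-T₀` -/
theorem low_tail (hh : IsGFF P h) {Q : ℝ} (hQ : 0 < Q) (T₀ k : ℕ) :
    P.real {ω | -fld Q h ω (sft k S0) < T₀} ≤
      exp (Q ^ 2 * log 2 + Q * T₀) * exp (-(Q ^ 2 * log 2 / 2)) ^ k := by
  have hprob := hh.gaussian.isProbabilityMeasure
  have h1 := var_quad hh (S := sft k S0) (Or.inl rfl) (Or.inl rfl)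
  have e : (|((sft k S0).n : ℝ)| + 2) * log 2 = (k + 2) * log 2 := by
    have : (((sft k S0).n : ℤ) : ℝ) = k := by simp [sft, S0]
    rw [this, abs_of_nonneg (Nat.cast_nonneg k)]
  rw [e] at h1
  have h2 := gauss_tail ((isGaussianProcess_sqv hh).hasGaussianLaw_eval _) (mean_sqv hh _) h1
    hQ.le (Q * k * log 2 - T₀)
  have e2 : exp (Q ^ 2 * log 2 + Q * T₀) * exp (-(Q ^ 2 * log 2 / 2)) ^ k =
      exp (Q ^ 2 * ((k + 2) * log 2) / 2 - Q * (Q * k * log 2 - T₀)) := by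
    rw [← exp_nat_mul, ← exp_add]
    congr 1
    ring
  rw [e2]
  refine ENNReal.toReal_le_of_le_ofReal (exp_pos _).le (le_trans (measure_mono ?_) h2)
  intro ω hω
  simp only [Set.mem_ofPred_eq] at hω ⊢
  rw [fld_sft] at hω
  linarith

/-- `X_k` is rarely smaller than `-L M` for `k < 2 M` -/
theorem high_tail (hh : IsGFF P h) {Q : ℝ} {L : ℕ} (hL : 2 * Q * log 2 + 1 ≤ L) (hQ : 0 < Q)
    {M k : ℕ} (hk : k < 2 * M) : P.real {ω | ((L * M : ℕ) : ℝ) ≤ -fld Q h ω (sft k S0)} ≤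
      exp 1 * exp (-(3 / 10)) ^ M := by
  have hprob := hh.gaussian.isProbabilityMeasure
  have hl := log_two_pos
  have hl2 := log_two_lt
  have h1 := var_quad hh (S := sft k S0) (Or.inl rfl) (Or.inl rfl)
  have e : (|((sft k S0).n : ℝ)| + 2) * log 2 = (k + 2) * log 2 := by
    have : (((sft k S0).n : ℤ) : ℝ) = k := by simp [sft, S0]
    rw [this, abs_of_nonneg (Nat.cast_nonneg k)]
  rw [e] at h1
  have hk' : (k : ℝ) ≤ 2 * M := by exact_mod_cast hk.le
  have hM : (0 : ℝ) ≤ M := Nat.cast_nonneg _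
  have h1' : Var[sqv h (sft k S0); P] ≤ 1.4 * M + 1.4 := by
    refine h1.trans ?_
    nlinarith
  have h2 := gauss_tail' ((isGaussianProcess_sqv hh).hasGaussianLaw_eval _) (mean_sqv hh _) h1'
    (show (0 : ℝ) ≤ 1 / 2 by norm_num) M
  have h3 : exp ((1 / 2) ^ 2 * (1.4 * M + 1.4) / 2 - 1 / 2 * M) ≤ exp 1 * exp (-(3 / 10)) ^ M := by
    rw [← exp_nat_mul, ← exp_add]
    apply exp_le_exp.2
    linarith
  refine (ENNReal.toReal_le_of_le_ofReal (exp_pos _).le (le_trans (measure_mono ?_) h2)).trans h3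
  intro ω hω
  simp only [Set.mem_ofPred_eq] at hω ⊢
  rw [fld_sft] at hω
  push_cast at hω
  have h4 : Q * k * log 2 ≤ 2 * Q * log 2 * M := by
    have := mul_le_mul_of_nonneg_left hk' (mul_pos hQ hl).le
    nlinarith
  have h5 : (2 * Q * log 2 + 1) * M ≤ L * M := mul_le_mul_of_nonneg_right hL hM
  linarith

theorem avg (hh : IsGFF P h) {Q : ℝ} (hQ : 0 < Q) {p : ℝ} (hp : 0 < p) :
    ∃ p₃ : ℝ, 0 < p₃ ∧ ∀ A : Set (DSquare → ℝ), MeasurableSet A → (∀ y ∈ A, Rooted y) →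
      ENNReal.ofReal p ≤ P {ω | (fun S => fld Q h ω S - fld Q h ω S0) ∈ A} →
      ∀ T₀ : ℕ, ∃ T, T₀ ≤ T ∧ ENNReal.ofReal p₃ ≤ P {ω | ∃ k, ω ∈ gev Q h A T k} := by
  have hprob := hh.gaussian.isProbabilityMeasure
  obtain ⟨L, hL⟩ := exists_nat_ge (2 * Q * log 2 + 1)
  have hl := log_two_pos
  have hL0 : (0 : ℝ) < L := by
    have : 0 < 2 * Q * log 2 := by positivity
    linarith
  refine ⟨p / (4 * L), by positivity, ?_⟩
  intro A hAm hA hPA T₀
  by_contra hcon
  push Not at hcon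
  -- choose `M`
  have hlim1 : Tendsto (fun M : ℕ => exp (Q ^ 2 * log 2 + Q * T₀) *
      exp (-(Q ^ 2 * log 2 / 2)) ^ M) atTop (𝓝 0) := by
    have := (tendsto_pow_atTop_nhds_zero_of_lt_one (exp_pos _).le (geom_lt hQ)).const_mul
      (exp (Q ^ 2 * log 2 + Q * T₀))
    simpa using this
  have hlim2 : Tendsto (fun M : ℕ => exp 1 * exp (-(3 / 10)) ^ M) atTop (𝓝 0) := by
    have h1 : exp (-(3 / 10)) < 1 := by rw [exp_lt_one_iff]; norm_num
    have := (tendsto_pow_atTop_nhds_zero_of_lt_one (exp_pos _).le h1).const_mul (exp 1)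
    simpa using this
  obtain ⟨M, hM1, hM2, hM3⟩ := ((hlim1.eventually (gt_mem_nhds
    (show (0 : ℝ) < p / 4 by positivity))).and ((hlim2.eventually (gt_mem_nhds
    (show (0 : ℝ) < p / 4 by positivity))).and (eventually_gt_atTop 0))).exists
  have hM0 : (0 : ℝ) < M := by exact_mod_cast hM3
  set I := Finset.Ico M (2 * M) with hI
  set J := Finset.Ico T₀ (L * M) with hJ
  set g : ℕ → ℝ := fun T => P.real {ω | ∃ k, ω ∈ gev Q h A T k} with hg
  have hgm := fun T k => measurable_gev hh hAm (Q := Q) T k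
  -- upper bound
  have hup : ∑ T ∈ J, g T ≤ M * (p / 4) := by
    have h1 : ∀ T ∈ J, g T ≤ p / (4 * L) := by
      intro T hT
      rw [hJ, Finset.mem_Ico] at hT
      have h2 := hcon T hT.1
      exact ENNReal.toReal_le_of_le_ofReal (by positivity) h2.le
    have h2 := Finset.sum_le_sum h1
    rw [Finset.sum_const, nsmul_eq_mul, hJ, Nat.card_Ico] at h2
    refine h2.trans ?_
    have h3 : ((L * M - T₀ : ℕ) : ℝ) ≤ L * M := by
      have : L * M - T₀ ≤ L * M := Nat.sub_le _ _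
      exact_mod_cast this
    calc ((L * M - T₀ : ℕ) : ℝ) * (p / (4 * L)) ≤ (L * M) * (p / (4 * L)) :=
          mul_le_mul_of_nonneg_right h3 (by positivity)
      _ = M * (p / 4) := by field_simp
  -- lower bound
  have h1 : ∀ T, ∑ k ∈ I, P.real (gev Q h A T k) ≤ g T := by
    intro T
    rw [← measureReal_biUnion_finset]
    · refine measureReal_mono ?_
      intro ω hω
      simp only [Set.mem_iUnion] at hω
      obtain ⟨k, _, hk⟩ := hω
      exact ⟨k, hk⟩
    · intro k _ l _ hkl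
      rcases lt_or_gt_of_ne hkl with h | h
      · exact gev_disj hA T h
      · exact (gev_disj hA T h).symm
    · exact fun k _ => hgm T k
  have h2 : ∀ k ∈ I, p / 2 ≤ ∑ T ∈ J, P.real (gev Q h A T k) := by
    intro k hk
    rw [hI, Finset.mem_Ico] at hk
    have h3 : p ≤ P.real {ω | inc Q h k ω ∈ A} := by
      have := hPA
      rw [← inc_law hh Q k hAm] at this
      exact (ENNReal.ofReal_le_iff_le_toReal (measure_ne_top _ _)).1 this
    have h4 : {ω | inc Q h k ω ∈ A} ⊆ (⋃ T ∈ J, gev Q h A T k) ∪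
        ({ω | -fld Q h ω (sft k S0) < T₀} ∪ {ω | ((L * M : ℕ) : ℝ) ≤ -fld Q h ω (sft k S0)}) := by
      intro ω hω
      by_cases h5 : -fld Q h ω (sft k S0) < T₀
      · exact Or.inr (Or.inl h5)
      by_cases h6 : ((L * M : ℕ) : ℝ) ≤ -fld Q h ω (sft k S0)
      · exact Or.inr (Or.inr h6)
      left
      push Not at h5 h6
      have h7 : 0 ≤ -fld Q h ω (sft k S0) := le_trans (Nat.cast_nonneg _) h5
      simp only [Set.mem_iUnion]
      refine ⟨⌊-fld Q h ω (sft k S0)⌋₊, ?_, hω, Nat.floor_le h7, Nat.lt_floor_add_one _⟩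
      rw [hJ, Finset.mem_Ico]
      exact ⟨Nat.le_floor h5, (Nat.floor_lt h7).2 h6⟩
    have h5 := (h3.trans (measureReal_mono h4)).trans (measureReal_union_le _ _)
    have h6 := measureReal_union_le (μ := P) {ω | -fld Q h ω (sft k S0) < T₀}
      {ω | ((L * M : ℕ) : ℝ) ≤ -fld Q h ω (sft k S0)}
    have h7 := measureReal_biUnion_finset_le (μ := P) J (fun T => gev Q h A T k)
    have h8 := low_tail hh hQ T₀ k
    have h9 := high_tail hh hL hQ hk.2
    have h10 : exp (-(Q ^ 2 * log 2 / 2)) ^ k ≤ exp (-(Q ^ 2 * log 2 / 2)) ^ M :=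
      pow_le_pow_of_le_one (exp_pos _).le (geom_lt hQ).le hk.1
    have h11 := mul_le_mul_of_nonneg_left h10 (exp_pos (Q ^ 2 * log 2 + Q * T₀)).le
    linarith
  have h3 : (M : ℝ) * (p / 2) ≤ ∑ T ∈ J, g T := by
    calc (M : ℝ) * (p / 2) = ∑ k ∈ I, p / 2 := by
          rw [Finset.sum_const, nsmul_eq_mul, hI, Nat.card_Ico]
          congr 2
          omega
      _ ≤ ∑ k ∈ I, ∑ T ∈ J, P.real (gev Q h A T k) := Finset.sum_le_sum h2
      _ = ∑ T ∈ J, ∑ k ∈ I, P.real (gev Q h A T k) := Finset.sum_comm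
      _ ≤ ∑ T ∈ J, g T := Finset.sum_le_sum fun T _ => h1 T
  have h4 := h3.trans hup
  have : 0 < (M : ℝ) * p := by positivity
  linarith

end

end Pool.Agent.Y980
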