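import Pool.Agent.Y980.Shift2

/-!
# The chains and the ancestors of the root are above the root with positive probability
-/

set_option autoImplicit false

namespace Pool.Agent.Y980

open MeasureTheory ProbabilityTheory Real DSquare Filter Topology

/-- all the chains survive, and the ancestors of the unit square are above `-C` -/
def coreSet (D : ℕ → Finset (ℤ × ℤ)) (C : ℝ) (K m : ℕ) : Set (DSquare → ℝ) :=
  {x | (∀ n, m ≤ n → K ≤ (surv D C m n x).card) ∧ ∀ k, 0 < k → -C < x (anc k S0)}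

theorem measurable_coreSet (D : ℕ → Finset (ℤ × ℤ)) (C : ℝ) (K m : ℕ) :
    MeasurableSet (coreSet D C K m) := by
  refine measurableSet_setOfPred.2 (Measurable.and ?_ ?_)
  · refine Measurable.forall fun n => Measurable.imp measurable_const ?_
    exact measurableSet_setOfPred.1 (measurable_surv D C m n K)
  · refine Measurable.forall fun k => Measurable.imp measurable_const ?_
    exact measurableSet_setOfPred.1 (measurableSet_lt measurable_const (measurable_pi_apply _))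

theorem ans_inB {n : ℕ} {s : ℤ × ℤ} (h : InB n s.1 s.2) {j : ℕ} (hj : j ≤ n) :
    ∃ a b : ℤ, InB j a b ∧ ans n s j = ⟨j, a, b⟩ := by
  obtain ⟨q, rfl⟩ := Nat.exists_eq_add_of_le hj
  refine ⟨_, _, h.ediv, ?_⟩
  simp only [ans, Nat.add_sub_cancel_left]

theorem surv_congr {D : ℕ → Finset (ℤ × ℤ)} {d : ℝ} (hD : Fam D d) {C : ℝ} {m n : ℕ}
    {x x' : DSquare → ℝ} (h : ∀ S, Far S → x S = x' S) : surv D C m n x ⊆ surv D C m n x' := by
  intro v hv
  rw [mem_surv] at hv ⊢
  obtain ⟨hv, s, hs, h1, h2, h3⟩ := hv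
  refine ⟨hv, s, hs, h1, h2, fun j hj => ?_⟩
  obtain ⟨a, b, hab, he⟩ := ans_inB (hD.inB n s hs) hj
  rw [← h _ (by rw [he]; exact far_inB hab)]
  exact h3 j hj

theorem coreSet_congr {D : ℕ → Finset (ℤ × ℤ)} {d : ℝ} (hD : Fam D d) {C : ℝ} {K m : ℕ}
    (x x' : DSquare → ℝ) (h : ∀ S, Far S → x S = x' S) (hx : x ∈ coreSet D C K m) :
    x' ∈ coreSet D C K m := by
  refine ⟨fun n hn => (hx.1 n hn).trans (Finset.card_le_card (surv_congr hD h)), fun k hk => ?_⟩
  rw [← h _ (far_anc hk)]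
  exact hx.2 k hk

/-- from the cardinalities to actual infinite chains -/
theorem exists_U {D : ℕ → Finset (ℤ × ℤ)} {d : ℝ} (hD : Fam D d) {C : ℝ} {K m : ℕ}
    {x : DSquare → ℝ} (hx : ∀ n, m ≤ n → K ≤ (surv D C m n x).card) :
    ∃ U : Fin K → ℤ × ℤ, Function.Injective U ∧ ∀ c n, m ≤ n → U c ∈ surv D C m n x := by
  classical
  set V := (D m).filter fun v => ∀ n, m ≤ n → v ∈ surv D C m n x with hV
  have h1 : ∀ v : ℤ × ℤ, ∃ n, m ≤ n ∧ (v ∈ D m → v ∉ V → v ∉ surv D C m n x) := by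
    intro v
    by_cases hv : v ∈ D m ∧ v ∉ V
    · have h2 : ¬ ∀ n, m ≤ n → v ∈ surv D C m n x := by
        intro h3
        exact hv.2 (Finset.mem_filter.2 ⟨hv.1, h3⟩)
      push Not at h2
      obtain ⟨n, hn, hn'⟩ := h2
      exact ⟨n, hn, fun _ _ => hn'⟩
    · refine ⟨m, le_rfl, fun h2 h3 => (hv ⟨h2, h3⟩).elim⟩
  choose f hf1 hf2 using h1
  set n₀ := max m ((D m).sup f) with hn₀
  have h2 : surv D C m n₀ x ⊆ V := by
    intro v hv
    by_contra hcon
    have hvD : v ∈ D m := (mem_surv.1 hv).1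
    refine hf2 v hvD hcon (surv_anti hD (hf1 v) ?_ hv)
    exact (Finset.le_sup hvD).trans (le_max_right _ _)
  have h3 : K ≤ V.card := (hx n₀ (le_max_left _ _)).trans (Finset.card_le_card h2)
  refine ⟨fun c => (V.equivFin.symm (Fin.castLE h3 c)).1, ?_, ?_⟩
  · intro a b hab
    exact Fin.castLE_injective h3 (V.equivFin.symm.injective (Subtype.ext hab))
  · intro c n hn
    exact (Finset.mem_filter.1 (V.equivFin.symm (Fin.castLE h3 c)).2).2 n hn

/-- the root condition -/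
def Rooted (y : DSquare → ℝ) : Prop := y S0 = 0 ∧ ∀ k, 0 < k → 1 < y (anc k S0)

theorem rooted_of_core {D : ℕ → Finset (ℤ × ℤ)} {C : ℝ} {K m : ℕ}
    {x : DSquare → ℝ} (hx : x ∈ coreSet D C K m) (hC : x S0 ≤ -(C + 1)) :
    Rooted (fun S => x S - x S0) := by
  refine ⟨sub_self _, fun k hk => ?_⟩
  have := hx.2 k hk
  simp only
  linarith

theorem alive_of_core {D : ℕ → Finset (ℤ × ℤ)} {d : ℝ} (hD : Fam D d) {C : ℝ} {K m : ℕ}
    {x : DSquare → ℝ} (hx : x ∈ coreSet D C K m) (hC : x S0 ≤ -(C + 1)) {q : ℕ} {v : ℤ × ℤ}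
    (hv : v ∈ surv D C m (m + q) x) :
    ∃ s ∈ D (m + q), s.1 / 2 ^ q = v.1 ∧ s.2 / 2 ^ q = v.2 ∧
      Alive (fun S => x S - x S0) 1 ⟨(m + q : ℕ), s.1, s.2⟩ := by
  obtain ⟨_, s, hs, h1, h2, h3⟩ := mem_surv.1 hv
  rw [Nat.add_sub_cancel_left] at h1 h2
  refine ⟨s, hs, h1, h2, fun k => ?_⟩
  simp only
  rcases le_or_gt k (m + q) with hk | hk
  · have h4 := h3 (m + q - k) (Nat.sub_le _ _)
    have e : ans (m + q) s (m + q - k) = anc k ⟨(m + q : ℕ), s.1, s.2⟩ := by
      unfold ans anc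
      have e1 : m + q - (m + q - k) = k := by omega
      rw [e1]
      ext
      · simp only
        omega
      · rfl
      · rfl
    rw [e] at h4
    linarith
  · rw [anc_inB (hD.inB _ s hs) hk]
    have h4 := hx.2 (k - (m + q)) (by omega)
    have e : (⟨0, 0, 0⟩ : DSquare) = S0 := rfl
    rw [e]
    linarith

section

variable {Ω : Type*} [MeasurableSpace Ω] {P : Measure Ω} {h : ℝ → ℂ → Ω → ℝ}

theorem core_prob (hh : IsGFF P h) {D : ℕ → Finset (ℤ × ℤ)} {Q d : ℝ} (hD : Fam D d) (hQ : 0 < Q)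
    (hd : Q ^ 2 / 2 < d) :
    ∃ C p : ℝ, 0 < p ∧ ∀ K : ℕ, ∃ m : ℕ, ENNReal.ofReal p ≤
      P {ω | fld Q h ω ∈ coreSet D C K m ∧ fld Q h ω S0 ≤ -(C + 1)} := by
  have hprob := hh.gaussian.isProbabilityMeasure
  obtain ⟨C₀, p₂, hp₂, hsurv⟩ := surv_prob hh hD hQ hd
  -- choose `C`
  set r := exp (-(Q ^ 2 * log 2 / 2)) with hr
  have hr1 : r < 1 := geom_lt hQ
  have hlim : Tendsto (fun C : ℝ => exp (Q ^ 2 * log 2 - Q * C) * r ^ 1 / (1 - r)) atTop (𝓝 0) := by
    have h1 : Tendsto (fun C : ℝ => Q ^ 2 * log 2 - Q * C) atTop atBot := by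
      simp only [sub_eq_add_neg]
      apply tendsto_atBot_add_const_left
      exact tendsto_neg_atTop_atBot.comp (tendsto_id.const_mul_atTop hQ)
    have h2 := ((tendsto_exp_atBot.comp h1).mul_const (r ^ 1)).div_const (1 - r)
    simpa using h2
  obtain ⟨C, hC1, hC2⟩ := ((hlim.eventually (gt_mem_nhds (show (0 : ℝ) < p₂ / 2 by positivity))).and
    (eventually_gt_atTop C₀)).exists
  have hanc : P {ω | ∃ k : ℕ, 1 ≤ k ∧ fld Q h ω ⟨-(k : ℤ), 0, 0⟩ ≤ -C} ≤
      ENNReal.ofReal (p₂ / 2) :=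
    (anc_tail_all hh hQ (Or.inl rfl) (Or.inl rfl) C 1).trans (ENNReal.ofReal_le_ofReal hC1.le)
  obtain ⟨p, hp, hshift⟩ := shift hh Q (show 0 < p₂ / 2 by positivity) (C + 1)
  refine ⟨C, p, hp, fun K => ?_⟩
  obtain ⟨m, hm⟩ := hsurv C hC2 K
  refine ⟨m, ?_⟩
  have h1 := hshift (coreSet D C K m) (measurable_coreSet D C K m) (coreSet_congr hD) ?_
  · refine h1.trans (measure_mono ?_)
    rintro ω ⟨h2, h3⟩
    refine ⟨h2, ?_⟩
    have h4 : fld Q h ω S0 = sqv h S0 ω := by
      unfold fld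
      have : ((S0.n : ℤ) : ℝ) = 0 := by simp [S0]
      rw [this]
      ring
    rw [h4]
    exact h3
  · -- the probability of the core event
    set E : ℕ → Set Ω := fun n => {ω | K ≤ (surv D C m (m + n) (fld Q h ω)).card} with hE
    have hEm : ∀ n, MeasurableSet (E n) := fun n =>
      measurable_fld hh Q (measurable_surv D C m (m + n) K)
    have hanti : Antitone E := by
      intro a b hab ω hω
      exact le_trans hω (Finset.card_le_card (surv_anti hD (by omega) (by omega)))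
    have h2 : ENNReal.ofReal p₂ ≤ P (⋂ n, E n) := by
      have h3 : Tendsto (fun n => P (E n)) atTop (𝓝 (P (⋂ n, E n))) :=
        tendsto_measure_iInter_atTop (fun n => (hEm n).nullMeasurableSet) hanti
          ⟨0, measure_ne_top _ _⟩
      exact ge_of_tendsto' h3 fun n => hm (m + n) (by omega)
    have h4 : (⋂ n, E n) ⊆ {ω | fld Q h ω ∈ coreSet D C K m} ∪
        {ω | ∃ k : ℕ, 1 ≤ k ∧ fld Q h ω ⟨-(k : ℤ), 0, 0⟩ ≤ -C} := by
      intro ω hω
      by_cases hb : ∃ k : ℕ, 1 ≤ k ∧ fld Q h ω ⟨-(k : ℤ), 0, 0⟩ ≤ -C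
      · exact Or.inr hb
      · left
        push Not at hb
        refine ⟨fun n hn => ?_, fun k hk => ?_⟩
        · have := Set.mem_iInter.1 hω (n - m)
          simp only [hE, Set.mem_ofPred_eq] at this
          rwa [Nat.add_sub_cancel' hn] at this
        · have h5 := hb k hk
          have e : anc k S0 = ⟨-(k : ℤ), 0, 0⟩ := by
            have : anc k S0 = ⟨0 - k, 0, 0⟩ := anc_quad (Or.inl rfl) (Or.inl rfl) k
            rw [this, zero_sub]
          rw [e]
          exact h5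
    have h5 := (h2.trans (measure_mono h4)).trans (measure_union_le _ _)
    have h6 : ENNReal.ofReal p₂ = ENNReal.ofReal (p₂ / 2) + ENNReal.ofReal (p₂ / 2) := by
      rw [← ENNReal.ofReal_add (by positivity) (by positivity)]
      congr 1
      ring
    rw [h6] at h5
    have h7 := h5.trans (add_le_add_right hanc _)
    exact (ENNReal.add_le_add_iff_right ENNReal.ofReal_ne_top).1 h7

end

end Pool.Agent.Y980
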