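import Pool.Agent.Y980.Geo

/-!
# Covariances of the circle averages
-/

set_option autoImplicit false

namespace Pool.Agent.Y980

open MeasureTheory ProbabilityTheory Real

/-- `∫ log |x|₊` over the circle -/
noncomputable def cN (r : ℝ) (z : ℂ) : ℝ := circleAverage (fun x => log (max ‖x‖ 1)) z r

/-- `∫ log max (s, |x - w|)` over the circle of radius `r` around `z` -/
noncomputable def cA (r : ℝ) (z : ℂ) (s : ℝ) (w : ℂ) : ℝ :=
  circleAverage (fun x => log (max s ‖x - w‖)) z r

theorem continuous_logmax {s : ℝ} (hs : 0 < s) (w : ℂ) :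
    Continuous (fun x : ℂ => log (max s ‖x - w‖)) := by
  apply Continuous.log
  · fun_prop
  · intro x
    exact (lt_max_of_lt_left hs).ne'

theorem continuous_logmax1 : Continuous (fun x : ℂ => log (max ‖x‖ 1)) := by
  apply Continuous.log
  · fun_prop
  · intro x
    exact (lt_max_of_lt_right one_pos).ne'

theorem ci_of_cont {f : ℂ → ℝ} (hf : Continuous f) (z : ℂ) (r : ℝ) : CircleIntegrable f z r :=
  hf.continuousOn.circleIntegrable'

theorem avg_le {f : ℂ → ℝ} (hf : Continuous f) {z : ℂ} {r b : ℝ}
    (h : ∀ x ∈ Metric.sphere z |r|, f x ≤ b) : circleAverage f z r ≤ b := by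
  have := circleAverage_mono (ci_of_cont hf z r) (circleIntegrable_const b z r) h
  rwa [circleAverage_const] at this

theorem le_avg {f : ℂ → ℝ} (hf : Continuous f) {z : ℂ} {r b : ℝ}
    (h : ∀ x ∈ Metric.sphere z |r|, b ≤ f x) : b ≤ circleAverage f z r := by
  have := circleAverage_mono (circleIntegrable_const b z r) (ci_of_cont hf z r) h
  rwa [circleAverage_const] at this

theorem log_add_posLog {s t : ℝ} (hs : 0 < s) (ht : 0 ≤ t) :
    log s + log⁺ (s⁻¹ * t) = log (max s t) := by
  rw [posLog_eq_log_max_one (by positivity), ← log_mul hs.ne' (by positivity)]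
  congr 1
  rw [mul_max_of_nonneg _ _ hs.le, mul_one, ← mul_assoc, mul_inv_cancel₀ hs.ne', one_mul]

theorem inner_avg {s : ℝ} (hs : 0 < s) (w x : ℂ) :
    circleAverage (fun y => gffCov x y) w s = log (max ‖x‖ 1) + cN s w - log (max s ‖x - w‖) := by
  have h1 : circleAverage (fun y => log ‖x - y‖) w s = log (max s ‖x - w‖) := by
    have e : (fun y : ℂ => log ‖x - y‖) = fun y => log ‖y - x‖ := by
      ext y; rw [norm_sub_rev]
    rw [e, circleAverage_log_norm_sub_const_eq_log_radius_add_posLog hs.ne', norm_sub_rev w x]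
    exact log_add_posLog hs (norm_nonneg _)
  have hi1 : CircleIntegrable (fun y : ℂ => log (max ‖x‖ 1) + log (max ‖y‖ 1)) w s :=
    ci_of_cont (continuous_const.add continuous_logmax1) w s
  have hi2 : CircleIntegrable (fun y : ℂ => log ‖x - y‖) w s := by
    have e : (fun y : ℂ => log ‖x - y‖) = fun y => log ‖y - x‖ := by
      ext y; rw [norm_sub_rev]
    rw [e]
    exact circleIntegrable_log_norm_sub_const s
  unfold gffCov
  rw [circleAverage_fun_sub hi1 hi2, circleAverage_fun_add (circleIntegrable_const _ _ _)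
    (ci_of_cont continuous_logmax1 _ _), circleAverage_const, h1]
  rfl

theorem double_avg {r s : ℝ} (hs : 0 < s) (z w : ℂ) :
    circleAverage (fun x => circleAverage (fun y => gffCov x y) w s) z r =
      cN r z + cN s w - cA r z s w := by
  simp_rw [inner_avg hs w]
  have h1 : CircleIntegrable (fun x : ℂ => log (max ‖x‖ 1) + cN s w) z r :=
    ci_of_cont (continuous_logmax1.add continuous_const) _ _
  rw [circleAverage_fun_sub h1 (ci_of_cont (continuous_logmax hs w) _ _),
    circleAverage_fun_add (ci_of_cont continuous_logmax1 _ _) (circleIntegrable_const _ _ _),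
    circleAverage_const]
  rfl

/-! ### Bounds -/

theorem cN_nonneg (r : ℝ) (z : ℂ) : 0 ≤ cN r z :=
  le_avg continuous_logmax1 fun _ _ => log_nonneg (le_max_right _ _)

theorem cN_le {r : ℝ} {z : ℂ} {b : ℝ} (hb : 0 ≤ b)
    (h : ∀ x ∈ Metric.sphere z |r|, ‖x‖ ≤ exp b) : cN r z ≤ b := by
  refine avg_le continuous_logmax1 fun x hx => ?_
  rw [log_le_iff_le_exp (lt_max_of_lt_right one_pos)]
  exact max_le (h x hx) (by simpa using hb)

theorem cA_le {r s : ℝ} {z w : ℂ} {b : ℝ} (hs : 0 < s) (hsb : s ≤ exp b)
    (h : ∀ x ∈ Metric.sphere z |r|, ‖x - w‖ ≤ exp b) : cA r z s w ≤ b := by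
  refine avg_le (continuous_logmax hs w) fun x hx => ?_
  rw [log_le_iff_le_exp (lt_max_of_lt_left hs)]
  exact max_le hsb (h x hx)

theorem log_le_cA {r s : ℝ} {z w : ℂ} (hs : 0 < s) : log s ≤ cA r z s w :=
  le_avg (continuous_logmax hs w) fun _ _ => log_le_log hs (le_max_left _ _)

theorem cA_self {r : ℝ} (hr : 0 < r) (z : ℂ) : cA r z r z = log r := by
  unfold cA
  have : Set.EqOn (fun x : ℂ => log (max r ‖x - z‖)) (fun _ => log r) (Metric.sphere z |r|) := by
    intro x hx
    rw [mem_sphere_iff_norm, abs_of_pos hr] at hx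
    simp only
    rw [hx, max_self]
  rw [circleAverage_congr_sphere this, circleAverage_const]

theorem log_norm_le_cA {r s : ℝ} {z w : ℂ} (hr : 0 < r) (hs : 0 < s) (hzw : z ≠ w) :
    log ‖z - w‖ ≤ cA r z s w := by
  have h0 : circleAverage (fun x => log ‖x - w‖) z r =
      circleAverage (fun x => if x = w then log s else log ‖x - w‖) z r := by
    apply circleAverage_congr_codiscreteWithin _ hr.ne'
    have : {x | x ≠ w} ∈ Filter.codiscreteWithin (Metric.sphere z |r|) := by
      apply codiscreteWithin_iff_locallyFiniteComplementWithin.2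
      intro x hx
      use Set.univ
      simp only [Filter.univ_mem, Set.univ_inter, true_and]
      apply Set.Subsingleton.finite
      intro x₁ hx₁ x₂ hx₂
      simp only [Set.mem_sdiff, Set.mem_ofPred_eq, Decidable.not_not] at hx₁ hx₂
      rw [hx₁.2, hx₂.2]
    filter_upwards [this] with x hx
    rw [if_neg hx]
  have h2 : CircleIntegrable (fun x => if x = w then log s else log ‖x - w‖) z r := by
    have h3 : CircleIntegrable (fun x => log ‖x - w‖) z r := circleIntegrable_log_norm_sub_const r
    refine h3.congr_codiscreteWithin ?_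
    have : {x | x ≠ w} ∈ Filter.codiscreteWithin (Metric.sphere z |r|) := by
      apply codiscreteWithin_iff_locallyFiniteComplementWithin.2
      intro x hx
      use Set.univ
      simp only [Filter.univ_mem, Set.univ_inter, true_and]
      apply Set.Subsingleton.finite
      intro x₁ hx₁ x₂ hx₂
      simp only [Set.mem_sdiff, Set.mem_ofPred_eq, Decidable.not_not] at hx₁ hx₂
      rw [hx₁.2, hx₂.2]
    filter_upwards [this] with x hx
    rw [if_neg hx]
  have h1 : circleAverage (fun x => log ‖x - w‖) z r ≤ cA r z s w := by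
    rw [h0]
    unfold cA
    refine circleAverage_mono h2 (ci_of_cont (continuous_logmax hs w) _ _) fun x _ => ?_
    split_ifs with h
    · exact log_le_log hs (le_max_left _ _)
    · exact log_le_log (norm_pos_iff.2 (sub_ne_zero.2 h)) (le_max_right _ _)
  refine le_trans ?_ h1
  rw [circleAverage_log_norm_sub_const_eq_log_radius_add_posLog hr.ne',
    log_add_posLog hr (norm_nonneg _)]
  exact log_le_log (norm_pos_iff.2 (sub_ne_zero.2 hzw)) (le_max_right _ _)

/-- strict positivity of the average of a continuous nonnegative function -/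
theorem avg_pos {f : ℂ → ℝ} (hf : Continuous f) {z : ℂ} {r : ℝ}
    (h : ∀ x, 0 ≤ f x) (θ : ℝ) (hθ : θ ∈ Set.Icc 0 (2 * π)) (hp : 0 < f (circleMap z r θ)) :
    0 < circleAverage f z r := by
  rw [circleAverage_def, smul_eq_mul]
  apply mul_pos (by positivity)
  apply intervalIntegral.integral_pos (by positivity) (by fun_prop) (fun x _ => h _)
  exact ⟨θ, hθ, hp⟩

/-! ### Scaling -/

theorem circleAverage_scale (f : ℂ → ℝ) (z : ℂ) (r c : ℝ) :
    circleAverage f (c * z) (c * r) = circleAverage (fun x => f (c * x)) z r := by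
  rw [circleAverage_def, circleAverage_def]
  congr 2
  ext θ
  congr 1
  simp only [circleMap]
  push_cast
  ring

theorem cA_scale {c : ℝ} (hc : 0 < c) (r s : ℝ) (hs : 0 < s) (z w : ℂ) :
    cA (c * r) (c * z) (c * s) (c * w) = log c + cA r z s w := by
  unfold cA
  rw [circleAverage_scale]
  have : (fun x : ℂ => log (max (c * s) ‖(c : ℂ) * x - c * w‖)) =
      fun x : ℂ => log c + log (max s ‖x - w‖) := by
    ext x
    rw [← mul_sub, norm_mul, Complex.norm_real, norm_of_nonneg hc.le, ← mul_max_of_nonneg _ _ hc.le,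
      log_mul hc.ne' (lt_max_of_lt_left hs).ne']
  rw [this, circleAverage_fun_add (circleIntegrable_const _ _ _)
    (ci_of_cont (continuous_logmax hs w) _ _), circleAverage_const]

/-! ### Squares -/

/-- the average of the field over the circle of the square `S` -/
noncomputable def sqv {Ω : Type*} (h : ℝ → ℂ → Ω → ℝ) (S : DSquare) : Ω → ℝ := h (S.side / 2) S.center

noncomputable def sN (S : DSquare) : ℝ := cN (S.side / 2) S.center

noncomputable def sA (S T : DSquare) : ℝ := cA (S.side / 2) S.center (T.side / 2) T.center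

theorem half_pos' (S : DSquare) : 0 < S.side / 2 := by have := S.side_pos; linarith

theorem cov_sq {Ω : Type*} [MeasurableSpace Ω] {P : Measure Ω} {h : ℝ → ℂ → Ω → ℝ}
    (hh : IsGFF P h) (S T : DSquare) : cov[sqv h S, sqv h T; P] = sN S + sN T - sA S T := by
  unfold sqv
  rw [hh.cov _ _ _ _ (half_pos' S) (half_pos' T), double_avg (half_pos' T)]
  rfl

/-- coordinates of a point of the circle of a square -/
theorem sphere_coord {S : DSquare} {x : ℂ} (hx : x ∈ Metric.sphere S.center |S.side / 2|) :
    x ∈ S.toSet := by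
  rw [mem_sphere_iff_norm, abs_of_pos (half_pos' S)] at hx
  have h1 := Complex.abs_re_le_norm (x - S.center)
  have h2 := Complex.abs_im_le_norm (x - S.center)
  rw [hx, abs_le] at h1 h2
  simp only [DSquare.center, Complex.sub_re, Complex.sub_im] at h1 h2
  simp only [DSquare.toSet, Set.mem_ofPred_eq]
  refine ⟨?_, ?_, ?_, ?_⟩ <;> linarith [h1.1, h1.2, h2.1, h2.2]

end Pool.Agent.Y980
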