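import Mathlib

/-!
# A graph with several infinite parts seen through finite gates: far points at large mutual distance
-/

set_option autoImplicit false

namespace Pool.Agent.Y980

variable {V : Type*} {G : SimpleGraph V}

theorem exists_pred {r T : V} {k : ℕ} (hT : G.Reachable r T) (hk : G.dist r T = k + 1) :
    ∃ T', G.Adj T' T ∧ G.Reachable r T' ∧ G.dist r T' = k := by
  obtain ⟨w, hw⟩ := hT.exists_walk_length_eq_dist
  have h1 : w.reverse.length = k + 1 := by rw [SimpleGraph.Walk.length_reverse, hw, hk]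
  generalize hw' : w.reverse = w' at h1
  cases w' with
  | nil => simp at h1
  | cons h p =>
    rename_i v
    have h2 : p.length = k := by simpa using h1
    refine ⟨v, h.symm, ⟨p.reverse⟩, ?_⟩
    have h3 : G.dist r v ≤ k := by
      have := SimpleGraph.dist_le p.reverse
      rwa [SimpleGraph.Walk.length_reverse, h2] at this
    have h4 : k + 1 ≤ G.dist r v + 1 := by
      obtain ⟨q, hq⟩ := (show G.Reachable r v from ⟨p.reverse⟩).exists_walk_length_eq_dist
      have h5 := SimpleGraph.dist_le (q.concat h.symm)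
      rw [SimpleGraph.Walk.length_concat, hq] at h5
      omega
    omega

/-- The parts of the balls around `r` inside `W` are finite. -/
theorem ball_finite {r : V} {W : Set V} (hr : r ∉ W)
    (hringfin : {T ∈ W | ∃ T', T' ∉ W ∧ G.Adj T T'}.Finite)
    (hreach : ∀ T ∈ W, G.Reachable r T)
    (hloc : ∀ T ∈ W, {T' ∈ W | G.Adj T T'}.Finite) (k : ℕ) :
    {T ∈ W | G.dist r T ≤ k}.Finite := by
  induction k with
  | zero =>
    apply Set.Finite.subset (Set.finite_empty)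
    rintro T ⟨hT, h0⟩
    have h1 : G.dist r T = 0 := by omega
    rw [(hreach T hT).dist_eq_zero_iff] at h1
    exact (hr (h1 ▸ hT)).elim
  | succ k ih =>
    have h1 : {T ∈ W | G.dist r T ≤ k + 1} ⊆ ({T ∈ W | G.dist r T ≤ k} ∪
        {T ∈ W | ∃ T', T' ∉ W ∧ G.Adj T T'}) ∪
        ⋃ T' ∈ {T ∈ W | G.dist r T ≤ k}, {T ∈ W | G.Adj T' T} := by
      rintro T ⟨hT, hd⟩
      by_cases h : G.dist r T ≤ k
      · exact Or.inl (Or.inl ⟨hT, h⟩)
      · have h2 : G.dist r T = k + 1 := by omega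
        obtain ⟨T', hadj, hr', hd'⟩ := exists_pred (hreach T hT) h2
        by_cases hW : T' ∈ W
        · refine Or.inr ?_
          simp only [Set.mem_iUnion]
          exact ⟨T', ⟨hW, hd'.le⟩, hT, hadj⟩
        · exact Or.inl (Or.inr ⟨hT, T', hW, hadj.symm⟩)
    refine Set.Finite.subset ?_ h1
    refine Set.Finite.union (Set.Finite.union ih hringfin) ?_
    refine Set.Finite.biUnion ih (fun T' hT' => ?_)
    exact hloc T' hT'.1

theorem exists_far {r : V} {W : Set V} {M : ℕ} (hr : r ∉ W)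
    (hring : ∀ T ∈ W, ∀ T', T' ∉ W → G.Adj T T' → ∃ w : G.Walk r T, w.length ≤ M)
    (hringfin : {T ∈ W | ∃ T', T' ∉ W ∧ G.Adj T T'}.Finite)
    (hreach : ∀ T ∈ W, G.Reachable r T) (hinf : W.Infinite)
    (hloc : ∀ T ∈ W, {T' ∈ W | G.Adj T T'}.Finite) (ρ : ℕ) (hρ : M ≤ ρ) :
    ∃ T ∈ W, G.dist r T = ρ := by
  have h1 : ∃ T ∈ W, ρ ≤ G.dist r T := by
    by_contra hcon
    push Not at hcon
    apply hinf
    refine (ball_finite hr hringfin hreach hloc ρ).subset ?_
    intro T hT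
    exact ⟨hT, (hcon T hT).le⟩
  have h2 : ∃ d, ∃ T ∈ W, G.dist r T = d ∧ ρ ≤ d := by
    obtain ⟨T, hT, h⟩ := h1
    exact ⟨_, T, hT, rfl, h⟩
  classical
  obtain ⟨T, hT, hd, hge⟩ := Nat.find_spec h2
  refine ⟨T, hT, ?_⟩
  by_contra hne
  have hlt : ρ < G.dist r T := by omega
  obtain ⟨k, hk⟩ : ∃ k, G.dist r T = k + 1 := ⟨G.dist r T - 1, by omega⟩
  obtain ⟨T', hadj, hr', hd'⟩ := exists_pred (hreach T hT) hk
  by_cases hW : T' ∈ W
  · exact Nat.find_min h2 (m := k) (by omega) ⟨T', hW, hd', by omega⟩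
  · obtain ⟨w, hw⟩ := hring T hT T' hW hadj.symm
    have := SimpleGraph.dist_le w
    omega

theorem dist_ge {r : V} {W : Set V} {M : ℕ}
    (hring : ∀ T ∈ W, ∀ T', T' ∉ W → G.Adj T T' → ∃ w : G.Walk r T, w.length ≤ M)
    {a b : V} (ha : a ∈ W) (hb : b ∉ W) (hab : G.Reachable a b) {ρ : ℕ}
    (h1 : ρ ≤ G.dist r a) (h2 : ρ ≤ G.dist r b) : 2 * (ρ - M) ≤ G.dist a b := by
  classical
  obtain ⟨p, hp⟩ := hab.exists_walk_length_eq_dist
  obtain ⟨d, hd, hd1, hd2⟩ := p.exists_boundary_dart W ha hb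
  obtain ⟨w, hw⟩ := hring _ hd1 _ hd2 d.adj
  have hs : d.fst ∈ p.support := p.dart_fst_mem_support_of_mem_darts hd
  have hl : (p.takeUntil _ hs).length + (p.dropUntil _ hs).length = p.length := by
    rw [← SimpleGraph.Walk.length_append, SimpleGraph.Walk.take_spec]
  have h3 := SimpleGraph.dist_le (w.append (p.takeUntil _ hs).reverse)
  have h4 := SimpleGraph.dist_le (w.append (p.dropUntil _ hs))
  rw [SimpleGraph.Walk.length_append, SimpleGraph.Walk.length_reverse] at h3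
  rw [SimpleGraph.Walk.length_append] at h4
  omega

/-- Far points at large mutual distance. -/
theorem ends {r : V} {K M : ℕ} (W : Fin K → Set V)
    (hdisj : ∀ i j, i ≠ j → Disjoint (W i) (W j)) (hr : ∀ i, r ∉ W i)
    (hring : ∀ i, ∀ T ∈ W i, ∀ T', T' ∉ W i → G.Adj T T' → ∃ w : G.Walk r T, w.length ≤ M)
    (hringfin : ∀ i, {T ∈ W i | ∃ T', T' ∉ W i ∧ G.Adj T T'}.Finite)
    (hreach : ∀ i, ∀ T ∈ W i, G.Reachable r T) (hinf : ∀ i, (W i).Infinite)
    (hloc : ∀ i, ∀ T ∈ W i, {T' ∈ W i | G.Adj T T'}.Finite) (ρ : ℕ) (hρ : M ≤ ρ) :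
    ∃ f : Fin K → V, ∀ i, G.Reachable r (f i) ∧ G.dist r (f i) = ρ ∧
      ∀ j, i ≠ j → 2 * (ρ - M) ≤ G.dist (f i) (f j) := by
  choose f hf hd using fun i =>
    exists_far (hr i) (hring i) (hringfin i) (hreach i) (hinf i) (hloc i) ρ hρ
  refine ⟨f, fun i => ⟨hreach i _ (hf i), hd i, fun j hij => ?_⟩⟩
  refine dist_ge (hring i) (hf i) (fun h => ?_)
    ((hreach i _ (hf i)).symm.trans (hreach j _ (hf j))) (hd i).ge (hd j).ge
  exact Set.disjoint_left.1 (hdisj i j hij) h (hf j)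

end Pool.Agent.Y980
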