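import Pool.Agent.Y980.Geo
import Pool.Agent.Y980.Graph

/-!
# The deterministic part: squares on the grid lines, rings and ends
-/

set_option autoImplicit false

namespace Pool.Agent.Y980

open DSquare

/-! ### Adjacency -/

theorem segment_subset_toSet {S : DSquare} {x y : ℂ} (hx : x ∈ S.toSet) (hy : y ∈ S.toSet) :
    segment ℝ x y ⊆ S.toSet := by
  rintro z ⟨a, b, ha, hb, hab, rfl⟩
  simp only [toSet, Set.mem_ofPred_eq] at hx hy ⊢
  obtain ⟨x1, x2, x3, x4⟩ := hx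
  obtain ⟨y1, y2, y3, y4⟩ := hy
  have e1 : (a • x + b • y).re = a * x.re + b * y.re := by simp
  have e2 : (a • x + b • y).im = a * x.im + b * y.im := by simp
  rw [e1, e2]
  have hb' : b = 1 - a := by linarith
  subst hb'
  refine ⟨?_, ?_, ?_, ?_⟩ <;> nlinarith

theorem adj_of_two {𝒯 : Set DSquare} {S T : 𝒯} (h : S ≠ T) {x y : ℂ} (hxy : x ≠ y)
    (h1 : x ∈ S.1.toSet) (h2 : y ∈ S.1.toSet) (h3 : x ∈ T.1.toSet) (h4 : y ∈ T.1.toSet) :
    (adjGraph 𝒯).Adj S T :=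
  ⟨h, x, y, hxy, fun _ hz => ⟨segment_subset_toSet h1 h2 hz, segment_subset_toSet h3 h4 hz⟩⟩

theorem nonempty_inter_of_adj {𝒯 : Set DSquare} {S T : 𝒯} (h : (adjGraph 𝒯).Adj S T) :
    ∃ z, z ∈ S.1.toSet ∧ z ∈ T.1.toSet := by
  obtain ⟨_, x, y, _, hs⟩ := h
  exact ⟨x, hs (left_mem_segment ℝ x y)⟩

/-- squares over horizontally neighbouring squares of one level are equal or adjacent -/
theorem step_right {𝒯 : Set DSquare} {S T : 𝒯} {n i j : ℤ} {k l : ℕ}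
    (hS : S.1 = anc k ⟨n, i, j⟩) (hT : T.1 = anc l ⟨n, i + 1, j⟩) :
    S = T ∨ (adjGraph 𝒯).Adj S T := by
  by_cases h : S = T
  · exact Or.inl h
  refine Or.inr ?_
  have hs1 : (⟨n, i, j⟩ : DSquare).toSet ⊆ S.1.toSet := hS ▸ subset_anc k _
  have hs2 : (⟨n, i + 1, j⟩ : DSquare).toSet ⊆ T.1.toSet := hT ▸ subset_anc l _
  have hp : 0 < (2 : ℝ) ^ (-n) := by positivity
  refine adj_of_two h (x := ⟨(i + 1) * (2 : ℝ) ^ (-n), j * (2 : ℝ) ^ (-n)⟩)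
    (y := ⟨(i + 1) * (2 : ℝ) ^ (-n), (j + 1) * (2 : ℝ) ^ (-n)⟩) ?_ (hs1 ?_) (hs1 ?_) (hs2 ?_)
    (hs2 ?_)
  · intro h
    have := congrArg Complex.im h
    simp only at this
    nlinarith
  all_goals
    simp only [toSet, side, Set.mem_ofPred_eq]
    push_cast
    refine ⟨?_, ?_, ?_, ?_⟩ <;> nlinarith

/-- squares over vertically neighbouring squares of one level are equal or adjacent -/
theorem step_up {𝒯 : Set DSquare} {S T : 𝒯} {n i j : ℤ} {k l : ℕ}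
    (hS : S.1 = anc k ⟨n, i, j⟩) (hT : T.1 = anc l ⟨n, i, j + 1⟩) :
    S = T ∨ (adjGraph 𝒯).Adj S T := by
  by_cases h : S = T
  · exact Or.inl h
  refine Or.inr ?_
  have hs1 : (⟨n, i, j⟩ : DSquare).toSet ⊆ S.1.toSet := hS ▸ subset_anc k _
  have hs2 : (⟨n, i, j + 1⟩ : DSquare).toSet ⊆ T.1.toSet := hT ▸ subset_anc l _
  have hp : 0 < (2 : ℝ) ^ (-n) := by positivity
  refine adj_of_two h (x := ⟨i * (2 : ℝ) ^ (-n), (j + 1) * (2 : ℝ) ^ (-n)⟩)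
    (y := ⟨(i + 1) * (2 : ℝ) ^ (-n), (j + 1) * (2 : ℝ) ^ (-n)⟩) ?_ (hs1 ?_) (hs1 ?_) (hs2 ?_)
    (hs2 ?_)
  · intro h
    have := congrArg Complex.re h
    simp only at this
    nlinarith
  all_goals
    simp only [toSet, side, Set.mem_ofPred_eq]
    push_cast
    refine ⟨?_, ?_, ?_, ?_⟩ <;> nlinarith

/-! ### Arithmetic -/

theorem dvd_ediv {i : ℤ} {p q : ℕ} (h : (2 : ℤ) ^ (p + q) ∣ i) : (2 : ℤ) ^ p ∣ i / 2 ^ q := by
  obtain ⟨c, rfl⟩ := h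
  rw [show (2 : ℤ) ^ (p + q) * c = 2 ^ p * c * 2 ^ q by ring,
    Int.mul_ediv_cancel _ (by positivity)]
  exact dvd_mul_right _ _

theorem dvd_ediv' {i : ℤ} {p q : ℕ} (h : (2 : ℤ) ^ (p + q) ∣ i + 1) :
    (2 : ℤ) ^ p ∣ i / 2 ^ q + 1 := by
  obtain ⟨c, hc⟩ := h
  have hi : i = (2 ^ p * c - 1) * 2 ^ q + (2 ^ q - 1) := by
    have : i = 2 ^ (p + q) * c - 1 := by linarith
    rw [this]; ring
  have hq : (0 : ℤ) < 2 ^ q := by positivity
  have : i / 2 ^ q = 2 ^ p * c - 1 := by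
    rw [hi, add_comm, Int.add_mul_ediv_right _ _ hq.ne',
      Int.ediv_eq_zero_of_lt (by omega) (by omega)]
    ring
  rw [this]
  exact ⟨c, by ring⟩

/-- `2^p` divides `i`, `i + 1`, `j` or `j + 1` -/
def Bd (p : ℕ) (i j : ℤ) : Prop :=
  (2 : ℤ) ^ p ∣ i ∨ (2 : ℤ) ^ p ∣ i + 1 ∨ (2 : ℤ) ^ p ∣ j ∨ (2 : ℤ) ^ p ∣ j + 1

theorem Bd.ediv {p q : ℕ} {i j : ℤ} (h : Bd (p + q) i j) : Bd p (i / 2 ^ q) (j / 2 ^ q) := by
  rcases h with h | h | h | h
  · exact Or.inl (dvd_ediv h)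
  · exact Or.inr (Or.inl (dvd_ediv' h))
  · exact Or.inr (Or.inr (Or.inl (dvd_ediv h)))
  · exact Or.inr (Or.inr (Or.inr (dvd_ediv' h)))

theorem ediv_mul_pow (i : ℤ) (q : ℕ) : (i * 2 ^ q) / 2 ^ q = i :=
  Int.mul_ediv_cancel _ (by positivity)

theorem ediv_mul_pow' (i : ℤ) (q : ℕ) : (i * 2 ^ q + (2 ^ q - 1)) / 2 ^ q = i := by
  have hq : (0 : ℤ) < 2 ^ q := by positivity
  rw [add_comm, Int.add_mul_ediv_right _ _ hq.ne', Int.ediv_eq_zero_of_lt (by omega) (by omega)]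
  ring

theorem Bd.exists_desc {p : ℕ} {i j : ℤ} (h : Bd p i j) (q : ℕ) :
    ∃ i' j' : ℤ, i' / 2 ^ q = i ∧ j' / 2 ^ q = j ∧ Bd (p + q) i' j' := by
  rcases h with h | h | h | h
  · refine ⟨i * 2 ^ q, j * 2 ^ q, ediv_mul_pow _ _, ediv_mul_pow _ _, Or.inl ?_⟩
    rw [pow_add]
    exact mul_dvd_mul_right h _
  · refine ⟨i * 2 ^ q + (2 ^ q - 1), j * 2 ^ q, ediv_mul_pow' _ _, ediv_mul_pow _ _,
      Or.inr (Or.inl ?_)⟩
    rw [pow_add, show i * 2 ^ q + (2 ^ q - 1) + 1 = (i + 1) * 2 ^ q by ring]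
    exact mul_dvd_mul_right h _
  · refine ⟨i * 2 ^ q, j * 2 ^ q, ediv_mul_pow _ _, ediv_mul_pow _ _,
      Or.inr (Or.inr (Or.inl ?_))⟩
    rw [pow_add]
    exact mul_dvd_mul_right h _
  · refine ⟨i * 2 ^ q, j * 2 ^ q + (2 ^ q - 1), ediv_mul_pow _ _, ediv_mul_pow' _ _,
      Or.inr (Or.inr (Or.inr ?_))⟩
    rw [pow_add, show j * 2 ^ q + (2 ^ q - 1) + 1 = (j + 1) * 2 ^ q by ring]
    exact mul_dvd_mul_right h _

/-! ### Squares inside `[1, 2] × [0, 1]` -/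

/-- `⟨N, i, j⟩` is contained in `[1, 2] × [0, 1]` -/
def InB (N : ℕ) (i j : ℤ) : Prop := i / 2 ^ N = 1 ∧ j / 2 ^ N = 0

theorem inB_iff {N : ℕ} {i j : ℤ} :
    InB N i j ↔ (2 : ℤ) ^ N ≤ i ∧ i < 2 ^ N + 2 ^ N ∧ 0 ≤ j ∧ j < 2 ^ N := by
  have hN : (0 : ℤ) < 2 ^ N := by positivity
  unfold InB
  constructor
  · rintro ⟨h1, h2⟩
    have a1 := Int.ediv_mul_le i hN.ne'
    have a2 := Int.lt_ediv_add_one_mul_self i hN
    have a3 := Int.ediv_mul_le j hN.ne'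
    have a4 := Int.lt_ediv_add_one_mul_self j hN
    rw [h1] at a1 a2
    rw [h2] at a3 a4
    refine ⟨?_, ?_, ?_, ?_⟩ <;> linarith
  · rintro ⟨h1, h2, h3, h4⟩
    refine ⟨?_, Int.ediv_eq_zero_of_lt h3 h4⟩
    apply le_antisymm
    · have : i / 2 ^ N < 2 := Int.ediv_lt_of_lt_mul hN (by linarith)
      omega
    · exact Int.le_ediv_of_mul_le hN (by linarith)

theorem InB.ediv {N : ℕ} {i j : ℤ} {q : ℕ} (h : InB (N + q) i j) : InB N (i / 2 ^ q) (j / 2 ^ q) := by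
  unfold InB at *
  rw [Int.ediv_ediv_of_nonneg (by positivity), Int.ediv_ediv_of_nonneg (by positivity), ← pow_add,
    add_comm q N]
  exact h

theorem InB.of_ediv {N : ℕ} {i j : ℤ} {q : ℕ} (h : InB N (i / 2 ^ q) (j / 2 ^ q)) :
    InB (N + q) i j := by
  unfold InB at *
  rw [Int.ediv_ediv_of_nonneg (by positivity), Int.ediv_ediv_of_nonneg (by positivity), ← pow_add,
    add_comm q N] at h
  exact h

theorem anc_inB {N : ℕ} {i j : ℤ} (h : InB N i j) {k : ℕ} (hk : N < k) :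
    anc k ⟨N, i, j⟩ = anc (k - N) ⟨0, 0, 0⟩ := by
  obtain ⟨d, rfl⟩ := Nat.exists_eq_add_of_lt hk
  have e : N + d + 1 - N = d + 1 := by omega
  rw [e]
  have h2 : (1 : ℤ) < 2 ^ (d + 1) := by
    have : (2 : ℤ) ^ 1 ≤ 2 ^ (d + 1) := pow_le_pow_right₀ (by norm_num) (by omega)
    linarith
  ext
  · simp only [anc]; push_cast; ring
  · simp only [anc]
    rw [show N + d + 1 = N + (d + 1) by ring, pow_add, ← Int.ediv_ediv_of_nonneg (by positivity),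
      h.1, Int.zero_ediv]
    exact Int.ediv_eq_zero_of_lt (by norm_num) h2
  · simp only [anc]
    rw [show N + d + 1 = N + (d + 1) by ring, pow_add, ← Int.ediv_ediv_of_nonneg (by positivity),
      h.2]

/-- no level-`N` square inside `[1, 2] × [0, 1]` which touches the boundary of a level-`m` square is
alive -/
def NoAlive (x : DSquare → ℝ) (u : ℝ) (m N : ℕ) : Prop :=
  ∀ i j, InB N i j → Bd (N - m) i j → ¬ Alive x u ⟨N, i, j⟩

section

variable {x : DSquare → ℝ} {u : ℝ}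

theorem exists_tile_inB (hanc : ∀ k, 0 < k → u < x (anc k ⟨0, 0, 0⟩)) {N : ℕ} {i j : ℤ}
    (h : InB N i j) (hal : ¬ Alive x u ⟨N, i, j⟩) : ∃ k ≤ N, anc k ⟨N, i, j⟩ ∈ tiles x u := by
  obtain ⟨k, hk, hk'⟩ := exists_tile hal (N + 1) (fun k hk => by
    rw [anc_inB h (by omega)]
    exact hanc _ (by omega))
  exact ⟨k, by omega, hk'⟩

theorem row_walk (hroot : (⟨0, 0, 0⟩ : DSquare) ∈ tiles x u)
    (hanc : ∀ k, 0 < k → u < x (anc k ⟨0, 0, 0⟩)) {m N : ℕ} (hno : NoAlive x u m N)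
    {j : ℤ} (hj : (2 : ℤ) ^ (N - m) ∣ j ∨ (2 : ℤ) ^ (N - m) ∣ j + 1) (a : ℕ)
    (hin : InB N (2 ^ N + a) j) (T : tiles x u) {k : ℕ} (hT : T.1 = anc k ⟨N, 2 ^ N + a, j⟩) :
    ∃ w : (adjGraph (tiles x u)).Walk ⟨_, hroot⟩ T, w.length ≤ a + 1 := by
  have hj0 := (inB_iff.1 hin)
  induction a generalizing T k with
  | zero =>
    have h0 : (⟨_, hroot⟩ : tiles x u).1 = anc N ⟨N, 2 ^ N - 1, j⟩ := by
      have hN : (0 : ℤ) < 2 ^ N := by positivity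
      ext
      · simp [anc]
      · simp only [anc]
        rw [Int.ediv_eq_zero_of_lt (by omega) (by omega)]
      · simp only [anc]
        rw [Int.ediv_eq_zero_of_lt hj0.2.2.1 hj0.2.2.2]
    have h1 : T.1 = anc k ⟨N, 2 ^ N - 1 + 1, j⟩ := by
      rw [hT]; congr 2; push_cast; ring
    rcases step_right h0 h1 with h | h
    · subst h
      exact ⟨SimpleGraph.Walk.nil, by simp⟩
    · exact ⟨SimpleGraph.Walk.cons h SimpleGraph.Walk.nil, by simp⟩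
  | succ a ih =>
    have hin' : InB N (2 ^ N + a) j := by
      rw [inB_iff] at hin ⊢
      push_cast at hin
      omega
    have hbd : Bd (N - m) (2 ^ N + a) j := by
      rcases hj with h | h
      · exact Or.inr (Or.inr (Or.inl h))
      · exact Or.inr (Or.inr (Or.inr h))
    obtain ⟨l, _, hl⟩ := exists_tile_inB hanc hin' (hno _ _ hin' hbd)
    obtain ⟨w, hw⟩ := ih hin' ⟨_, hl⟩ rfl (inB_iff.1 hin')
    have h1 : T.1 = anc k ⟨N, 2 ^ N + a + 1, j⟩ := by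
      rw [hT]; congr 2
    rcases step_right (S := ⟨_, hl⟩) (k := l) rfl h1 with h | h
    · subst h
      exact ⟨w, by omega⟩
    · exact ⟨w.concat h, by rw [SimpleGraph.Walk.length_concat]; omega⟩

theorem col_walk (hroot : (⟨0, 0, 0⟩ : DSquare) ∈ tiles x u)
    (hanc : ∀ k, 0 < k → u < x (anc k ⟨0, 0, 0⟩)) {m N : ℕ} (hno : NoAlive x u m N)
    {a : ℕ} (hi : (2 : ℤ) ^ (N - m) ∣ 2 ^ N + (a : ℤ) ∨ (2 : ℤ) ^ (N - m) ∣ 2 ^ N + (a : ℤ) + 1)
    (b : ℕ) (hin : InB N (2 ^ N + a) b) (T : tiles x u) {k : ℕ}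
    (hT : T.1 = anc k ⟨N, 2 ^ N + a, b⟩) :
    ∃ w : (adjGraph (tiles x u)).Walk ⟨_, hroot⟩ T, w.length ≤ a + b + 1 := by
  induction b generalizing T k with
  | zero =>
    obtain ⟨w, hw⟩ := row_walk hroot hanc hno (j := ((0 : ℕ) : ℤ)) (Or.inl (by simp)) a hin T hT
    exact ⟨w, by omega⟩
  | succ b ih =>
    have hin' : InB N (2 ^ N + a) b := by
      rw [inB_iff] at hin ⊢
      push_cast at hin
      omega
    have hbd : Bd (N - m) (2 ^ N + a) b := by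
      rcases hi with h | h
      · exact Or.inl h
      · exact Or.inr (Or.inl h)
    obtain ⟨l, _, hl⟩ := exists_tile_inB hanc hin' (hno _ _ hin' hbd)
    obtain ⟨w, hw⟩ := ih hin' ⟨_, hl⟩ rfl
    have h1 : T.1 = anc k ⟨N, 2 ^ N + a, b + 1⟩ := by
      rw [hT]; congr 2
    rcases step_up (S := ⟨_, hl⟩) (k := l) rfl h1 with h | h
    · subst h
      exact ⟨w, by omega⟩
    · exact ⟨w.concat h, by rw [SimpleGraph.Walk.length_concat]; omega⟩

/-- Every tile over a level-`N` square on the level-`m` grid is close to the root. -/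
theorem grid_walk (hroot : (⟨0, 0, 0⟩ : DSquare) ∈ tiles x u)
    (hanc : ∀ k, 0 < k → u < x (anc k ⟨0, 0, 0⟩)) {m N : ℕ} (hno : NoAlive x u m N)
    {i j : ℤ} (hin : InB N i j) (hbd : Bd (N - m) i j) (T : tiles x u) {k : ℕ}
    (hT : T.1 = anc k ⟨N, i, j⟩) :
    ∃ w : (adjGraph (tiles x u)).Walk ⟨_, hroot⟩ T, w.length ≤ 2 ^ (N + 1) := by
  obtain ⟨h1, h2, h3, h4⟩ := inB_iff.1 hin
  obtain ⟨a, rfl⟩ : ∃ a : ℕ, i = 2 ^ N + a := ⟨(i - 2 ^ N).toNat, by omega⟩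
  obtain ⟨b, rfl⟩ : ∃ b : ℕ, j = b := ⟨j.toNat, by omega⟩
  have ha : a < 2 ^ N := by zify; omega
  have hb : b < 2 ^ N := by zify; omega
  have hp : 2 ^ (N + 1) = 2 ^ N + 2 ^ N := by ring
  rcases hbd with h | h | h | h
  · obtain ⟨w, hw⟩ := col_walk hroot hanc hno (Or.inl h) b hin T hT
    exact ⟨w, by omega⟩
  · obtain ⟨w, hw⟩ := col_walk hroot hanc hno (Or.inr h) b hin T hT
    exact ⟨w, by omega⟩
  · obtain ⟨w, hw⟩ := row_walk hroot hanc hno (Or.inl h) a hin T hT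
    exact ⟨w, by omega⟩
  · obtain ⟨w, hw⟩ := row_walk hroot hanc hno (Or.inr h) a hin T hT
    exact ⟨w, by omega⟩

/-- A tile inside a level-`m` square `U` which touches its boundary has level at most `N`. -/
theorem level_le_of_bd {m N : ℕ} (hmN : m ≤ N) (hno : NoAlive x u m N) {q : ℕ} {i j : ℤ}
    (hin : InB (m + q) i j) (hbd : Bd q i j) (hT : (⟨(m + q : ℕ), i, j⟩ : DSquare) ∈ tiles x u) :
    m + q ≤ N := by
  by_contra hc
  obtain ⟨d, hd⟩ := Nat.exists_eq_add_of_lt (not_le.1 hc)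
  obtain ⟨e, rfl⟩ := Nat.exists_eq_add_of_le hmN
  have hq : q = e + (d + 1) := by omega
  subst hq
  have h1 : InB (m + e) (i / 2 ^ (d + 1)) (j / 2 ^ (d + 1)) := by
    apply InB.ediv; rwa [add_assoc]
  have h2 : Bd (m + e - m) (i / 2 ^ (d + 1)) (j / 2 ^ (d + 1)) := by
    rw [Nat.add_sub_cancel_left]; exact hbd.ediv
  apply hno _ _ h1 h2
  have h3 := alive_anc_of_tile hT (k := d + 1) (by omega)
  have h4 : anc (d + 1) (⟨(m + (e + (d + 1)) : ℕ), i, j⟩ : DSquare) =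
      ⟨(m + e : ℕ), i / 2 ^ (d + 1), j / 2 ^ (d + 1)⟩ := by
    ext <;> simp only [anc]
    push_cast; ring
  rwa [h4] at h3

/-- A tile inside a level-`m` square `U` which touches its boundary is close to the root. -/
theorem bd_walk (hroot : (⟨0, 0, 0⟩ : DSquare) ∈ tiles x u)
    (hanc : ∀ k, 0 < k → u < x (anc k ⟨0, 0, 0⟩)) {m N : ℕ} (hmN : m ≤ N)
    (hno : NoAlive x u m N) {q : ℕ} {i j : ℤ}
    (hin : InB (m + q) i j) (hbd : Bd q i j) (hT : (⟨(m + q : ℕ), i, j⟩ : DSquare) ∈ tiles x u) :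
    ∃ w : (adjGraph (tiles x u)).Walk ⟨_, hroot⟩ ⟨_, hT⟩, w.length ≤ 2 ^ (N + 1) := by
  have hle := level_le_of_bd hmN hno hin hbd hT
  obtain ⟨d, rfl⟩ := Nat.exists_eq_add_of_le hle
  obtain ⟨i', j', h1, h2, h3⟩ := hbd.exists_desc d
  have h4 : InB (m + q + d) i' j' := by
    apply InB.of_ediv; rw [h1, h2]; exact hin
  refine grid_walk hroot hanc hno h4 ?_ ⟨_, hT⟩ (k := d) ?_
  · rwa [show m + q + d - m = q + d by omega]
  · ext <;> simp only [anc]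
    · push_cast; ring
    · exact h1.symm
    · exact h2.symm

end

end Pool.Agent.Y980
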