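import Pool.Agent.Y980.Cov
import Pool.Agent.Y980.Det

/-!
# Covariances of the circle averages over dyadic squares
-/

set_option autoImplicit false

namespace Pool.Agent.Y980

open MeasureTheory ProbabilityTheory Real DSquare

theorem log_two_pos : 0 < log 2 := log_pos (by norm_num)

theorem log_two_lt : log 2 < 0.7 := by have := log_two_lt_d9; linarith

theorem log_two_gt : 0.69 < log 2 := by have := log_two_gt_d9; linarith

theorem side_eq (S : DSquare) : S.side = exp (-(S.n * log 2)) := by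
  unfold side
  rw [← neg_mul, mul_comm, exp_mul, exp_log (by norm_num)]
  have := (rpow_intCast (2 : ℝ) (-S.n)).symm
  rw [this]
  push_cast
  rfl

theorem half_side_eq (S : DSquare) : S.side / 2 = exp (-((S.n + 1) * log 2)) := by
  rw [side_eq, add_mul, one_mul, neg_add, exp_add, exp_neg (log 2), exp_log (by norm_num)]
  rfl

theorem log_half_side (S : DSquare) : log (S.side / 2) = -((S.n + 1) * log 2) := by
  rw [half_side_eq, log_exp]

theorem norm_le_of_sq {z : ℂ} {b : ℝ} (hb : 0 ≤ b) (h : z.re ^ 2 + z.im ^ 2 ≤ b ^ 2) : ‖z‖ ≤ b := by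
  refine abs_le_of_sq_le_sq' ?_ hb |>.2
  rw [Complex.sq_norm, Complex.normSq_apply]
  linarith

theorem sA_self (S : DSquare) : sA S S = -((S.n + 1) * log 2) := by
  unfold sA
  rw [cA_self (half_pos' S), log_half_side]

theorem sA_ge (S T : DSquare) : -((T.n + 1) * log 2) ≤ sA S T := by
  rw [← log_half_side]
  exact log_le_cA (half_pos' T)

theorem sA_le {S T : DSquare} {b : ℝ} (h1 : -((T.n + 1) * log 2) ≤ b)
    (h : ∀ x ∈ S.toSet, ‖x - T.center‖ ≤ exp b) : sA S T ≤ b := by
  unfold sA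
  refine cA_le (half_pos' T) ?_ (fun x hx => h x (sphere_coord hx))
  rw [half_side_eq]
  exact exp_le_exp.2 h1

theorem sN_nonneg (S : DSquare) : 0 ≤ sN S := cN_nonneg _ _

theorem sN_le {S : DSquare} {b : ℝ} (hb : 0 ≤ b) (h : ∀ x ∈ S.toSet, ‖x‖ ≤ exp b) : sN S ≤ b :=
  cN_le hb (fun x hx => h x (sphere_coord hx))

theorem sub_center {T : DSquare} {x : ℂ} (hx : x ∈ T.toSet) : ‖x - T.center‖ ≤ T.side := by
  have hs := T.side_pos
  simp only [toSet, Set.mem_ofPred_eq] at hx
  obtain ⟨h1, h2, h3, h4⟩ := hx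
  apply norm_le_of_sq hs.le
  simp only [DSquare.center, Complex.sub_re, Complex.sub_im]
  have a1 : |x.re - (T.i + 1 / 2) * T.side| ≤ T.side / 2 := by
    rw [abs_le]; constructor <;> linarith
  have a2 : |x.im - (T.j + 1 / 2) * T.side| ≤ T.side / 2 := by
    rw [abs_le]; constructor <;> linarith
  have b1 := sq_le_sq' (abs_le.1 a1).1 (abs_le.1 a1).2
  have b2 := sq_le_sq' (abs_le.1 a2).1 (abs_le.1 a2).2
  nlinarith

/-- the square `⟨N, i, j⟩` inside `[1,2] × [0,1]` -/
theorem inB_subset {n : ℕ} {i j : ℤ} (h : InB n i j) {x : ℂ}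
    (hx : x ∈ (⟨n, i, j⟩ : DSquare).toSet) : 1 ≤ x.re ∧ x.re ≤ 2 ∧ 0 ≤ x.im ∧ x.im ≤ 1 := by
  have h1 := subset_anc n _ hx
  have e : anc n (⟨n, i, j⟩ : DSquare) = ⟨0, 1, 0⟩ := by
    ext
    · simp [anc]
    · exact h.1
    · exact h.2
  rw [e] at h1
  simp only [toSet, side, Set.mem_ofPred_eq] at h1
  norm_num at h1
  exact h1

theorem norm_le_inB {n : ℕ} {i j : ℤ} (h : InB n i j) {x : ℂ}
    (hx : x ∈ (⟨n, i, j⟩ : DSquare).toSet) : ‖x‖ ≤ exp 1 := by
  obtain ⟨h1, h2, h3, h4⟩ := inB_subset h hx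
  apply norm_le_of_sq (exp_pos _).le
  have := exp_one_gt_d9
  nlinarith

theorem sN_inB {n : ℕ} {i j : ℤ} (h : InB n i j) : sN ⟨n, i, j⟩ ≤ 1 :=
  sN_le zero_le_one (fun _ hx => norm_le_inB h hx)

section

variable {Ω : Type*} [MeasurableSpace Ω] {P : Measure Ω} {h : ℝ → ℂ → Ω → ℝ}

/-- variance of the average over a square in `[1,2] × [0,1]`, covariance with an ancestor -/
theorem cov_anc (hh : IsGFF P h) {t q : ℕ} {i j : ℤ} (hin : InB (t + q) i j) :
    t * log 2 ≤ cov[sqv h ⟨(t + q : ℕ), i, j⟩, sqv h ⟨t, i / 2 ^ q, j / 2 ^ q⟩; P] ∧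
    cov[sqv h ⟨(t + q : ℕ), i, j⟩, sqv h ⟨t, i / 2 ^ q, j / 2 ^ q⟩; P] ≤ t * log 2 + 3 := by
  have hin' : InB t (i / 2 ^ q) (j / 2 ^ q) := hin.ediv
  rw [cov_sq hh]
  have h1 := sN_inB hin
  have h2 := sN_inB hin'
  have h3 := sN_nonneg ⟨(t + q : ℕ), i, j⟩
  have h4 := sN_nonneg ⟨t, i / 2 ^ q, j / 2 ^ q⟩
  have h5 := sA_ge ⟨(t + q : ℕ), i, j⟩ ⟨t, i / 2 ^ q, j / 2 ^ q⟩
  have hl := log_two_pos
  have h6 : sA ⟨(t + q : ℕ), i, j⟩ ⟨t, i / 2 ^ q, j / 2 ^ q⟩ ≤ -(t * log 2) := by
    apply sA_le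
    · simp only; push_cast; nlinarith
    · intro x hx
      have e : anc q (⟨(t + q : ℕ), i, j⟩ : DSquare) = ⟨t, i / 2 ^ q, j / 2 ^ q⟩ := by
        ext <;> simp only [anc]
        push_cast; ring
      have := sub_center (e ▸ subset_anc q _ hx)
      rw [side_eq] at this
      exact this
  have hl2 := log_two_lt
  simp only [Int.cast_natCast] at h5
  constructor <;> nlinarith

theorem zpow_neg_eq (n : ℕ) : (2 : ℝ) ^ (-(n : ℤ)) = exp (-(n * log 2)) := by
  have := side_eq ⟨n, 0, 0⟩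
  simpa [side] using this

/-- the covariance of two squares of level `n` at distance `k` -/
theorem cov_le (hh : IsGFF P h) {n : ℕ} {i j i' j' : ℤ} (hin : InB n i j) (hin' : InB n i' j')
    {k : ℕ} (hk : (k : ℤ) ≤ |i - i'| ∨ (k : ℤ) ≤ |j - j'|) :
    cov[sqv h ⟨n, i, j⟩, sqv h ⟨n, i', j'⟩; P] ≤ (n + 1) * log 2 - log (k + 1) + 2 := by
  rw [cov_sq hh]
  have h1 := sN_inB hin
  have h2 := sN_inB hin'
  have h5 := sA_ge ⟨n, i, j⟩ ⟨n, i', j'⟩
  rcases Nat.eq_zero_or_pos k with h0 | h0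
  · subst h0
    simp only [Nat.cast_zero, zero_add, log_one]
    simp only at h5
    push_cast at h5
    linarith
  · have hs : 0 < (⟨n, i, j⟩ : DSquare).side := side_pos _
    have hk0 : (1 : ℝ) ≤ k := by exact_mod_cast h0
    have hd : (k : ℝ) * (⟨n, i, j⟩ : DSquare).side ≤
        ‖(⟨n, i, j⟩ : DSquare).center - (⟨n, i', j'⟩ : DSquare).center‖ := by
      rcases hk with hk | hk
      · refine le_trans ?_ (Complex.abs_re_le_norm _)
        have e : ((⟨n, i, j⟩ : DSquare).center - (⟨n, i', j'⟩ : DSquare).center).re =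
            ((i - i' : ℤ) : ℝ) * (⟨n, i, j⟩ : DSquare).side := by
          simp only [DSquare.center, Complex.sub_re, side]
          push_cast; ring
        rw [e, abs_mul, abs_of_pos hs]
        apply mul_le_mul_of_nonneg_right _ hs.le
        exact_mod_cast hk
      · refine le_trans ?_ (Complex.abs_im_le_norm _)
        have e : ((⟨n, i, j⟩ : DSquare).center - (⟨n, i', j'⟩ : DSquare).center).im =
            ((j - j' : ℤ) : ℝ) * (⟨n, i, j⟩ : DSquare).side := by
          simp only [DSquare.center, Complex.sub_im, side]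
          push_cast; ring
        rw [e, abs_mul, abs_of_pos hs]
        apply mul_le_mul_of_nonneg_right _ hs.le
        exact_mod_cast hk
    have hpos : 0 < (k : ℝ) * (⟨n, i, j⟩ : DSquare).side := by positivity
    have hne : (⟨n, i, j⟩ : DSquare).center ≠ (⟨n, i', j'⟩ : DSquare).center := by
      intro he
      rw [he, sub_self, norm_zero] at hd
      linarith
    have h3 := log_norm_le_cA (half_pos' ⟨n, i, j⟩) (half_pos' ⟨n, i', j'⟩) hne
    have h4 : log ((k + 1) / 2 * (⟨n, i, j⟩ : DSquare).side) ≤ sA ⟨n, i, j⟩ ⟨n, i', j'⟩ := by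
      refine le_trans (log_le_log (by positivity) ?_) h3
      refine le_trans ?_ hd
      apply mul_le_mul_of_nonneg_right _ hs.le
      linarith
    rw [side_eq, log_mul (by positivity) (exp_pos _).ne', log_exp, log_div (by positivity)
      (by norm_num)] at h4
    simp only at h4
    push_cast at h4
    linarith

/-- the covariance of a square of level `n` with the level-`m` ancestor of a nearby square -/
theorem cov_ge (hh : IsGFF P h) {m q : ℕ} {i j i' j' : ℤ}
    (hi : |i - i'| < 2 ^ q) (hj : |j - j'| < 2 ^ q) :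
    m * log 2 - 2 ≤ cov[sqv h ⟨(m + q : ℕ), i', j'⟩, sqv h ⟨m, i / 2 ^ q, j / 2 ^ q⟩; P] := by
  rw [cov_sq hh]
  have h3 := sN_nonneg ⟨(m + q : ℕ), i', j'⟩
  have h4 := sN_nonneg ⟨m, i / 2 ^ q, j / 2 ^ q⟩
  have hl := log_two_lt
  have hl0 := log_two_pos
  have h6 : sA ⟨(m + q : ℕ), i', j'⟩ ⟨m, i / 2 ^ q, j / 2 ^ q⟩ ≤ -(m * log 2) + 2 * log 2 := by
    apply sA_le
    · simp only; push_cast; nlinarith
    · intro x hx
      have e : exp (-(m * log 2) + 2 * log 2) = 4 * (⟨m, i / 2 ^ q, j / 2 ^ q⟩ : DSquare).side := by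
        rw [side_eq, exp_add, show 2 * log 2 = log 2 + log 2 by ring, exp_add, exp_log (by norm_num)]
        simp only
        push_cast
        ring
      rw [e]
      set s := (⟨m, i / 2 ^ q, j / 2 ^ q⟩ : DSquare).side with hs
      have hs0 : 0 < s := side_pos _
      have e2 : s = 2 ^ q * (⟨(m + q : ℕ), i', j'⟩ : DSquare).side := by
        rw [hs, ← side_anc]
        simp only [anc, side]
        push_cast
        ring_nf
      rw [mem_toSet] at hx
      obtain ⟨x1, x2, x3, x4⟩ := hx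
      set s' := (⟨(m + q : ℕ), i', j'⟩ : DSquare).side with hs'
      have hs0' : 0 < s' := side_pos _
      rw [le_div_iff₀ hs0'] at x1 x3
      rw [div_le_iff₀ hs0'] at x2 x4
      simp only at x1 x2 x3 x4
      have hq : (0 : ℝ) < 2 ^ q := by positivity
      have gen : ∀ (a a' : ℤ) (t : ℝ), |a - a'| < 2 ^ q → (a' : ℝ) * s' ≤ t → t ≤ (a' + 1) * s' →
          |t - (((a / 2 ^ q : ℤ) : ℝ) + 1 / 2) * s| ≤ 2 * s := by
        intro a a' t ha h1 h2
        have b1 := ediv_le_real a q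
        have b2 := real_lt_ediv a q
        have b3 : |((a : ℝ) - a')| ≤ 2 ^ q - 1 := by
          have : |a - a'| ≤ 2 ^ q - 1 := by omega
          exact_mod_cast this
        rw [abs_le] at b3 ⊢
        rw [e2]
        set c : ℝ := ((a / 2 ^ q : ℤ) : ℝ)
        have c1 : c * (2 ^ q * s') ≤ a * s' := by
          have := mul_le_mul_of_nonneg_right b1 hs0'.le
          linarith
        have c2 : (a + 1) * s' ≤ (c + 1) * (2 ^ q * s') := by
          have := mul_le_mul_of_nonneg_right b2 hs0'.le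
          linarith
        have c3 : (a - a') * s' ≤ (2 ^ q - 1) * s' := mul_le_mul_of_nonneg_right b3.2 hs0'.le
        have c4 : -((2 ^ q - 1) * s') ≤ (a - a') * s' := by
          have := mul_le_mul_of_nonneg_right b3.1 hs0'.le
          linarith
        have c5 : 0 < 2 ^ q * s' := by positivity
        constructor <;> nlinarith
      have g1 := gen i i' x.re hi x1 x2
      have g2 := gen j j' x.im hj x3 x4
      apply norm_le_of_sq (by positivity)
      simp only [DSquare.center, Complex.sub_re, Complex.sub_im]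
      have b1 := sq_le_sq' (abs_le.1 g1).1 (abs_le.1 g1).2
      have b2 := sq_le_sq' (abs_le.1 g2).1 (abs_le.1 g2).2
      nlinarith
  nlinarith

end

end Pool.Agent.Y980
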