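import Mathlib

/-!
# Definitions: dyadic tilings of Liouville quantum gravity and local GHP convergence
-/

set_option autoImplicit false

namespace Pool.Agent.Y980

open MeasureTheory ProbabilityTheory Filter Topology

/-- Covariance kernel of the whole-plane Gaussian free field normalised to have average `0` over the
unit circle: `log (|z|₊ |w|₊ / |z - w|)` with `|z|₊ = max (|z|, 1)`. -/
noncomputable def gffCov (z w : ℂ) : ℝ :=
  Real.log (max ‖z‖ 1) + Real.log (max ‖w‖ 1) - Real.log ‖z - w‖

/-- `h r z` (for `r > 0`) is the average over the circle of radius `r` around `z` of a whole-plane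
Gaussian free field `h` normalised to have average `0` over the unit circle: the family of all the
circle averages is a centered Gaussian process whose covariances are the double circle averages of
`gffCov`. -/
structure IsGFF {Ω : Type*} [MeasurableSpace Ω] (P : Measure Ω) (h : ℝ → ℂ → Ω → ℝ) : Prop where
  measurable : ∀ r z, 0 < r → Measurable (h r z)
  gaussian : IsGaussianProcess (fun p : Set.Ioi (0 : ℝ) × ℂ => h p.1 p.2) P
  mean : ∀ r z, 0 < r → ∫ ω, h r z ω ∂P = 0
  cov : ∀ r z s w, 0 < r → 0 < s → covariance (h r z) (h s w) P =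
    Real.circleAverage (fun x => Real.circleAverage (fun y => gffCov x y) w s) z r

/-- The index of a dyadic square: `⟨n, i, j⟩` stands for
`[i 2⁻ⁿ, (i + 1) 2⁻ⁿ] × [j 2⁻ⁿ, (j + 1) 2⁻ⁿ]`. -/
@[ext] structure DSquare where
  n : ℤ
  i : ℤ
  j : ℤ
deriving DecidableEq

namespace DSquare

/-- the side length `|S| = 2⁻ⁿ` -/
noncomputable def side (S : DSquare) : ℝ := (2 : ℝ) ^ (-S.n)

/-- the centre `v_S` -/
noncomputable def center (S : DSquare) : ℂ := ⟨(S.i + 1 / 2) * S.side, (S.j + 1 / 2) * S.side⟩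

/-- the closed dyadic square -/
def toSet (S : DSquare) : Set ℂ :=
  {z | S.i * S.side ≤ z.re ∧ z.re ≤ (S.i + 1) * S.side ∧
    S.j * S.side ≤ z.im ∧ z.im ≤ (S.j + 1) * S.side}

end DSquare

/-- A set `𝒯` of dyadic squares as a graph: two different squares are adjacent if they share a
non-degenerate line segment. -/
def adjGraph (𝒯 : Set DSquare) : SimpleGraph 𝒯 where
  Adj S T := S ≠ T ∧ ∃ x y : ℂ, x ≠ y ∧ segment ℝ x y ⊆ S.1.toSet ∩ T.1.toSet
  symm := ⟨by
    rintro S T ⟨h, x, y, hxy, hs⟩
    exact ⟨h.symm, x, y, hxy, by rwa [Set.inter_comm]⟩⟩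
  loopless := ⟨fun S h => h.1 rfl⟩

/-- For `M : DSquare → ℝ`, the squares `S` with `M S ≤ ε` all of whose strict dyadic ancestors `S'`
satisfy `M S' > ε`. -/
def tiles (M : DSquare → ℝ) (ε : ℝ) : Set DSquare :=
  {S | M S ≤ ε ∧ ∀ S' : DSquare, S.toSet ⊂ S'.toSet → ε < M S'}

section

variable {Ω : Type*}

/-- `M_h(S) = exp (h_{|S|/2}(v_S)) |S|^Q` -/
noncomputable def mass (Q : ℝ) (h : ℝ → ℂ → Ω → ℝ) (ω : Ω) (S : DSquare) : ℝ :=
  Real.exp (h (S.side / 2) S.center ω) * S.side ^ Q

/-- the dyadic tiling `𝒮_h^ε` -/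
def tiling (Q : ℝ) (h : ℝ → ℂ → Ω → ℝ) (ε : ℝ) (ω : Ω) : Set DSquare :=
  tiles (mass Q h ω) ε

end

/-- A pointed boundedly compact metric space with a locally finite Borel measure. -/
structure PMMSpace where
  X : Type
  [metric : MetricSpace X]
  [proper : ProperSpace X]
  [meas : MeasurableSpace X]
  [borel : BorelSpace X]
  o : X
  μ : Measure X
  [fin : IsLocallyFiniteMeasure μ]

attribute [instance] PMMSpace.metric PMMSpace.proper PMMSpace.meas PMMSpace.borel PMMSpace.fin

/-- Convergence of a sequence in the local Gromov-Hausdorff-Prokhorov topology: there are isometric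
embeddings into one boundedly compact metric space `Z` such that the base points converge, the
spaces converge in the Hausdorff sense on every ball, and the measures converge against every
continuous function with compact support. -/
def LocalGHP (Xs : ℕ → PMMSpace) (X : PMMSpace) : Prop :=
  ∃ (Z : Type) (_ : MetricSpace Z) (_ : ProperSpace Z) (f : ∀ n, (Xs n).X → Z) (g : X.X → Z),
    (∀ n, Isometry (f n)) ∧ Isometry g ∧
    Tendsto (fun n => f n (Xs n).o) atTop (𝓝 (g X.o)) ∧
    (∀ R δ : ℝ, 0 < δ → ∀ᶠ n in atTop,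
      (∀ x, dist x (Xs n).o ≤ R → ∃ y, dist (f n x) (g y) < δ) ∧
      (∀ y, dist y X.o ≤ R → ∃ x, dist (f n x) (g y) < δ)) ∧
    ∀ φ : Z → ℝ, Continuous φ → HasCompactSupport φ →
      Tendsto (fun n => ∫ x, φ (f n x) ∂(Xs n).μ) atTop (𝓝 (∫ y, φ (g y) ∂X.μ))

/-- The closed sets of the local Gromov-Hausdorff-Prokhorov topology. -/
def IsClosedGHP (C : Set PMMSpace) : Prop :=
  ∀ (Xs : ℕ → PMMSpace) (X : PMMSpace), (∀ n, Xs n ∈ C) → LocalGHP Xs X → X ∈ C

/-- Convergence in law, as `ε → 0+`, of the random spaces `X ε` (on `(Ω, P)`) to the random space `Y`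
(on `(Ω', P')`), for the local Gromov-Hausdorff-Prokhorov topology: `Y` is Borel measurable and
`limsup P (X ε ∈ C) ≤ P' (Y ∈ C)` for every closed set `C` (the portmanteau characterisation;
`P` is the outer measure when `{X ε ∈ C}` is not measurable). -/
def ConvergesInLaw {Ω Ω' : Type*} [MeasurableSpace Ω] [MeasurableSpace Ω']
    (P : Measure Ω) (X : ℝ → Ω → PMMSpace) (P' : Measure Ω') (Y : Ω' → PMMSpace) : Prop :=
  ∀ C : Set PMMSpace, IsClosedGHP C → NullMeasurableSet {ω | Y ω ∈ C} P' ∧
    limsup (fun ε : ℝ => P {ω | X ε ω ∈ C}) (𝓝[>] 0) ≤ P' {ω | Y ω ∈ C}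

/-- `X` is the set `𝒯` of dyadic squares, rooted at a square which contains `0` (any choice of it),
with the graph distance multiplied by `a` and the counting measure multiplied by `b`. (If the graph
is not connected, only the connected component of the root is kept: the other squares are at infinite
distance.) -/
def IsRescaled (𝒯 : Set DSquare) (a b : ℝ) (X : PMMSpace) : Prop :=
  ∃ (R : 𝒯) (e : {S : 𝒯 // (adjGraph 𝒯).Reachable R S} ≃ X.X),
    (0 : ℂ) ∈ R.1.toSet ∧ e ⟨R, SimpleGraph.Reachable.refl R⟩ = X.o ∧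
    (∀ S T, dist (e S) (e T) = a * (adjGraph 𝒯).dist S.1 T.1) ∧
    X.μ = ENNReal.ofReal b • Measure.count

end Pool.Agent.Y980
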