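import Pool.Agent.Y980.Det

/-!
# The deterministic part: several ends
-/

set_option autoImplicit false

namespace Pool.Agent.Y980

open DSquare

/-! ### Touching squares -/

/-- coordinates relative to the side length of a square of level `n + q` -/
theorem mem_side {S : DSquare} {z : ℂ} (hz : z ∈ S.toSet) {q : ℕ} :
    (((S.i / 2 ^ q : ℤ) : ℝ) ≤ z.re / (anc q S).side ∧
      z.re / (anc q S).side ≤ ((S.i / 2 ^ q : ℤ) : ℝ) + 1) ∧
    (((S.j / 2 ^ q : ℤ) : ℝ) ≤ z.im / (anc q S).side ∧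
      z.im / (anc q S).side ≤ ((S.j / 2 ^ q : ℤ) : ℝ) + 1) := by
  have h := mem_toSet.1 (subset_anc q S hz)
  exact ⟨⟨h.1, h.2.1⟩, h.2.2⟩

/-- one-dimensional touching lemma: `t` is a point (in units of the coarse square) of the fine
interval `[i, i+1] / 2^q`, which is contained in the coarse interval `[c, c+1]`, and of a
different coarse interval `[a, a+1]`. -/
theorem touch1 {i c a : ℤ} {q : ℕ} {t : ℝ} (hc : i / 2 ^ q = c) (h1 : (i : ℝ) ≤ t * 2 ^ q)
    (h2 : t * 2 ^ q ≤ i + 1) (h3 : (a : ℝ) ≤ t) (h4 : t ≤ a + 1) (hne : a ≠ c) :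
    (2 : ℤ) ^ q ∣ i ∨ (2 : ℤ) ^ q ∣ i + 1 := by
  have hq : (0 : ℤ) < 2 ^ q := by positivity
  have hqr : (0 : ℝ) < 2 ^ q := by positivity
  have e1 := Int.ediv_mul_le i hq.ne'
  have e2 := Int.lt_ediv_add_one_mul_self i hq
  rw [hc] at e1 e2
  rcases lt_or_gt_of_ne hne with h | h
  · -- a < c : t ≤ a + 1 ≤ c
    left
    have h5 : t * 2 ^ q ≤ c * 2 ^ q := by
      apply mul_le_mul_of_nonneg_right _ hqr.le
      have : ((a + 1 : ℤ) : ℝ) ≤ (c : ℤ) := by exact_mod_cast h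
      push_cast at this
      linarith
    have h6 : (i : ℝ) ≤ (c * 2 ^ q : ℤ) := by push_cast; linarith
    have h7 : i ≤ c * 2 ^ q := by exact_mod_cast h6
    have h8 : i = c * 2 ^ q := le_antisymm h7 e1
    rw [h8]; exact dvd_mul_left _ _
  · right
    have h5 : (c + 1 : ℝ) * 2 ^ q ≤ t * 2 ^ q := by
      apply mul_le_mul_of_nonneg_right _ hqr.le
      have : ((c + 1 : ℤ) : ℝ) ≤ (a : ℤ) := by exact_mod_cast h
      push_cast at this
      linarith
    have h6 : (((c + 1) * 2 ^ q : ℤ) : ℝ) ≤ ((i + 1 : ℤ) : ℝ) := by push_cast; linarith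
    have h7 : (c + 1) * 2 ^ q ≤ i + 1 := by exact_mod_cast h6
    have h8 : i + 1 = (c + 1) * 2 ^ q := by omega
    rw [h8]; exact dvd_mul_left _ _

/-- If a square `S` meets a square `A` of the level of `anc q S`, and `A ≠ anc q S`, then `S`
touches the boundary of `anc q S`. -/
theorem touch_same {S A : DSquare} {q : ℕ} {z : ℂ} (hS : z ∈ S.toSet) (hA : z ∈ A.toSet)
    (hn : A.n = (anc q S).n) (hne : A ≠ anc q S) : Bd q S.i S.j := by
  have hs : A.side = (anc q S).side := by unfold side; rw [hn]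
  have h1 := mem_toSet.1 hS
  have h2 := mem_toSet.1 hA
  rw [hs] at h2
  have e1 : z.re / S.side = z.re / (anc q S).side * 2 ^ q := by
    have := S.side_pos
    rw [side_anc]; field_simp
  have e2 : z.im / S.side = z.im / (anc q S).side * 2 ^ q := by
    have := S.side_pos
    rw [side_anc]; field_simp
  rw [e1, e2] at h1
  by_cases hi : A.i = S.i / 2 ^ q
  · have hj : A.j ≠ S.j / 2 ^ q := fun hj => hne (by
      ext
      · exact hn
      · exact hi
      · exact hj)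
    rcases touch1 rfl h1.2.2.1 h1.2.2.2 h2.2.2.1 h2.2.2.2 hj with h | h
    · exact Or.inr (Or.inr (Or.inl h))
    · exact Or.inr (Or.inr (Or.inr h))
  · rcases touch1 rfl h1.1 h1.2.1 h2.1 h2.2.1 hi with h | h
    · exact Or.inl h
    · exact Or.inr (Or.inl h)

/-- If `S` meets a square `A` and neither of `A`, `anc q S` contains the other, then `S` touches the
boundary of `anc q S`. -/
theorem touch {S A : DSquare} {q : ℕ} {z : ℂ} (hS : z ∈ S.toSet) (hA : z ∈ A.toSet)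
    (h1 : ∀ k, anc k A ≠ anc q S) (h2 : ∀ k, A ≠ anc k (anc q S)) : Bd q S.i S.j := by
  rcases le_total (anc q S).n A.n with h | h
  · obtain ⟨k, hk⟩ := Int.eq_ofNat_of_zero_le (show 0 ≤ A.n - (anc q S).n by omega)
    refine touch_same hS (subset_anc k A hA) ?_ (h1 k)
    simp only [anc] at hk ⊢
    omega
  · -- `A` is larger: compare with the square of level `A.n` over `S`
    obtain ⟨k, hk⟩ := Int.eq_ofNat_of_zero_le (show 0 ≤ (anc q S).n - A.n by omega)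
    have h3 : Bd (q + k) S.i S.j := by
      refine touch_same (q := q + k) hS hA ?_ ?_
      · simp only [anc] at hk ⊢
        push_cast
        omega
      · intro h4
        apply h2 k
        rw [anc_anc, add_comm k q]
        exact h4
    rcases h3 with h | h | h | h
    · exact Or.inl (dvd_trans (pow_dvd_pow _ (by omega)) h)
    · exact Or.inr (Or.inl (dvd_trans (pow_dvd_pow _ (by omega)) h))
    · exact Or.inr (Or.inr (Or.inl (dvd_trans (pow_dvd_pow _ (by omega)) h)))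
    · exact Or.inr (Or.inr (Or.inr (dvd_trans (pow_dvd_pow _ (by omega)) h)))

section

variable {x : DSquare → ℝ} {u : ℝ}

/-- the tiles inside `U` -/
def part (x : DSquare → ℝ) (u : ℝ) (U : DSquare) : Set (tiles x u) := {T | ∃ k, U = anc k T.1}

theorem part_ring {U : DSquare} (hU : Alive x u U) {T T' : tiles x u} {q : ℕ} (hT : U = anc q T.1)
    (hT' : T' ∉ part x u U) (hadj : (adjGraph (tiles x u)).Adj T T') : Bd q T.1.i T.1.j := by
  obtain ⟨z, hz, hz'⟩ := nonempty_inter_of_adj hadj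
  refine touch hz hz' (fun k hk => hT' ⟨k, ?_⟩) (fun k hk => ?_)
  · rw [hk, hT]
  · rw [← hT] at hk
    exact (hk ▸ hU.anc k).not_mem T'.2

/-- form of the tiles inside a level-`m` square of `[1, 2] × [0, 1]` -/
theorem part_form {m : ℕ} {a b : ℤ} (hin : InB m a b) {T : DSquare} {q : ℕ}
    (hT : (⟨m, a, b⟩ : DSquare) = anc q T) :
    T = ⟨(m + q : ℕ), T.i, T.j⟩ ∧ InB (m + q) T.i T.j := by
  have h1 := congrArg DSquare.n hT
  have h2 := congrArg DSquare.i hT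
  have h3 := congrArg DSquare.j hT
  simp only [anc] at h1 h2 h3
  refine ⟨?_, ?_⟩
  · ext
    · push_cast; omega
    · rfl
    · rfl
  · apply InB.of_ediv
    rw [← h2, ← h3]
    exact hin

theorem inB_finite (N : ℕ) : {S : DSquare | ∃ t i j, t ≤ N ∧ InB t i j ∧ S = ⟨t, i, j⟩}.Finite := by
  have h : {S : DSquare | ∃ t i j, t ≤ N ∧ InB t i j ∧ S = ⟨t, i, j⟩} ⊆
      (fun p : ℤ × ℤ × ℤ => (⟨p.1, p.2.1, p.2.2⟩ : DSquare)) ''
        (Set.Icc (0 : ℤ) N ×ˢ (Set.Icc (0 : ℤ) (2 ^ (N + 1)) ×ˢ Set.Icc (0 : ℤ) (2 ^ N))) := by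
    rintro S ⟨t, i, j, ht, hin, rfl⟩
    refine ⟨(t, i, j), ?_, rfl⟩
    obtain ⟨h1, h2, h3, h4⟩ := inB_iff.1 hin
    have h5 : (2 : ℤ) ^ t ≤ 2 ^ N := pow_le_pow_right₀ (by norm_num) ht
    have h6 : (0 : ℤ) < 2 ^ t := by positivity
    refine ⟨⟨by simp, by simpa using ht⟩, ⟨?_, ?_⟩, ⟨?_, ?_⟩⟩
    · simp only; omega
    · simp only; rw [pow_succ]; omega
    · simpa using h3
    · simp only; omega
  exact Set.Finite.subset (Set.Finite.image _ (Set.Finite.prod (Set.finite_Icc _ _)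
    (Set.Finite.prod (Set.finite_Icc _ _) (Set.finite_Icc _ _)))) h

theorem finite_of_level {W : Set (tiles x u)} (N : ℕ)
    (h : ∀ T ∈ W, ∃ t i j, t ≤ N ∧ InB t i j ∧ T.1 = ⟨t, i, j⟩) : W.Finite := by
  apply Set.Finite.of_finite_image (f := Subtype.val) _ Subtype.val_injective.injOn
  apply (inB_finite N).subset
  rintro S ⟨T, hT, rfl⟩
  exact h T hT

/-- every tile inside `[1,2] × [0,1]` is reachable from the root -/
theorem reach (hroot : (⟨0, 0, 0⟩ : DSquare) ∈ tiles x u)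
    (hanc : ∀ k, 0 < k → u < x (anc k ⟨0, 0, 0⟩)) (hall : ∀ m, ∃ N, m ≤ N ∧ NoAlive x u m N)
    {t : ℕ} {i j : ℤ} (hin : InB t i j) (hT : (⟨t, i, j⟩ : DSquare) ∈ tiles x u) :
    (adjGraph (tiles x u)).Reachable ⟨_, hroot⟩ ⟨_, hT⟩ := by
  obtain ⟨N, hN, hno⟩ := hall t
  obtain ⟨w, _⟩ := bd_walk hroot hanc hN hno (q := 0) hin (Or.inl (by simp)) hT
  exact ⟨w⟩

/-- a tile has finitely many neighbours inside an alive square `U` which contains it -/
theorem loc_finite (hall : ∀ m, ∃ N, m ≤ N ∧ NoAlive x u m N) {m : ℕ} {a b : ℤ}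
    (hin : InB m a b) (T : tiles x u) (hT : T ∈ part x u ⟨m, a, b⟩) :
    {T' ∈ part x u ⟨m, a, b⟩ | (adjGraph (tiles x u)).Adj T T'}.Finite := by
  obtain ⟨q, hq⟩ := hT
  obtain ⟨hTf, hTin⟩ := part_form hin hq
  obtain ⟨N, hN, hno⟩ := hall (m + q)
  apply finite_of_level (max N (m + q))
  rintro T' ⟨⟨q', hq'⟩, hadj⟩
  obtain ⟨hTf', hTin'⟩ := part_form hin hq'
  refine ⟨m + q', T'.1.i, T'.1.j, ?_, hTin', hTf'⟩
  by_cases hc : m + q' ≤ m + q
  · exact hc.trans (le_max_right _ _)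
  refine le_trans ?_ (le_max_left _ _)
  obtain ⟨d, hd⟩ := Nat.exists_eq_add_of_lt (not_le.1 hc)
  have hqd : q' = q + (d + 1) := by omega
  obtain ⟨z, hz, hz'⟩ := nonempty_inter_of_adj hadj
  have hn : T.1.n = (anc (d + 1) T'.1).n := by
    have e1 : T.1.n = ((m + q : ℕ) : ℤ) := by rw [hTf]
    have e2 : T'.1.n = ((m + q' : ℕ) : ℤ) := by rw [hTf']
    simp only [anc]
    rw [e1, e2, hqd]
    push_cast
    ring
  have hbd : Bd (d + 1) T'.1.i T'.1.j := by
    refine touch_same hz' hz hn (fun h => ?_)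
    exact (h ▸ alive_anc_of_tile T'.2 (by omega)).not_mem T.2
  have h3 : InB (m + q + (d + 1)) T'.1.i T'.1.j := by
    rw [show m + q + (d + 1) = m + q' by omega]; exact hTin'
  have h4 : (⟨(m + q + (d + 1) : ℕ), T'.1.i, T'.1.j⟩ : DSquare) ∈ tiles x u := by
    rw [show m + q + (d + 1) = m + q' by omega, ← hTf']; exact T'.2
  have h5 := level_le_of_bd hN hno h3 hbd h4
  omega

/-- below an alive square there are tiles of larger level -/
theorem exists_deep_tile (hanc : ∀ k, 0 < k → u < x (anc k ⟨0, 0, 0⟩))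
    (hall : ∀ m, ∃ N, m ≤ N ∧ NoAlive x u m N) {n : ℕ} {i j : ℤ} (hin : InB n i j)
    (hal : Alive x u ⟨n, i, j⟩) :
    ∃ T ∈ tiles x u, ∃ k, 0 < k ∧ (⟨n, i, j⟩ : DSquare) = anc k T := by
  obtain ⟨N, hN, hno⟩ := hall n
  obtain ⟨d, rfl⟩ := Nat.exists_eq_add_of_le hN
  have h1 : InB (n + d) (i * 2 ^ d) (j * 2 ^ d) := by
    apply InB.of_ediv; rw [ediv_mul_pow, ediv_mul_pow]; exact hin
  have h2 : Bd (n + d - n) (i * 2 ^ d) (j * 2 ^ d) := by
    rw [Nat.add_sub_cancel_left]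
    exact Or.inl (dvd_mul_left _ _)
  obtain ⟨k, hk, hk'⟩ := exists_tile_inB hanc h1 (hno _ _ h1 h2)
  have h3 : (⟨n, i, j⟩ : DSquare) = anc d ⟨(n + d : ℕ), i * 2 ^ d, j * 2 ^ d⟩ := by
    ext <;> simp only [anc]
    · push_cast; ring
    · rw [ediv_mul_pow]
    · rw [ediv_mul_pow]
  have hkd : k < d := by
    by_contra hc
    obtain ⟨e, rfl⟩ := Nat.exists_eq_add_of_le (not_lt.1 hc)
    have h4 : anc (d + e) ⟨(n + d : ℕ), i * 2 ^ d, j * 2 ^ d⟩ = anc e ⟨n, i, j⟩ := by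
      rw [h3, anc_anc, add_comm]
    exact (h4 ▸ hal.anc e).not_mem hk'
  refine ⟨_, hk', d - k, by omega, ?_⟩
  rw [anc_anc, Nat.sub_add_cancel hkd.le]
  exact h3

theorem part_infinite (hanc : ∀ k, 0 < k → u < x (anc k ⟨0, 0, 0⟩))
    (hall : ∀ m, ∃ N, m ≤ N ∧ NoAlive x u m N) {m : ℕ} {a b : ℤ} (hin : InB m a b)
    (hdesc : ∀ q : ℕ, ∃ i j : ℤ, i / 2 ^ q = a ∧ j / 2 ^ q = b ∧ Alive x u ⟨(m + q : ℕ), i, j⟩) :
    (part x u ⟨m, a, b⟩).Infinite := by
  intro hfin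
  have h1 : ∃ L : ℕ, ∀ T ∈ part x u ⟨m, a, b⟩, T.1.n ≤ L := by
    have := (hfin.image (fun T : tiles x u => T.1.n)).bddAbove
    obtain ⟨L, hL⟩ := this
    refine ⟨L.toNat, fun T hT => ?_⟩
    have := hL ⟨T, hT, rfl⟩
    simp only at this
    omega
  obtain ⟨L, hL⟩ := h1
  obtain ⟨i, j, hi, hj, hal⟩ := hdesc L
  have hin' : InB (m + L) i j := by
    apply InB.of_ediv; rw [hi, hj]; exact hin
  obtain ⟨T, hT, k, hk, hkT⟩ := exists_deep_tile hanc hall hin' hal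
  have h2 : (⟨T, hT⟩ : tiles x u) ∈ part x u ⟨m, a, b⟩ := by
    refine ⟨L + k, ?_⟩
    rw [← anc_anc, ← hkT]
    ext <;> simp only [anc]
    · push_cast; ring
    · exact hi.symm
    · exact hj.symm
  have h3 := hL _ h2
  have h4 := congrArg DSquare.n hkT
  simp only [anc] at h4 h3
  push_cast at h4
  omega

/-- **Deterministic theorem.** -/
theorem det_ends (hroot : (⟨0, 0, 0⟩ : DSquare) ∈ tiles x u)
    (hanc : ∀ k, 0 < k → u < x (anc k ⟨0, 0, 0⟩)) (hall : ∀ m, ∃ N, m ≤ N ∧ NoAlive x u m N)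
    {K m N : ℕ} (hmN : m ≤ N) (hno : NoAlive x u m N) (U : Fin K → ℤ × ℤ)
    (hinj : Function.Injective U) (hU : ∀ c, InB m (U c).1 (U c).2)
    (hdesc : ∀ c, ∀ q : ℕ, ∃ i j : ℤ, i / 2 ^ q = (U c).1 ∧ j / 2 ^ q = (U c).2 ∧
      Alive x u ⟨(m + q : ℕ), i, j⟩) (ρ : ℕ) (hρ : 2 ^ (N + 2) ≤ ρ) :
    ∃ f : Fin K → tiles x u, ∀ c, (adjGraph (tiles x u)).Reachable ⟨_, hroot⟩ (f c) ∧
      (adjGraph (tiles x u)).dist ⟨_, hroot⟩ (f c) = ρ ∧
      ∀ d, c ≠ d → ρ ≤ (adjGraph (tiles x u)).dist (f c) (f d) := by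
  have hal : ∀ c, Alive x u ⟨m, (U c).1, (U c).2⟩ := by
    intro c
    obtain ⟨i, j, hi, hj, h⟩ := hdesc c 0
    simp only [pow_zero, Int.ediv_one] at hi hj
    rw [← hi, ← hj]
    exact h
  have hpw : (2 : ℕ) ^ (N + 2) = 2 * 2 ^ (N + 1) := by ring
  have hring : ∀ c, ∀ T ∈ part x u ⟨m, (U c).1, (U c).2⟩, ∀ T',
      T' ∉ part x u ⟨m, (U c).1, (U c).2⟩ → (adjGraph (tiles x u)).Adj T T' →
      (∃ w : (adjGraph (tiles x u)).Walk ⟨_, hroot⟩ T, w.length ≤ 2 ^ (N + 1)) ∧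
      ∃ t i j, t ≤ N ∧ InB t i j ∧ T.1 = ⟨t, i, j⟩ := by
    intro c T hT T' hT' hadj
    obtain ⟨q, hq⟩ := hT
    obtain ⟨hTf, hTin⟩ := part_form (hU c) hq
    have hbd := part_ring (hal c) hq hT' hadj
    have hT2 : (⟨(m + q : ℕ), T.1.i, T.1.j⟩ : DSquare) ∈ tiles x u := hTf ▸ T.2
    have e : T = ⟨_, hT2⟩ := Subtype.ext hTf
    constructor
    · have := bd_walk hroot hanc hmN hno hTin hbd hT2
      rw [← e] at this
      exact this
    · exact ⟨m + q, _, _, level_le_of_bd hmN hno hTin hbd hT2, hTin, hTf⟩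
  have hdisj : ∀ c d, c ≠ d → Disjoint (part x u ⟨m, (U c).1, (U c).2⟩)
      (part x u ⟨m, (U d).1, (U d).2⟩) := by
    intro c d hcd
    rw [Set.disjoint_left]
    rintro T ⟨k, hk⟩ ⟨l, hl⟩
    have h1 := congrArg DSquare.n hk
    have h2 := congrArg DSquare.n hl
    simp only [anc] at h1 h2
    have : k = l := by omega
    subst this
    rw [← hk] at hl
    apply hcd
    apply hinj
    have h3 := congrArg DSquare.i hl
    have h4 := congrArg DSquare.j hl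
    simp only at h3 h4
    exact Prod.ext h3.symm h4.symm
  have hr : ∀ c, (⟨_, hroot⟩ : tiles x u) ∉ part x u ⟨m, (U c).1, (U c).2⟩ := by
    rintro c ⟨k, hk⟩
    have h1 := congrArg DSquare.n hk
    have h2 := congrArg DSquare.i hk
    simp only [anc] at h1 h2
    have hk0 : k = 0 := by omega
    have hm0 : m = 0 := by omega
    subst hk0 hm0
    have h3 := (hU c).1
    simp only [pow_zero, Int.ediv_one] at h2 h3
    omega
  have hfin : ∀ c, {T ∈ part x u ⟨m, (U c).1, (U c).2⟩ | ∃ T',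
      T' ∉ part x u ⟨m, (U c).1, (U c).2⟩ ∧ (adjGraph (tiles x u)).Adj T T'}.Finite := by
    intro c
    apply finite_of_level N
    rintro T ⟨hT, T', hT', hadj⟩
    exact (hring c T hT T' hT' hadj).2
  have hreach : ∀ c, ∀ T ∈ part x u ⟨m, (U c).1, (U c).2⟩,
      (adjGraph (tiles x u)).Reachable ⟨_, hroot⟩ T := by
    rintro c T ⟨q, hq⟩
    obtain ⟨hTf, hTin⟩ := part_form (hU c) hq
    have hT2 : (⟨(m + q : ℕ), T.1.i, T.1.j⟩ : DSquare) ∈ tiles x u := hTf ▸ T.2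
    have e : T = ⟨_, hT2⟩ := Subtype.ext hTf
    rw [e]
    exact reach hroot hanc hall hTin hT2
  obtain ⟨f, hf⟩ := ends (G := adjGraph (tiles x u)) (r := ⟨_, hroot⟩) (K := K) (M := 2 ^ (N + 1))
    (fun c => part x u ⟨m, (U c).1, (U c).2⟩) hdisj hr (fun c T hT T' hT' hadj =>
      (hring c T hT T' hT' hadj).1) hfin hreach
    (fun c => part_infinite hanc hall (hU c) (hdesc c))
    (fun c T hT => loc_finite hall (hU c) T hT) ρ (by omega)
  refine ⟨f, fun c => ⟨(hf c).1, (hf c).2.1, fun d hcd => ?_⟩⟩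
  have := (hf c).2.2 d hcd
  omega

end

end Pool.Agent.Y980
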