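import Pool.Agent.Y980.Det

/-!
# The deterministic part: a root of infinite degree
-/

set_option autoImplicit false

namespace Pool.Agent.Y980

open DSquare

variable {x : DSquare → ℝ} {u : ℝ}

theorem det_degree (hroot : (⟨0, 0, 0⟩ : DSquare) ∈ tiles x u)
    (hanc : ∀ k, 0 < k → u < x (anc k ⟨0, 0, 0⟩))
    (hdesc : ∀ q : ℕ, ∃ j : ℤ, InB q (2 ^ q) j ∧ Alive x u ⟨q, 2 ^ q, j⟩)
    (hcor : ∀ (n : ℕ) (j : ℤ), InB n (2 ^ n) j →
      ∃ d : ℕ, ¬ Alive x u ⟨(n + d : ℕ), 2 ^ (n + d), j * 2 ^ d⟩) :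
    {T : tiles x u | (adjGraph (tiles x u)).Adj ⟨_, hroot⟩ T}.Infinite := by
  intro hfin
  have h1 : ∃ L : ℕ, ∀ T ∈ {T : tiles x u | (adjGraph (tiles x u)).Adj ⟨_, hroot⟩ T},
      T.1.n ≤ L := by
    obtain ⟨L, hL⟩ := (hfin.image (fun T : tiles x u => T.1.n)).bddAbove
    refine ⟨L.toNat, fun T hT => ?_⟩
    have := hL ⟨T, hT, rfl⟩
    simp only at this
    omega
  obtain ⟨L, hL⟩ := h1
  obtain ⟨j, hin, hal⟩ := hdesc L
  obtain ⟨d, hd⟩ := hcor L j hin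
  have hin' : InB (L + d) (2 ^ (L + d)) (j * 2 ^ d) := by
    apply InB.of_ediv
    rw [pow_add, ediv_mul_pow, ediv_mul_pow]
    exact hin
  obtain ⟨k, hk, hk'⟩ := exists_tile_inB hanc hin' hd
  have h3 : (⟨L, 2 ^ L, j⟩ : DSquare) = anc d ⟨(L + d : ℕ), 2 ^ (L + d), j * 2 ^ d⟩ := by
    ext <;> simp only [anc]
    · push_cast; ring
    · rw [pow_add, ediv_mul_pow]
    · rw [ediv_mul_pow]
  have hkd : k < d := by
    by_contra hc
    obtain ⟨e, rfl⟩ := Nat.exists_eq_add_of_le (not_lt.1 hc)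
    have h4 : anc (d + e) ⟨(L + d : ℕ), 2 ^ (L + d), j * 2 ^ d⟩ = anc e ⟨L, 2 ^ L, j⟩ := by
      rw [h3, anc_anc, add_comm]
    exact (h4 ▸ hal.anc e).not_mem hk'
  have hj0 := inB_iff.1 hin'
  have h0 : (⟨_, hroot⟩ : tiles x u).1 =
      anc (L + d) ⟨(L + d : ℕ), 2 ^ (L + d) - 1, j * 2 ^ d⟩ := by
    have hN : (0 : ℤ) < 2 ^ (L + d) := by positivity
    ext
    · simp [anc]
    · simp only [anc]
      rw [Int.ediv_eq_zero_of_lt (by omega) (by omega)]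
    · simp only [anc]
      rw [Int.ediv_eq_zero_of_lt hj0.2.2.1 hj0.2.2.2]
  have h1 : (⟨_, hk'⟩ : tiles x u).1 =
      anc k ⟨(L + d : ℕ), 2 ^ (L + d) - 1 + 1, j * 2 ^ d⟩ := by
    simp only [sub_add_cancel]
  rcases step_right h0 h1 with h | h
  · have h5 := congrArg (fun T : tiles x u => T.1.n) h
    simp only [anc] at h5
    omega
  · have h5 := hL _ h
    simp only [anc] at h5
    omega

end Pool.Agent.Y980
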