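import Pool.Agent.Y980.Second

/-!
# The truncated second moment method: many good parts with probability bounded below
-/

set_option autoImplicit false

namespace Pool.Agent.Y980

open MeasureTheory ProbabilityTheory Real
open scoped Classical in
/-- Main step of the second moment method. -/
theorem second_step {T Ω β κ : Type*} [MeasurableSpace Ω] {P : Measure Ω} {g : T → Ω → ℝ}
    {D : Finset β} {n : ℕ} {an : β → ℕ → T} {lv : β → β → ℕ} {c c₀ d : ℝ}
    (hg : IsGaussianProcess g P) (h0 : ∀ t, ∫ ω, g t ω ∂P = 0)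
    (hm : ∀ t, Measurable (g t)) (ht : Tree P g D n an lv c c₀ d) {α δ C : ℝ} (hα : 0 < α)
    (hδ : 0 < δ) (hc₀ : 0 < c₀) (hγ : α ^ 2 / 2 + α * δ < d)
    (hC : 2 * exp (α * δ * c + δ ^ 2 / 2 * c - δ * C) / (1 - exp (-(δ ^ 2 / 2 * log 2))) ≤ 1 / 2)
    {C₂ : ℝ} (hC₂ : exp (7 / 2 * α ^ 2 * c + α * C) *
      (c₀ / (1 - exp (-((d - (α ^ 2 / 2 + α * δ)) * log 2)))) ≤ C₂)
    {K m₀ : ℕ} (hK : (K : ℝ) * (C₂ * exp (-((d - (α ^ 2 / 2 + α * δ)) * log 2)) ^ m₀) ≤ 1 / 16)
    (part : β → κ) (hpart : ∀ s ∈ D, ∀ s' ∈ D, part s = part s' → m₀ ≤ lv s s') :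
    ENNReal.ofReal (1 / (16 * C₂)) ≤
      P {ω | K ≤ ((D.filter (fun s => ω ∈ good g an n α δ C s)).image part).card} := by
  have hprob := hg.isProbabilityMeasure
  set γ := α ^ 2 / 2 + α * δ with hγdef
  set r := exp (-((d - γ) * log 2)) with hr
  have hl := log_pos (show (1 : ℝ) < 2 by norm_num)
  have hr1 : r < 1 := by
    rw [hr, exp_lt_one_iff]
    have := mul_pos (sub_pos.2 hγ) hl
    linarith
  have hr0 : 0 < r := exp_pos _
  have hq1 : exp (-(δ ^ 2 / 2 * log 2)) < 1 := by
    rw [exp_lt_one_iff]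
    have : 0 < δ ^ 2 / 2 * log 2 := by positivity
    linarith
  set w : ℝ := (D.card : ℝ)⁻¹ with hw
  have hDpos : (0 : ℝ) < D.card := by exact_mod_cast ht.ne.card_pos
  have hw0 : 0 < w := inv_pos.2 hDpos
  have hC₂0 : 0 < C₂ := by
    refine lt_of_lt_of_le ?_ hC₂
    have : 0 < 1 - r := by linarith
    positivity
  -- the variables
  set I : β → Ω → ℝ := fun s => (good g an n α δ C s).indicator (theta P g α (an s n)) with hI
  have hI0 : ∀ s ω, 0 ≤ I s ω := fun s ω =>
    Set.indicator_nonneg (fun ω _ => (theta_pos α (an s n) ω).le) ω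
  have hGm := fun s => measurableSet_good (n := n) (an := an) hm α δ C s
  have hImeas : ∀ s, Measurable (I s) := fun s =>
    (theta_measurable hm α (an s n)).indicator (hGm s)
  have hIint : ∀ s, Integrable (I s) P := fun s =>
    ((integral_theta hg h0 α (an s n)).1).indicator (hGm s)
  -- pair products
  have hpair : ∀ s ∈ D, ∀ s' ∈ D, Integrable (fun ω => I s ω * I s' ω) P ∧
      ∫ ω, I s ω * I s' ω ∂P ≤ exp (7 / 2 * α ^ 2 * c + α * C) *
        exp (γ * lv s s' * log 2) := by
    intro s hs s' hs'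
    obtain ⟨F, hF1, hF2, hF3⟩ := second (δ := δ) (C := C) hg h0 ht hα hs hs'
    have hint : Integrable (fun ω => I s ω * I s' ω) P := by
      refine hF1.mono' ((hImeas s).mul (hImeas s')).aestronglyMeasurable
        (Filter.Eventually.of_forall fun ω => ?_)
      rw [norm_of_nonneg (mul_nonneg (hI0 _ _) (hI0 _ _))]
      exact hF2 ω
    exact ⟨hint, (integral_mono hint hF1 hF2).trans hF3⟩
  -- the expectation of `Z`
  set Z : Ω → ℝ := fun ω => ∑ s ∈ D, w * I s ω with hZ
  have hZ0 : ∀ ω, 0 ≤ Z ω := fun ω => Finset.sum_nonneg fun s _ => mul_nonneg hw0.le (hI0 s ω)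
  have hZint : Integrable Z P := integrable_finsetSum _ fun s _ => (hIint s).const_mul w
  have hEZ : 1 / 2 ≤ ∫ ω, Z ω ∂P := by
    rw [hZ, integral_finsetSum _ fun s _ => (hIint s).const_mul w]
    have h1 : ∀ s ∈ D, w * (1 / 2) ≤ ∫ ω, w * I s ω ∂P := by
      intro s hs
      rw [integral_const_mul]
      apply mul_le_mul_of_nonneg_left _ hw0.le
      rw [hI, integral_indicator (hGm s)]
      have h2 := integral_add_compl (hGm s) (integral_theta hg h0 α (an s n)).1
      rw [(integral_theta hg h0 α (an s n)).2] at h2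
      have h3 := first (C := C) hg h0 hm ht hα hδ hs
      have h4 : ∑ j ∈ Finset.range (n + 1), exp (-(δ ^ 2 / 2 * log 2)) ^ j ≤
          1 / (1 - exp (-(δ ^ 2 / 2 * log 2))) := by
        rw [le_div_iff₀ (by linarith), geom_sum_mul_neg]
        have : 0 < exp (-(δ ^ 2 / 2 * log 2)) ^ (n + 1) := by positivity
        linarith
      have h5 := mul_le_mul_of_nonneg_left h4
        (show 0 ≤ 2 * exp (α * δ * c + δ ^ 2 / 2 * c - δ * C) by positivity)
      rw [mul_one_div] at h5
      linarith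
    have h2 := Finset.sum_le_sum h1
    rw [Finset.sum_const, nsmul_eq_mul, ← mul_assoc, mul_inv_cancel₀ hDpos.ne', one_mul] at h2
    exact h2
  -- the second moment
  have hZsq : ∀ ω, Z ω ^ 2 = ∑ s ∈ D, ∑ s' ∈ D, w ^ 2 * (I s ω * I s' ω) := by
    intro ω
    rw [sq, hZ]
    simp only
    rw [Finset.sum_mul_sum]
    exact Finset.sum_congr rfl fun s _ => Finset.sum_congr rfl fun s' _ => by ring
  have hZ2int : Integrable (fun ω => Z ω ^ 2) P := by
    simp_rw [hZsq]
    exact integrable_finsetSum _ fun s hs => integrable_finsetSum _ fun s' hs' =>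
      (hpair s hs s' hs').1.const_mul _
  have hsumw : ∑ s ∈ D, w = 1 := by
    rw [Finset.sum_const, nsmul_eq_mul, mul_inv_cancel₀ hDpos.ne']
  have hbound : ∀ m₁ : ℕ, ∑ s ∈ D, ∑ s' ∈ D.filter (fun s' => m₁ ≤ lv s s'),
      w ^ 2 * (exp (7 / 2 * α ^ 2 * c + α * C) * exp (γ * lv s s' * log 2)) ≤ C₂ * r ^ m₁ := by
    intro m₁
    have h1 : ∀ s ∈ D, ∑ s' ∈ D.filter (fun s' => m₁ ≤ lv s s'),
        w ^ 2 * (exp (7 / 2 * α ^ 2 * c + α * C) * exp (γ * lv s s' * log 2)) ≤
        w * (C₂ * r ^ m₁) := by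
      intro s hs
      have h2 := count_sum ht hγ hc₀.le hs m₁
      have h3 : ∑ s' ∈ D.filter (fun s' => m₁ ≤ lv s s'),
          w ^ 2 * (exp (7 / 2 * α ^ 2 * c + α * C) * exp (γ * lv s s' * log 2)) =
          w * exp (7 / 2 * α ^ 2 * c + α * C) *
          ∑ s' ∈ D.filter (fun s' => m₁ ≤ lv s s'), w * exp (γ * lv s s' * log 2) := by
        rw [Finset.mul_sum]
        exact Finset.sum_congr rfl fun _ _ => by ring
      rw [h3]
      have h4 := mul_le_mul_of_nonneg_left h2
        (show 0 ≤ w * exp (7 / 2 * α ^ 2 * c + α * C) by positivity)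
      refine h4.trans ?_
      have h5 : w * exp (7 / 2 * α ^ 2 * c + α * C) * (c₀ * r ^ m₁ / (1 - r)) =
          w * ((exp (7 / 2 * α ^ 2 * c + α * C) * (c₀ / (1 - r))) * r ^ m₁) := by ring
      rw [h5]
      apply mul_le_mul_of_nonneg_left _ hw0.le
      exact mul_le_mul_of_nonneg_right hC₂ (by positivity)
    refine (Finset.sum_le_sum h1).trans ?_
    rw [← Finset.sum_mul, hsumw, one_mul]
  have hEZ2 : ∫ ω, Z ω ^ 2 ∂P ≤ C₂ := by
    have h1 := hbound 0
    rw [pow_zero, mul_one] at h1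
    refine le_trans ?_ h1
    simp_rw [hZsq]
    rw [integral_finsetSum _ fun s hs => integrable_finsetSum _ fun s' hs' =>
      (hpair s hs s' hs').1.const_mul _]
    apply Finset.sum_le_sum
    intro s hs
    rw [integral_finsetSum _ fun s' hs' => (hpair s hs s' hs').1.const_mul _]
    have h2 : D.filter (fun s' => 0 ≤ lv s s') = D := by simp
    rw [h2]
    apply Finset.sum_le_sum
    intro s' hs'
    rw [integral_const_mul]
    exact mul_le_mul_of_nonneg_left (hpair s hs s' hs').2 (by positivity)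
  -- the sum over the parts
  set S₂ : Ω → ℝ := fun ω => ∑ s ∈ D, ∑ s' ∈ D.filter (fun s' => part s' = part s),
    w ^ 2 * (I s ω * I s' ω) with hS₂
  have hS₂int : Integrable S₂ P := integrable_finsetSum _ fun s hs =>
    integrable_finsetSum _ fun s' hs' =>
      (hpair s hs s' (Finset.mem_filter.1 hs').1).1.const_mul _
  have hES₂ : ∫ ω, S₂ ω ∂P ≤ C₂ * r ^ m₀ := by
    refine le_trans ?_ (hbound m₀)
    rw [hS₂, integral_finsetSum _ fun s hs => integrable_finsetSum _ fun s' hs' =>
      (hpair s hs s' (Finset.mem_filter.1 hs').1).1.const_mul _]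
    apply Finset.sum_le_sum
    intro s hs
    rw [integral_finsetSum _ fun s' hs' =>
      (hpair s hs s' (Finset.mem_filter.1 hs').1).1.const_mul _]
    refine le_trans (Finset.sum_le_sum (g := fun s' => w ^ 2 *
      (exp (7 / 2 * α ^ 2 * c + α * C) * exp (γ * lv s s' * log 2))) ?_) ?_
    · intro s' hs'
      rw [integral_const_mul]
      exact mul_le_mul_of_nonneg_left (hpair s hs s' (Finset.mem_filter.1 hs').1).2 (by positivity)
    · apply Finset.sum_le_sum_of_subset_of_nonneg
      · intro s' hs'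
        rw [Finset.mem_filter] at hs' ⊢
        exact ⟨hs'.1, hpart s hs s' hs'.1 hs'.2.symm⟩
      · intro _ _ _; positivity
  -- the pointwise inequality
  set E : Set Ω := {ω | K ≤ ((D.filter (fun s => ω ∈ good g an n α δ C s)).image part).card} with hE
  have hpt : ∀ ω, ω ∉ E → Z ω ^ 2 ≤ K * S₂ ω := by
    intro ω hω
    set U := (D.filter (fun s => ω ∈ good g an n α δ C s)).image part with hU
    have hcard : U.card ≤ K := by
      have : ¬ K ≤ U.card := hω
      omega
    have h1 : Z ω = ∑ u ∈ U, ∑ s ∈ D.filter (fun s => part s = u), w * I s ω := by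
      have h2 : Z ω = ∑ s ∈ D.filter (fun s => ω ∈ good g an n α δ C s), w * I s ω := by
        rw [hZ]
        simp only
        rw [Finset.sum_filter]
        refine Finset.sum_congr rfl fun s _ => ?_
        split_ifs with h
        · rfl
        · rw [hI]
          simp only
          rw [Set.indicator_of_notMem h, mul_zero]
      rw [h2, ← Finset.sum_fiberwise_of_maps_to (t := U) (g := part)
        (fun s hs => Finset.mem_image_of_mem part hs)]
      refine Finset.sum_congr rfl fun u _ => ?_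
      rw [Finset.filter_filter]
      apply Finset.sum_subset
      · intro s hs
        rw [Finset.mem_filter] at hs ⊢
        exact ⟨hs.1, hs.2.2⟩
      · intro s hs hs'
        rw [Finset.mem_filter] at hs hs'
        have : ω ∉ good g an n α δ C s := fun h => hs' ⟨hs.1, h, hs.2⟩
        rw [hI]
        simp only
        rw [Set.indicator_of_notMem this, mul_zero]
    have h3 : Z ω ^ 2 ≤ U.card * ∑ u ∈ U, (∑ s ∈ D.filter (fun s => part s = u), w * I s ω) ^ 2 := by
      rw [h1]
      exact sq_sum_le_card_mul_sum_sq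
    have h4 : ∑ u ∈ U, (∑ s ∈ D.filter (fun s => part s = u), w * I s ω) ^ 2 ≤ S₂ ω := by
      have h5 : S₂ ω = ∑ u ∈ D.image part, (∑ s ∈ D.filter (fun s => part s = u), w * I s ω) ^ 2 := by
        rw [hS₂]
        simp only
        rw [← Finset.sum_fiberwise_of_maps_to (t := D.image part) (g := part)
          (fun s hs => Finset.mem_image_of_mem part hs)]
        refine Finset.sum_congr rfl fun u _ => ?_
        rw [sq (∑ s ∈ D.filter (fun s => part s = u), w * I s ω), Finset.sum_mul_sum]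
        refine Finset.sum_congr rfl fun s hs => ?_
        rw [Finset.mem_filter] at hs
        rw [hs.2]
        exact Finset.sum_congr rfl fun s' _ => by ring
      rw [h5]
      apply Finset.sum_le_sum_of_subset_of_nonneg
      · exact Finset.image_subset_image (Finset.filter_subset _ _)
      · intro _ _ _; positivity
    have h6 : 0 ≤ S₂ ω := Finset.sum_nonneg fun s _ => Finset.sum_nonneg fun s' _ =>
      mul_nonneg (by positivity) (mul_nonneg (hI0 _ _) (hI0 _ _))
    calc Z ω ^ 2 ≤ U.card * ∑ u ∈ U, (∑ s ∈ D.filter (fun s => part s = u), w * I s ω) ^ 2 := h3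
      _ ≤ U.card * S₂ ω := mul_le_mul_of_nonneg_left h4 (Nat.cast_nonneg _)
      _ ≤ K * S₂ ω := mul_le_mul_of_nonneg_right (by exact_mod_cast hcard) h6
  set E' := toMeasurable P E with hE'
  have hE'm : MeasurableSet E' := measurableSet_toMeasurable _ _
  have hsub : E ⊆ E' := subset_toMeasurable P E
  have hfin : ∀ ω, Z ω ≤ 2 * (K * S₂ ω) + 1 / 8 + Z ω ^ 2 / (8 * C₂) +
      E'.indicator (fun _ => 2 * C₂) ω := by
    intro ω
    have h6 : 0 ≤ S₂ ω := Finset.sum_nonneg fun s _ => Finset.sum_nonneg fun s' _ =>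
      mul_nonneg (by positivity) (mul_nonneg (hI0 _ _) (hI0 _ _))
    have h7 : 0 ≤ (K : ℝ) * S₂ ω := mul_nonneg (Nat.cast_nonneg _) h6
    by_cases hω : ω ∈ E'
    · rw [Set.indicator_of_mem hω]
      have h8 : Z ω ≤ Z ω ^ 2 / (8 * C₂) + 2 * C₂ := by
        rw [← sub_nonneg]
        have : Z ω ^ 2 / (8 * C₂) + 2 * C₂ - Z ω = (Z ω - 4 * C₂) ^ 2 / (8 * C₂) := by
          field_simp
          ring
        rw [this]
        positivity
      linarith
    · rw [Set.indicator_of_notMem hω]
      have h8 := hpt ω (fun h => hω (hsub h))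
      have h9 : 0 ≤ Z ω ^ 2 / (8 * C₂) := by positivity
      nlinarith [sq_nonneg (Z ω - 1 / 4)]
  have hint1 : Integrable (fun ω => 2 * (K * S₂ ω) + 1 / 8 + Z ω ^ 2 / (8 * C₂)) P :=
    (((hS₂int.const_mul _).const_mul _).add (integrable_const _)).add (hZ2int.div_const _)
  have hint2 : Integrable (E'.indicator (fun _ => 2 * C₂)) P :=
    (integrable_const _).indicator hE'm
  have h10 := integral_mono hZint (hint1.add hint2) hfin
  have h11 : ∫ ω, (2 * (K * S₂ ω) + 1 / 8 + Z ω ^ 2 / (8 * C₂) +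
      E'.indicator (fun _ => 2 * C₂) ω) ∂P = 2 * (K * ∫ ω, S₂ ω ∂P) + 1 / 8 +
      (∫ ω, Z ω ^ 2 ∂P) / (8 * C₂) + P.real E' * (2 * C₂) := by
    have i1 : Integrable (fun ω => 2 * (K * S₂ ω) + 1 / 8) P :=
      ((hS₂int.const_mul _).const_mul _).add (integrable_const _)
    rw [integral_add hint1 hint2, integral_add i1 (hZ2int.div_const _),
      integral_add ((hS₂int.const_mul _).const_mul _)
      (integrable_const _), integral_const_mul, integral_const_mul, integral_div,
      integral_indicator_const _ hE'm]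
    simp [integral_div]
  have h12 : 1 / 2 ≤ 2 * (K * ∫ ω, S₂ ω ∂P) + 1 / 8 +
      (∫ ω, Z ω ^ 2 ∂P) / (8 * C₂) + P.real E' * (2 * C₂) := by
    rw [← h11]
    exact hEZ.trans h10
  have h13 : (K : ℝ) * ∫ ω, S₂ ω ∂P ≤ 1 / 16 :=
    (mul_le_mul_of_nonneg_left hES₂ (Nat.cast_nonneg _)).trans hK
  have h14 : (∫ ω, Z ω ^ 2 ∂P) / (8 * C₂) ≤ 1 / 8 := by
    rw [div_le_iff₀ (by positivity)]
    linarith
  have h15 : 1 / (16 * C₂) ≤ P.real E' := by
    rw [div_le_iff₀ (by positivity)]
    linarith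
  calc ENNReal.ofReal (1 / (16 * C₂)) ≤ ENNReal.ofReal (P.real E') := ENNReal.ofReal_le_ofReal h15
    _ = P E' := by rw [ofReal_measureReal]
    _ = P E := measure_toMeasurable _

end Pool.Agent.Y980
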