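import Pool.Agent.Y980.CovSq
import Pool.Agent.Y980.Second2

/-!
# The second moment method for dyadic squares
-/

set_option autoImplicit false

namespace Pool.Agent.Y980

open MeasureTheory ProbabilityTheory Real DSquare

/-- the ancestor of level `j` of `⟨n, s⟩` -/
def ans (n : ℕ) (s : ℤ × ℤ) (j : ℕ) : DSquare := ⟨j, s.1 / 2 ^ (n - j), s.2 / 2 ^ (n - j)⟩

/-- separation level -/
def lvs (n : ℕ) (s s' : ℤ × ℤ) : ℕ :=
  n - Nat.clog 2 (max (s.1 - s'.1).natAbs (s.2 - s'.2).natAbs + 1)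

/-- a family of squares in `[1,2] × [0,1]` -/
structure Fam (D : ℕ → Finset (ℤ × ℤ)) (d : ℝ) : Prop where
  ne : ∀ n, (D n).Nonempty
  inB : ∀ n, ∀ s ∈ D n, InB n s.1 s.2
  anc : ∀ n q, ∀ s ∈ D (n + q), (s.1 / 2 ^ q, s.2 / 2 ^ q) ∈ D n
  count : ∀ n, ∀ s ∈ D n, ∀ q ≤ n,
    (((D n).filter fun s' => (s.1 - s'.1).natAbs < 2 ^ q ∧ (s.2 - s'.2).natAbs < 2 ^ q).card : ℝ) ≤
      4 * exp (-(d * ((n : ℝ) - q) * log 2)) * (D n).card

theorem abs_lt_of_inB {n : ℕ} {s s' : ℤ × ℤ} (h : InB n s.1 s.2) (h' : InB n s'.1 s'.2) :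
    (s.1 - s'.1).natAbs < 2 ^ n ∧ (s.2 - s'.2).natAbs < 2 ^ n := by
  rw [inB_iff] at h h'
  zify
  constructor
  · rw [abs_lt]; constructor <;> omega
  · rw [abs_lt]; constructor <;> omega

theorem natAbs_lt_of_ediv {a b : ℤ} {q : ℕ} (h : a / 2 ^ q = b / 2 ^ q) :
    (a - b).natAbs < 2 ^ q := by
  have hq : (0 : ℤ) < 2 ^ q := by positivity
  have h1 := Int.ediv_mul_le a hq.ne'
  have h2 := Int.lt_ediv_add_one_mul_self a hq
  have h3 := Int.ediv_mul_le b hq.ne'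
  have h4 := Int.lt_ediv_add_one_mul_self b hq
  rw [h] at h1 h2
  zify
  rw [abs_lt]
  constructor <;> linarith

theorem tree_of_fam {Ω : Type*} [MeasurableSpace Ω] {P : Measure Ω} {h : ℝ → ℂ → Ω → ℝ}
    (hh : IsGFF P h) {D : ℕ → Finset (ℤ × ℤ)} {d : ℝ} (hD : Fam D d) (n : ℕ) :
    Tree P (sqv h) (D n) n (ans n) (lvs n) 4 4 d := by
  have hl := log_two_lt
  have hl0 := log_two_pos
  have hans : ∀ s : ℤ × ℤ, ans n s n = ⟨n, s.1, s.2⟩ := fun s => by simp [ans]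
  have hclog : ∀ s ∈ D n, ∀ s' ∈ D n,
      Nat.clog 2 (max (s.1 - s'.1).natAbs (s.2 - s'.2).natAbs + 1) ≤ n := by
    intro s hs s' hs'
    have := abs_lt_of_inB (hD.inB n s hs) (hD.inB n s' hs')
    rw [Nat.clog_le_iff_le_pow (by norm_num)]
    have := max_lt this.1 this.2
    omega
  refine ⟨hD.ne n, fun s _ s' _ => Nat.sub_le _ _, ?_, ?_, ?_, ?_, ?_⟩
  · intro s hs j hj
    have hin := hD.inB n s hs
    obtain ⟨q, rfl⟩ := Nat.exists_eq_add_of_le hj
    have hin' : InB (j + 0) (s.1 / 2 ^ q) (s.2 / 2 ^ q) := hin.ediv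
    have := (cov_anc hh hin').2
    simp only [pow_zero, Int.ediv_one, add_zero] at this
    simp only [ans, Nat.add_sub_cancel_left]
    linarith
  · intro s hs j hj
    have hin := hD.inB n s hs
    obtain ⟨q, rfl⟩ := Nat.exists_eq_add_of_le hj
    have h1 := cov_anc hh hin
    have h2 : ans (j + q) s (j + q) = ⟨(j + q : ℕ), s.1, s.2⟩ := by simp [ans]
    have h3 : ans (j + q) s j = ⟨j, s.1 / 2 ^ q, s.2 / 2 ^ q⟩ := by simp [ans]
    rw [h2, h3, abs_le]
    constructor <;> linarith [h1.1, h1.2]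
  · intro s hs s' hs'
    rw [hans, hans]
    have hcl := hclog s hs s' hs'
    simp only [lvs]
    set k := max (s.1 - s'.1).natAbs (s.2 - s'.2).natAbs with hk
    have h1 := cov_le hh (hD.inB n s hs) (hD.inB n s' hs') (k := k) (by
      rcases max_choice (s.1 - s'.1).natAbs (s.2 - s'.2).natAbs with h | h
      · left; rw [hk, h]; simp
      · right; rw [hk, h]; simp)
    have h2 : ((Nat.clog 2 (k + 1) : ℝ) - 1) * log 2 ≤ log (k + 1) := by
      rcases Nat.eq_zero_or_pos (Nat.clog 2 (k + 1)) with h0 | h0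
      · rw [h0]
        have : 0 ≤ log ((k : ℝ) + 1) := log_nonneg (by linarith [Nat.cast_nonneg (α := ℝ) k])
        simp only [Nat.cast_zero]
        linarith
      · have h3 : 2 ^ (Nat.clog 2 (k + 1) - 1) ≤ k + 1 := by
          have : Nat.clog 2 (k + 1) - 1 < Nat.clog 2 (k + 1) := by omega
          rw [Nat.lt_clog_iff_pow_lt (by norm_num)] at this
          exact this.le
        have h4 : ((2 : ℝ) ^ (Nat.clog 2 (k + 1) - 1)) ≤ (k : ℝ) + 1 := by exact_mod_cast h3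
        have h5 := log_le_log (by positivity) h4
        rw [log_pow] at h5
        rw [Nat.cast_sub h0] at h5
        simpa using h5
    have h3 : (((n - Nat.clog 2 (k + 1) : ℕ) : ℝ)) = n - Nat.clog 2 (k + 1) :=
      Nat.cast_sub hcl
    rw [h3]
    nlinarith
  · intro s hs s' hs'
    rw [hans]
    have hcl := hclog s hs s' hs'
    have hle : (max (s.1 - s'.1).natAbs (s.2 - s'.2).natAbs + 1) ≤
        2 ^ Nat.clog 2 (max (s.1 - s'.1).natAbs (s.2 - s'.2).natAbs + 1) :=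
      Nat.le_pow_clog (by norm_num) _
    have hlv : lvs n s s' = n - Nat.clog 2 (max (s.1 - s'.1).natAbs (s.2 - s'.2).natAbs + 1) := rfl
    set q := Nat.clog 2 (max (s.1 - s'.1).natAbs (s.2 - s'.2).natAbs + 1) with hq
    have hn : n = lvs n s s' + q := by omega
    have h1 : (s.1 - s'.1).natAbs < 2 ^ q := lt_of_lt_of_le (Nat.lt_succ_of_le (le_max_left _ _)) hle
    have h2 : (s.2 - s'.2).natAbs < 2 ^ q := lt_of_lt_of_le (Nat.lt_succ_of_le (le_max_right _ _)) hle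
    have h3 := cov_ge hh (m := lvs n s s') (q := q) (i := s.1) (j := s.2) (i' := s'.1) (j' := s'.2)
      (by zify at h1; exact h1) (by zify at h2; exact h2)
    have h4 : ans n s (lvs n s s') = ⟨lvs n s s', s.1 / 2 ^ q, s.2 / 2 ^ q⟩ := by
      simp only [ans]
      rw [show n - lvs n s s' = q by omega]
    rw [h4]
    rw [← hn] at h3
    linarith
  · intro s hs m hm
    have hcard : (0 : ℝ) < (D n).card := by exact_mod_cast (hD.ne n).card_pos
    rw [← div_eq_mul_inv, div_le_iff₀ hcard]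
    have h1 := hD.count n s hs (n - m) (Nat.sub_le _ _)
    have e : (n : ℝ) - ((n - m : ℕ) : ℝ) = m := by rw [Nat.cast_sub hm]; ring
    rw [e] at h1
    refine le_trans ?_ h1
    have h2 : ((D n).filter fun s' => lvs n s s' = m).card ≤
        ((D n).filter fun s' => (s.1 - s'.1).natAbs < 2 ^ (n - m) ∧
          (s.2 - s'.2).natAbs < 2 ^ (n - m)).card := by
      apply Finset.card_le_card
      intro s' hs'
      rw [Finset.mem_filter] at hs' ⊢
      refine ⟨hs'.1, ?_⟩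
      have hcl := hclog s hs s' hs'.1
      have hlv : lvs n s s' = n - Nat.clog 2 (max (s.1 - s'.1).natAbs (s.2 - s'.2).natAbs + 1) := rfl
      have hle : (max (s.1 - s'.1).natAbs (s.2 - s'.2).natAbs + 1) ≤
        2 ^ Nat.clog 2 (max (s.1 - s'.1).natAbs (s.2 - s'.2).natAbs + 1) :=
        Nat.le_pow_clog (by norm_num) _
      have hq : Nat.clog 2 (max (s.1 - s'.1).natAbs (s.2 - s'.2).natAbs + 1) = n - m := by
        have := hs'.2
        omega
      rw [hq] at hle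
      exact ⟨lt_of_lt_of_le (Nat.lt_succ_of_le (le_max_left _ _)) hle,
        lt_of_lt_of_le (Nat.lt_succ_of_le (le_max_right _ _)) hle⟩
    exact_mod_cast h2

/-! ### The two families -/

/-- all the squares of level `n` in `[1,2] × [0,1]` -/
noncomputable def D2 (n : ℕ) : Finset (ℤ × ℤ) :=
  Finset.Ico ((2 : ℤ) ^ n) (2 ^ n + 2 ^ n) ×ˢ Finset.Ico (0 : ℤ) (2 ^ n)

/-- the squares of level `n` in `[1,2] × [0,1]` which touch its left side -/
noncomputable def D1 (n : ℕ) : Finset (ℤ × ℤ) := {(2 : ℤ) ^ n} ×ˢ Finset.Ico (0 : ℤ) (2 ^ n)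

theorem mem_D2 {n : ℕ} {s : ℤ × ℤ} : s ∈ D2 n ↔ InB n s.1 s.2 := by
  rw [inB_iff, D2, Finset.mem_product, Finset.mem_Ico, Finset.mem_Ico, and_assoc]

theorem mem_D1 {n : ℕ} {s : ℤ × ℤ} : s ∈ D1 n ↔ s.1 = 2 ^ n ∧ InB n s.1 s.2 := by
  rw [inB_iff, D1, Finset.mem_product, Finset.mem_singleton, Finset.mem_Ico]
  constructor
  · rintro ⟨h1, h2, h3⟩
    have : (0 : ℤ) < 2 ^ n := by positivity
    exact ⟨h1, by omega, by omega, h2, h3⟩
  · rintro ⟨h1, _, _, h2, h3⟩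
    exact ⟨h1, h2, h3⟩

theorem exp_pow_eq (n q : ℕ) :
    exp (-(((n : ℝ) - q) * log 2)) * 2 ^ n = 2 ^ q := by
  have h1 : (2 : ℝ) ^ n = exp (n * log 2) := by
    rw [exp_nat_mul, exp_log (by norm_num)]
  have h2 : (2 : ℝ) ^ q = exp (q * log 2) := by
    rw [exp_nat_mul, exp_log (by norm_num)]
  rw [h1, h2, ← exp_add]
  congr 1
  ring

theorem card_Ioo_le (a : ℤ) (q : ℕ) : ((Finset.Ioo (a - 2 ^ q) (a + 2 ^ q)).card : ℝ) ≤ 2 * 2 ^ q := by
  rw [Int.card_Ioo]
  have h : ((a + 2 ^ q - (a - 2 ^ q) - 1 : ℤ).toNat : ℤ) ≤ 2 * 2 ^ q := by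
    have : (0 : ℤ) < 2 ^ q := by positivity
    omega
  exact_mod_cast h

theorem fam_D2 : Fam D2 2 := by
  refine ⟨fun n => ⟨(2 ^ n, 0), ?_⟩, fun n s hs => mem_D2.1 hs, fun n q s hs => ?_, ?_⟩
  · rw [mem_D2, inB_iff]
    have : (0 : ℤ) < 2 ^ n := by positivity
    simp only
    omega
  · rw [mem_D2] at hs ⊢
    exact hs.ediv
  · intro n s hs q hq
    have h1 : ((D2 n).filter fun s' => (s.1 - s'.1).natAbs < 2 ^ q ∧
        (s.2 - s'.2).natAbs < 2 ^ q) ⊆
        Finset.Ioo (s.1 - 2 ^ q) (s.1 + 2 ^ q) ×ˢ Finset.Ioo (s.2 - 2 ^ q) (s.2 + 2 ^ q) := by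
      intro s' hs'
      rw [Finset.mem_filter] at hs'
      obtain ⟨_, h2, h3⟩ := hs'
      zify at h2 h3
      rw [abs_lt] at h2 h3
      rw [Finset.mem_product, Finset.mem_Ioo, Finset.mem_Ioo]
      refine ⟨⟨?_, ?_⟩, ⟨?_, ?_⟩⟩ <;> linarith [h2.1, h2.2, h3.1, h3.2]
    have h2 := Finset.card_le_card h1
    rw [Finset.card_product] at h2
    have h3 : (((D2 n).filter fun s' => (s.1 - s'.1).natAbs < 2 ^ q ∧
        (s.2 - s'.2).natAbs < 2 ^ q).card : ℝ) ≤
        (2 * 2 ^ q) * (2 * 2 ^ q) := by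
      refine le_trans (Nat.cast_le.2 h2) ?_
      rw [Nat.cast_mul]
      exact mul_le_mul (card_Ioo_le _ _) (card_Ioo_le _ _) (Nat.cast_nonneg _) (by positivity)
    refine h3.trans ?_
    have h4 : ((D2 n).card : ℝ) = 2 ^ n * 2 ^ n := by
      rw [D2, Finset.card_product, Int.card_Ico, Int.card_Ico]
      have e1 : ((2 : ℤ) ^ n + 2 ^ n - 2 ^ n).toNat = 2 ^ n := by
        rw [add_sub_cancel_right]
        exact_mod_cast Int.toNat_natCast (2 ^ n)
      have e2 : ((2 : ℤ) ^ n - 0).toNat = 2 ^ n := by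
        rw [sub_zero]
        exact_mod_cast Int.toNat_natCast (2 ^ n)
      rw [e1, e2]
      push_cast
      ring
    rw [h4]
    have h5 := exp_pow_eq n q
    have h6 : exp (-(2 * ((n : ℝ) - q) * log 2)) =
        exp (-(((n : ℝ) - q) * log 2)) * exp (-(((n : ℝ) - q) * log 2)) := by
      rw [← exp_add]; congr 1; ring
    rw [h6]
    have h7 : 4 * (exp (-(((n : ℝ) - q) * log 2)) * exp (-(((n : ℝ) - q) * log 2))) *
        (2 ^ n * 2 ^ n) = 4 * ((exp (-(((n : ℝ) - q) * log 2)) * 2 ^ n) *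
        (exp (-(((n : ℝ) - q) * log 2)) * 2 ^ n)) := by ring
    rw [h7, h5]
    exact le_of_eq (by ring)

theorem fam_D1 : Fam D1 1 := by
  refine ⟨fun n => ⟨(2 ^ n, 0), ?_⟩, fun n s hs => (mem_D1.1 hs).2, fun n q s hs => ?_, ?_⟩
  · rw [mem_D1, inB_iff]
    have : (0 : ℤ) < 2 ^ n := by positivity
    refine ⟨rfl, ?_⟩
    simp only
    omega
  · rw [mem_D1] at hs ⊢
    refine ⟨?_, hs.2.ediv⟩
    simp only
    rw [hs.1, pow_add, ediv_mul_pow]
  · intro n s hs q hq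
    have h1 : ((D1 n).filter fun s' => (s.1 - s'.1).natAbs < 2 ^ q ∧
        (s.2 - s'.2).natAbs < 2 ^ q) ⊆
        {(2 : ℤ) ^ n} ×ˢ Finset.Ioo (s.2 - 2 ^ q) (s.2 + 2 ^ q) := by
      intro s' hs'
      rw [Finset.mem_filter] at hs'
      obtain ⟨h1, h2, h3⟩ := hs'
      rw [mem_D1] at h1
      zify at h2 h3
      rw [abs_lt] at h2 h3
      rw [Finset.mem_product, Finset.mem_singleton, Finset.mem_Ioo]
      refine ⟨h1.1, ⟨?_, ?_⟩⟩ <;> linarith [h2.1, h2.2, h3.1, h3.2]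
    have h2 := Finset.card_le_card h1
    rw [Finset.card_product, Finset.card_singleton, one_mul] at h2
    have h3 : (((D1 n).filter fun s' => (s.1 - s'.1).natAbs < 2 ^ q ∧
        (s.2 - s'.2).natAbs < 2 ^ q).card : ℝ) ≤ 2 * 2 ^ q := by
      refine le_trans (Nat.cast_le.2 h2) ?_
      exact card_Ioo_le _ _
    refine h3.trans ?_
    have h4 : ((D1 n).card : ℝ) = 2 ^ n := by
      rw [D1, Finset.card_product, Finset.card_singleton, one_mul, Int.card_Ico]
      have e2 : ((2 : ℤ) ^ n - 0).toNat = 2 ^ n := by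
        rw [sub_zero]
        exact_mod_cast Int.toNat_natCast (2 ^ n)
      rw [e2]
      push_cast
      ring
    rw [h4]
    have h5 := exp_pow_eq n q
    have h6 : exp (-(1 * ((n : ℝ) - q) * log 2)) = exp (-(((n : ℝ) - q) * log 2)) := by
      rw [one_mul]
    rw [h6]
    have : (0 : ℝ) < 2 ^ q := by positivity
    nlinarith

end Pool.Agent.Y980
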