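import Pool.Agent.Y980.Transfer

/-!
# No scaling limit
-/

set_option autoImplicit false

namespace Pool.Agent.Y980

open MeasureTheory ProbabilityTheory Real DSquare Filter Topology

variable {Ω : Type*} [MeasurableSpace Ω] {P : Measure Ω} {h : ℝ → ℂ → Ω → ℝ}

theorem quad_ae (hh : IsGFF P h) {Q : ℝ} (hQ : 0 < Q) :
    P {ω | ¬ ∀ u : ℝ, ∃ n : ℤ, (⟨n, -1, 0⟩ : DSquare) ∈ tiles (fld Q h ω) u} = 0 := by
  have := quad_tile hh hQ (i := -1) (j := 0) (Or.inr rfl) (Or.inl rfl)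
  rwa [ae_iff] at this

theorem tendsto_exp_nhdsGT :
    Tendsto (fun T : ℕ => exp (-(T : ℝ))) atTop (𝓝[>] 0) := by
  rw [tendsto_nhdsWithin_iff]
  refine ⟨?_, Filter.Eventually.of_forall fun T => exp_pos _⟩
  exact tendsto_exp_atBot.comp (tendsto_neg_atTop_atBot.comp tendsto_natCast_atTop_atTop)

/-- For `Q < √2` the rescaled tiling is not a boundedly compact space, with a probability which does
not tend to `0`. -/
theorem no_space (hh : IsGFF P h) {Q : ℝ} (hQ : 0 < Q) (hQ2 : Q ^ 2 < 2) :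
    ∃ p : ENNReal, 0 < p ∧ ∃ᶠ ε in 𝓝[>] (0 : ℝ), p ≤ P {ω | ∀ a b : ℝ, 0 < a →
      ¬ ∃ X, IsRescaled (tiling Q h ε ω) a b X} := by
  obtain ⟨p, hp, hev⟩ := deg_prob hh hQ hQ2
  obtain ⟨p₃, hp₃, havg⟩ := avg hh hQ hp
  refine ⟨ENNReal.ofReal p₃, ENNReal.ofReal_pos.2 hp₃, ?_⟩
  have h1 := havg evDeg measurable_evDeg (fun y hy => hy.1) hev
  have h2 : ∃ᶠ T : ℕ in atTop, ENNReal.ofReal p₃ ≤ P {ω | ∀ a b : ℝ, 0 < a →
      ¬ ∃ X, IsRescaled (tiling Q h (exp (-(T : ℝ))) ω) a b X} := by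
    rw [frequently_atTop]
    intro T₀
    obtain ⟨T, hT, hTp⟩ := h1 T₀
    refine ⟨T, hT, ?_⟩
    have h3 : {ω | ∃ k, ω ∈ gev Q h evDeg T k} ⊆ {ω | ∀ a b : ℝ, 0 < a →
        ¬ ∃ X, IsRescaled (tiling Q h (exp (-(T : ℝ))) ω) a b X} ∪
        {ω | ¬ ∀ u : ℝ, ∃ n : ℤ, (⟨n, -1, 0⟩ : DSquare) ∈ tiles (fld Q h ω) u} := by
      rintro ω ⟨k, hk⟩
      by_cases hq : ∀ u : ℝ, ∃ n : ℤ, (⟨n, -1, 0⟩ : DSquare) ∈ tiles (fld Q h ω) u
      · left
        rintro a b ha ⟨X, hX⟩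
        have h4 := infDeg_of_gev hk
        rw [tiling_eq] at h4 hX
        exact not_infDeg ha h4 (hq _) hX
      · exact Or.inr hq
    have h4 := (hTp.trans (measure_mono h3)).trans (measure_union_le _ _)
    rwa [quad_ae hh hQ, add_zero] at h4
  exact tendsto_exp_nhdsGT.frequently h2

/-- For `Q ≥ √2` and `a → 0`, the rescaled balls contain arbitrarily many points at macroscopic
mutual distances, with a probability bounded below. -/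
theorem many_pack (hh : IsGFF P h) {Q : ℝ} (hQ : 0 < Q) (hQ2 : 2 ≤ Q ^ 2) (hQ' : Q < 2)
    {a b : ℝ → ℝ} (ha : ∀ ε, 0 < ε → 0 < a ε) (ha0 : Tendsto a (𝓝[>] 0) (𝓝 0))
    {X : ℝ → Ω → PMMSpace}
    (hX : Tendsto (fun ε => P {ω | ¬ IsRescaled (tiling Q h ε ω) (a ε) (b ε) (X ε ω)}) (𝓝[>] 0)
      (𝓝 0)) :
    ∃ p : ENNReal, 0 < p ∧ ∀ K : ℕ, ∃ᶠ ε in 𝓝[>] (0 : ℝ), p ≤ P {ω | X ε ω ∈ Pack K} := by
  obtain ⟨p, hp, hev⟩ := many_prob hh hQ hQ2 hQ'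
  obtain ⟨p₃, hp₃, havg⟩ := avg hh hQ hp
  refine ⟨ENNReal.ofReal (p₃ / 2), ENNReal.ofReal_pos.2 (by positivity), fun K => ?_⟩
  obtain ⟨m, N, hmN, hK⟩ := hev K
  have h1 := havg (evMany K m N) (measurable_evMany K m N) (fun y hy => hy.1) hK
  -- eventually in `T`
  have e1 : ∀ᶠ T : ℕ in atTop, a (exp (-(T : ℝ))) < 1 / (((2 ^ (N + 2) : ℕ) : ℝ) + 6) :=
    tendsto_exp_nhdsGT.eventually (ha0.eventually (gt_mem_nhds (by positivity)))
  have e2 : ∀ᶠ T : ℕ in atTop, P {ω | ¬ IsRescaled (tiling Q h (exp (-(T : ℝ))) ω)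
      (a (exp (-(T : ℝ)))) (b (exp (-(T : ℝ)))) (X (exp (-(T : ℝ))) ω)} <
      ENNReal.ofReal (p₃ / 2) :=
    tendsto_exp_nhdsGT.eventually (hX.eventually (gt_mem_nhds
      (ENNReal.ofReal_pos.2 (by positivity))))
  have h2 : ∃ᶠ T : ℕ in atTop, ENNReal.ofReal (p₃ / 2) ≤
      P {ω | X (exp (-(T : ℝ))) ω ∈ Pack K} := by
    rw [frequently_atTop]
    intro T₀
    obtain ⟨T₁, hT₁⟩ := eventually_atTop.1 (e1.and e2)
    obtain ⟨T, hT, hTp⟩ := h1 (max T₀ T₁)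
    obtain ⟨h3, h4⟩ := hT₁ T ((le_max_right _ _).trans hT)
    refine ⟨T, (le_max_left _ _).trans hT, ?_⟩
    set ε := exp (-(T : ℝ)) with hε
    have haε : 0 < a ε := ha ε (exp_pos _)
    have h5 : (((2 ^ (N + 2) : ℕ) : ℝ) + 6) < 1 / a ε := by
      rw [lt_div_iff₀ haε]
      rw [lt_div_iff₀ (by positivity)] at h3
      linarith
    have h6 : a ε ≤ 1 / 6 := by
      refine h3.le.trans (one_div_le_one_div_of_le (by norm_num) ?_)
      have : (0 : ℝ) ≤ ((2 ^ (N + 2) : ℕ) : ℝ) := Nat.cast_nonneg _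
      linarith
    have h7 : {ω | ∃ k, ω ∈ gev Q h (evMany K m N) T k} ⊆ ({ω | X ε ω ∈ Pack K} ∪
        {ω | ¬ ∀ u : ℝ, ∃ n : ℤ, (⟨n, -1, 0⟩ : DSquare) ∈ tiles (fld Q h ω) u}) ∪
        {ω | ¬ IsRescaled (tiling Q h ε ω) (a ε) (b ε) (X ε ω)} := by
      rintro ω ⟨k, hk⟩
      by_cases hr : IsRescaled (tiling Q h ε ω) (a ε) (b ε) (X ε ω)
      · left
        by_cases hq : ∀ u : ℝ, ∃ n : ℤ, (⟨n, -1, 0⟩ : DSquare) ∈ tiles (fld Q h ω) u
        · left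
          have h8 := many_of_gev hmN hk
          rw [← hε] at h8
          rw [hε, tiling_eq] at h8 hr
          exact pack_of_many haε h8 (hq _) hr h6 (by linarith)
        · exact Or.inr hq
      · exact Or.inr hr
    have h8 := ((hTp.trans (measure_mono h7)).trans (measure_union_le _ _)).trans
      (add_le_add (measure_union_le _ _) h4.le)
    rw [quad_ae hh hQ, add_zero] at h8
    have h9 : ENNReal.ofReal p₃ = ENNReal.ofReal (p₃ / 2) + ENNReal.ofReal (p₃ / 2) := by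
      rw [← ENNReal.ofReal_add (by positivity) (by positivity)]
      congr 1
      ring
    rw [h9] at h8
    exact (ENNReal.add_le_add_iff_right ENNReal.ofReal_ne_top).1 h8
  exact tendsto_exp_nhdsGT.frequently h2

/-- Main theorem. -/
theorem main (hh : IsGFF P h) {Q : ℝ} (hQ : 0 < Q) (hQ' : Q < 2) {a b : ℝ → ℝ}
    (ha : ∀ ε, 0 < ε → 0 < a ε) {X : ℝ → Ω → PMMSpace}
    (hX : Tendsto (fun ε => P {ω | ¬ IsRescaled (tiling Q h ε ω) (a ε) (b ε) (X ε ω)}) (𝓝[>] 0)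
      (𝓝 0)) {Ω' : Type*} [MeasurableSpace Ω'] {P' : Measure Ω'} [IsProbabilityMeasure P']
    {Y : Ω' → PMMSpace} (hY : ConvergesInLaw P X P' Y) :
    ∃ δ : ℝ, 0 < δ ∧ (∃ᶠ ε in 𝓝[>] (0 : ℝ), δ ≤ a ε) ∧
      ∀ᵐ ω' ∂P', ∀ p q : (Y ω').X, p ≠ q → δ ≤ dist p q := by
  have hprob := hh.gaussian.isProbabilityMeasure
  -- `a` does not tend to `0`
  have hna : ¬ Tendsto a (𝓝[>] 0) (𝓝 0) := by
    intro ha0
    rcases lt_or_ge (Q ^ 2) 2 with hQ2 | hQ2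
    · obtain ⟨p, hp, hfr⟩ := no_space hh hQ hQ2
      have h1 := hX.eventually (gt_mem_nhds hp)
      have h2 : ∀ᶠ ε in 𝓝[>] (0 : ℝ), 0 < ε := eventually_mem_nhdsWithin
      obtain ⟨ε, hε1, hε2, hε3⟩ := (hfr.and_eventually (h1.and h2)).exists
      refine absurd hε2 (not_lt.2 (hε1.trans (measure_mono ?_)))
      intro ω hω hr
      exact hω (a ε) (b ε) (ha ε hε3) ⟨_, hr⟩
    · obtain ⟨p, hp, hfr⟩ := many_pack hh hQ hQ2 hQ' ha ha0 hX
      exact no_limit hY hp hfr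
  obtain ⟨δ, hδ, hfr⟩ : ∃ δ : ℝ, 0 < δ ∧ ∃ᶠ ε in 𝓝[>] (0 : ℝ), δ ≤ a ε := by
    by_contra hcon
    push Not at hcon
    apply hna
    rw [Metric.tendsto_nhds]
    intro δ hδ
    have h2 : ∀ᶠ ε in 𝓝[>] (0 : ℝ), 0 < ε := eventually_mem_nhdsWithin
    have h1 := hcon δ hδ
    filter_upwards [h1, h2] with ε hε hε0
    rw [Real.dist_eq, sub_zero, abs_of_pos (ha ε hε0)]
    exact hε
  refine ⟨δ, hδ, hfr, ?_⟩
  obtain ⟨hnull, hlim⟩ := hY (Sep δ) (isClosed_sep δ)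
  have h1 : ∀ c : ENNReal, c < 1 → c ≤ P' {ω | Y ω ∈ Sep δ} := by
    intro c hc
    refine le_trans ?_ hlim
    apply le_limsup_of_frequently_le'
    have h2 := hX.eventually (gt_mem_nhds (tsub_pos_of_lt hc))
    refine (hfr.and_eventually h2).mono ?_
    rintro ε ⟨hε1, hε2⟩
    have h3 : (Set.univ : Set Ω) ⊆ {ω | X ε ω ∈ Sep δ} ∪
        {ω | ¬ IsRescaled (tiling Q h ε ω) (a ε) (b ε) (X ε ω)} := by
      intro ω _
      by_cases hr : IsRescaled (tiling Q h ε ω) (a ε) (b ε) (X ε ω)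
      · exact Or.inl (sep_of_rescaled hδ hε1 hr)
      · exact Or.inr hr
    have h4 := (measure_mono (μ := P) h3).trans (measure_union_le _ _)
    rw [measure_univ] at h4
    have h5 : c + (1 - c) ≤ P {ω | X ε ω ∈ Sep δ} + (1 - c) := by
      rw [add_tsub_cancel_of_le hc.le]
      exact h4.trans (add_le_add_right hε2.le _)
    have h6 : (1 - c : ENNReal) ≠ ⊤ := ne_top_of_le_ne_top ENNReal.one_ne_top tsub_le_self
    exact (ENNReal.add_le_add_iff_right h6).1 h5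
  have h2 : 1 ≤ P' {ω | Y ω ∈ Sep δ} := le_of_forall_lt_imp_le_of_dense h1
  have h3 : P' {ω | Y ω ∈ Sep δ} = 1 := le_antisymm prob_le_one h2
  have h4 : P' {ω | Y ω ∈ Sep δ}ᶜ = 0 := (prob_compl_eq_zero_iff₀ hnull).2 h3
  rw [ae_iff]
  exact h4

end Pool.Agent.Y980
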