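import Pool.Agent.Y980.LocFin
import Pool.Agent.Y980.Det2

/-!
# The rescaled tiling is a boundedly compact space when `Q ≥ √2`
-/

set_option autoImplicit false

namespace Pool.Agent.Y980

open DSquare

/-! ### Local finiteness -/

theorem near_of_mem {S A : DSquare} {z : ℂ} (hS : z ∈ S.toSet) (hA : z ∈ A.toSet)
    (hn : A.n = S.n) : (A.i - S.i ≤ 1 ∧ S.i - A.i ≤ 1) ∧ (A.j - S.j ≤ 1 ∧ S.j - A.j ≤ 1) := by
  have h1 := mem_toSet.1 hS
  have h2 := mem_toSet.1 hA
  have hs : A.side = S.side := by unfold side; rw [hn]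
  rw [hs] at h2
  obtain ⟨a1, a2, a3, a4⟩ := h1
  obtain ⟨b1, b2, b3, b4⟩ := h2
  have c1 : (A.i : ℝ) ≤ S.i + 1 := by linarith
  have c2 : (S.i : ℝ) ≤ A.i + 1 := by linarith
  have c3 : (A.j : ℝ) ≤ S.j + 1 := by linarith
  have c4 : (S.j : ℝ) ≤ A.j + 1 := by linarith
  have d1 : A.i ≤ S.i + 1 := by exact_mod_cast c1
  have d2 : S.i ≤ A.i + 1 := by exact_mod_cast c2
  have d3 : A.j ≤ S.j + 1 := by exact_mod_cast c3
  have d4 : S.j ≤ A.j + 1 := by exact_mod_cast c4
  omega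

/-- the squares of the same level around `S` -/
def near (S : DSquare) : Set DSquare :=
  {A | A.n = S.n ∧ (A.i - S.i ≤ 1 ∧ S.i - A.i ≤ 1) ∧ (A.j - S.j ≤ 1 ∧ S.j - A.j ≤ 1)}

theorem near_finite (S : DSquare) : (near S).Finite := by
  have h : near S ⊆ (fun p : ℤ × ℤ => (⟨S.n, p.1, p.2⟩ : DSquare)) ''
      (Set.Icc (S.i - 1) (S.i + 1) ×ˢ Set.Icc (S.j - 1) (S.j + 1)) := by
    rintro A ⟨h1, ⟨h2, h3⟩, h4, h5⟩
    refine ⟨(A.i, A.j), ⟨⟨by simp only; omega, by simp only; omega⟩,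
      ⟨by simp only; omega, by simp only; omega⟩⟩, ?_⟩
    ext
    · exact h1.symm
    · rfl
    · rfl
  exact ((Set.finite_Icc _ _).prod (Set.finite_Icc _ _)).image _ |>.subset h

theorem exists_sub1 {i : ℤ} {k : ℕ} {y : ℝ} (h1 : (i : ℝ) * 2 ^ k ≤ y) (h2 : y ≤ (i + 1) * 2 ^ k) :
    ∃ a : ℤ, a / 2 ^ k = i ∧ (a : ℝ) ≤ y ∧ y ≤ a + 1 := by
  rcases h2.lt_or_eq with h3 | h3
  · refine ⟨⌊y⌋, ?_, Int.floor_le y, (Int.lt_floor_add_one y).le⟩
    apply ediv_eq_of
    · have : i * 2 ^ k ≤ ⌊y⌋ := by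
        rw [Int.le_floor]
        push_cast
        exact h1
      exact_mod_cast this
    · exact lt_of_le_of_lt (Int.floor_le y) h3
  · refine ⟨(i + 1) * 2 ^ k - 1, ?_, ?_, ?_⟩
    · apply ediv_eq_of
      · push_cast
        have : (1 : ℝ) ≤ 2 ^ k := one_le_pow₀ (by norm_num)
        linarith
      · push_cast
        linarith
    · push_cast
      linarith
    · push_cast
      linarith

theorem exists_sub {T : DSquare} {z : ℂ} (hz : z ∈ T.toSet) (k : ℕ) :
    ∃ A : DSquare, anc k A = T ∧ z ∈ A.toSet := by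
  have hp : 0 < T.side := T.side_pos
  obtain ⟨h1, h2, h3, h4⟩ := mem_toSet.1 hz
  have h2k : (0 : ℝ) < 2 ^ k := by positivity
  have e : ∀ t : ℝ, t / (T.side / 2 ^ k) = t / T.side * 2 ^ k := fun t => by field_simp
  obtain ⟨a, ha, ha1, ha2⟩ := exists_sub1 (i := T.i) (k := k) (y := z.re / T.side * 2 ^ k)
    (mul_le_mul_of_nonneg_right h1 h2k.le) (mul_le_mul_of_nonneg_right h2 h2k.le)
  obtain ⟨b, hb, hb1, hb2⟩ := exists_sub1 (i := T.j) (k := k) (y := z.im / T.side * 2 ^ k)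
    (mul_le_mul_of_nonneg_right h3 h2k.le) (mul_le_mul_of_nonneg_right h4 h2k.le)
  have hanc : anc k ⟨T.n + k, a, b⟩ = T := by
    ext
    · simp [anc]
    · exact ha
    · exact hb
  refine ⟨⟨T.n + k, a, b⟩, hanc, ?_⟩
  have hs : (⟨T.n + k, a, b⟩ : DSquare).side = T.side / 2 ^ k := by
    have := side_anc k ⟨T.n + k, a, b⟩
    rw [hanc] at this
    rw [this]
    field_simp
  rw [mem_toSet, hs, e, e]
  exact ⟨ha1, ha2, hb1, hb2⟩

theorem desc_finite (A : DSquare) (q : ℕ) : {T : DSquare | anc q T = A}.Finite := by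
  have h : {T : DSquare | anc q T = A} ⊆ (fun p : ℤ × ℤ => (⟨A.n + q, p.1, p.2⟩ : DSquare)) ''
      (Set.Icc (A.i * 2 ^ q) ((A.i + 1) * 2 ^ q) ×ˢ Set.Icc (A.j * 2 ^ q) ((A.j + 1) * 2 ^ q)) := by
    intro T hT
    have hn : T.n - q = A.n := congrArg DSquare.n hT
    have hi : T.i / 2 ^ q = A.i := congrArg DSquare.i hT
    have hj : T.j / 2 ^ q = A.j := congrArg DSquare.j hT
    have hq : (0 : ℤ) < 2 ^ q := by positivity
    have h1 := Int.ediv_mul_le T.i hq.ne'
    have h2 := Int.lt_ediv_add_one_mul_self T.i hq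
    have h3 := Int.ediv_mul_le T.j hq.ne'
    have h4 := Int.lt_ediv_add_one_mul_self T.j hq
    rw [hi] at h1 h2
    rw [hj] at h3 h4
    refine ⟨(T.i, T.j), ⟨⟨h1, h2.le⟩, ⟨h3, h4.le⟩⟩, ?_⟩
    ext
    · simp only; omega
    · rfl
    · rfl
  exact ((Set.finite_Icc _ _).prod (Set.finite_Icc _ _)).image _ |>.subset h

theorem finite_adj {x : DSquare → ℝ} {u : ℝ} (hlow : ∀ S, BdLow x u S) (T : tiles x u) :
    {T' : tiles x u | (adjGraph (tiles x u)).Adj T T'}.Finite := by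
  choose N hN using hlow
  have h1 : {T' : tiles x u | (adjGraph (tiles x u)).Adj T T'} ⊆
      (⋃ A ∈ near T.1, ⋃ q ∈ Set.Iic (N A), {T' : tiles x u | anc q T'.1 = A}) ∪
      ⋃ A ∈ near T.1, {T' : tiles x u | ∃ k, T'.1 = anc k A} := by
    intro T' hadj
    obtain ⟨z, hz1, hz2⟩ := nonempty_inter_of_adj hadj
    rcases le_total T.1.n T'.1.n with h | h
    · left
      obtain ⟨q, hq⟩ := Int.eq_ofNat_of_zero_le (show 0 ≤ T'.1.n - T.1.n by omega)
      have hAn : (anc q T'.1).n = T.1.n := by simp only [anc]; omega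
      simp only [Set.mem_iUnion]
      refine ⟨anc q T'.1, ⟨hAn, near_of_mem hz1 (subset_anc q _ hz2) hAn⟩, q, ?_, rfl⟩
      -- the level is bounded
      rw [Set.mem_Iic]
      by_contra hcon
      have hneA : T.1 ≠ anc q T'.1 := by
        intro he
        have h2 := alive_anc_of_tile T'.2 (k := q) (by omega)
        rw [← he] at h2
        exact h2.not_mem T.2
      have hbd := touch_same (q := q) hz2 hz1 hAn.symm hneA
      obtain ⟨d, hd⟩ := Nat.exists_eq_add_of_lt (not_le.1 hcon)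
      set M := N (anc q T'.1) with hM
      have h3 : anc M (anc (d + 1) T'.1) = anc q T'.1 := by
        rw [anc_anc]; congr 1; omega
      have h4 : Bd M (anc (d + 1) T'.1).i (anc (d + 1) T'.1).j := by
        have h5 : Bd (M + (d + 1)) T'.1.i T'.1.j := by
          rw [show M + (d + 1) = q by omega]; exact hbd
        exact h5.ediv
      have h5 := hN _ _ h3 h4
      have h6 := (mem_tiles.1 T'.2).2 (d + 1) (by omega)
      linarith
    · right
      obtain ⟨k, hk⟩ := Int.eq_ofNat_of_zero_le (show 0 ≤ T.1.n - T'.1.n by omega)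
      obtain ⟨A, hA, hzA⟩ := exists_sub hz2 k
      have hAn : A.n = T.1.n := by
        have := congrArg DSquare.n hA
        simp only [anc] at this
        omega
      simp only [Set.mem_iUnion]
      exact ⟨A, ⟨hAn, near_of_mem hz1 hzA hAn⟩, k, hA.symm⟩
  refine Set.Finite.subset ?_ h1
  refine Set.Finite.union ?_ ?_
  · refine (near_finite T.1).biUnion fun A _ => (Set.finite_Iic _).biUnion fun q _ => ?_
    exact (desc_finite A q).preimage Subtype.val_injective.injOn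
  · refine (near_finite T.1).biUnion fun A _ => ?_
    apply Set.Subsingleton.finite
    rintro T₁ ⟨k, hk⟩ T₂ ⟨l, hl⟩
    exact Subtype.ext (tile_unique T₁.2 T₂.2 hk hl)

/-! ### The space -/

theorem ball_fin {V : Type*} {G : SimpleGraph V} (hfin : ∀ v, {w | G.Adj v w}.Finite) (r : V)
    (n : ℕ) : {v | G.Reachable r v ∧ G.dist r v ≤ n}.Finite := by
  induction n with
  | zero =>
    apply (Set.finite_singleton r).subset
    rintro v ⟨h1, h2⟩
    have h3 : G.dist r v = 0 := by omega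
    rw [h1.dist_eq_zero_iff] at h3
    exact h3.symm
  | succ n ih =>
    have h1 : {v | G.Reachable r v ∧ G.dist r v ≤ n + 1} ⊆
        {v | G.Reachable r v ∧ G.dist r v ≤ n} ∪
        ⋃ w ∈ {v | G.Reachable r v ∧ G.dist r v ≤ n}, {v | G.Adj w v} := by
      rintro v ⟨h1, h2⟩
      by_cases h : G.dist r v ≤ n
      · exact Or.inl ⟨h1, h⟩
      · right
        obtain ⟨w, hw1, hw2, hw3⟩ := exists_pred h1 (show G.dist r v = n + 1 by omega)
        simp only [Set.mem_iUnion]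
        exact ⟨w, ⟨hw2, hw3.le⟩, hw1⟩
    exact (ih.union (ih.biUnion fun w _ => hfin w)).subset h1

/-- the rescaled graph metric on a connected component -/
@[reducible] noncomputable def compMetric {V : Type} (G : SimpleGraph V) (R : V) {a : ℝ} (ha : 0 < a) :
    MetricSpace {S : V // G.Reachable R S} where
  dist S T := a * G.dist S.1 T.1
  dist_self S := by simp
  dist_comm S T := by rw [SimpleGraph.dist_comm]
  dist_triangle S T U := by
    have h1 : G.Reachable S.1 T.1 := S.2.symm.trans T.2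
    have h2 := h1.dist_triangle_left U.1
    have h3 : (G.dist S.1 U.1 : ℝ) ≤ G.dist S.1 T.1 + G.dist T.1 U.1 := by exact_mod_cast h2
    rw [← mul_add]
    exact mul_le_mul_of_nonneg_left h3 ha.le
  eq_of_dist_eq_zero := by
    intro S T h
    have h1 : (G.dist S.1 T.1 : ℝ) = 0 := by
      rcases mul_eq_zero.1 h with h | h
      · exact (ha.ne' h).elim
      · exact h
    have h2 : G.dist S.1 T.1 = 0 := by exact_mod_cast h1
    have h3 : G.Reachable S.1 T.1 := S.2.symm.trans T.2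
    exact Subtype.ext (h3.dist_eq_zero_iff.1 h2)

theorem exists_space {𝒯 : Set DSquare} (hfin : ∀ T : 𝒯, {T' | (adjGraph 𝒯).Adj T T'}.Finite)
    (R : 𝒯) (hR : (0 : ℂ) ∈ R.1.toSet) {a : ℝ} (ha : 0 < a) (b : ℝ) :
    ∃ X, IsRescaled 𝒯 a b X := by
  let _ : MetricSpace {S : 𝒯 // (adjGraph 𝒯).Reachable R S} := compMetric (adjGraph 𝒯) R ha
  have hdist : ∀ S T : {S : 𝒯 // (adjGraph 𝒯).Reachable R S},
      dist S T = a * (adjGraph 𝒯).dist S.1 T.1 := fun S T => rfl
  have hball : ∀ (S : {S : 𝒯 // (adjGraph 𝒯).Reachable R S}) (r : ℝ),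
      (Metric.closedBall S r).Finite := by
    intro S r
    have h1 := (ball_fin hfin S.1 ⌊r / a⌋₊).preimage
      (f := (Subtype.val : {S : 𝒯 // (adjGraph 𝒯).Reachable R S} → 𝒯)) Subtype.val_injective.injOn
    refine h1.subset ?_
    intro T hT
    rw [Metric.mem_closedBall, hdist, SimpleGraph.dist_comm] at hT
    refine ⟨S.2.symm.trans T.2, Nat.le_floor ?_⟩
    rw [le_div_iff₀ ha]
    linarith
  have hproper : ProperSpace {S : 𝒯 // (adjGraph 𝒯).Reachable R S} :=
    ⟨fun S r => (hball S r).isCompact⟩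
  let _ : MeasurableSpace {S : 𝒯 // (adjGraph 𝒯).Reachable R S} := borel _
  have : BorelSpace {S : 𝒯 // (adjGraph 𝒯).Reachable R S} := ⟨rfl⟩
  have hloc : MeasureTheory.IsLocallyFiniteMeasure (ENNReal.ofReal b •
      (MeasureTheory.Measure.count :
        MeasureTheory.Measure {S : 𝒯 // (adjGraph 𝒯).Reachable R S})) := by
    refine ⟨fun S => ⟨Metric.closedBall S a, Metric.closedBall_mem_nhds S ha, ?_⟩⟩
    rw [MeasureTheory.Measure.smul_apply, smul_eq_mul]
    exact ENNReal.mul_lt_top ENNReal.ofReal_lt_top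
      (MeasureTheory.Measure.count_apply_lt_top.2 (hball S a))
  refine ⟨⟨{S : 𝒯 // (adjGraph 𝒯).Reachable R S}, ⟨R, SimpleGraph.Reachable.refl R⟩,
    ENNReal.ofReal b • MeasureTheory.Measure.count⟩, R, Equiv.refl _, hR, rfl, ?_, rfl⟩
  intro S T
  rfl

end Pool.Agent.Y980
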