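import Pool.Agent.Y980.Final
import Pool.Agent.Y980.Space

/-!
# The complete negative answer
-/

set_option autoImplicit false

namespace Pool.Agent.Y980

open MeasureTheory ProbabilityTheory Real DSquare Filter Topology

/-- For `Q ≥ √2` the rescaled rooted tiling is a.s. a boundedly compact space. -/
theorem space_ae {Ω : Type*} [MeasurableSpace Ω] {P : Measure Ω} {h : ℝ → ℂ → Ω → ℝ}
    (hh : IsGFF P h) {Q : ℝ} (hQ : 0 < Q) (hQ2 : 2 ≤ Q ^ 2) :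
    ∀ᵐ ω ∂P, ∀ ε : ℝ, 0 < ε → ∀ a b : ℝ, 0 < a → ∃ X, IsRescaled (tiling Q h ε ω) a b X := by
  filter_upwards [bdLow_ae hh hQ hQ2, quad_tile hh hQ (i := 0) (j := 0) (Or.inl rfl) (Or.inl rfl)]
    with ω h1 h2 ε hε a b ha
  obtain ⟨u, rfl⟩ : ∃ u, ε = exp u := ⟨log ε, (exp_log hε).symm⟩
  rw [tiling_eq]
  obtain ⟨n, hn⟩ := h2 u
  have hlow : ∀ S, BdLow (fld Q h ω) u S := by
    intro S
    obtain ⟨M, hM⟩ := exists_nat_ge (-u)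
    obtain ⟨N, hN⟩ := h1 S M
    exact ⟨N, fun T hT hbd => (hN T hT hbd).trans (by linarith)⟩
  refine exists_space (fun T => finite_adj hlow T) ⟨_, hn⟩ ?_ ha b
  simp only [toSet, Set.mem_ofPred_eq, Complex.zero_re, Complex.zero_im]
  have := (⟨n, 0, 0⟩ : DSquare).side_pos
  push_cast
  refine ⟨by linarith, by linarith, by linarith, by linarith⟩

/-- For every `Q ∈ (0, 2)` the dyadic tilings have no scaling limit. -/
theorem complete.{v, w} {Ω : Type v} [MeasurableSpace Ω] {P : Measure Ω} {h : ℝ → ℂ → Ω → ℝ}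
    (hh : IsGFF P h) {Q : ℝ} (hQ : 0 < Q) (hQ' : Q < 2) :
    (Q < √2 → ∃ p > 0, ∃ᶠ ε in 𝓝[>] (0 : ℝ), p ≤ P {ω | ∀ a b : ℝ, 0 < a →
      ¬ ∃ X, IsRescaled (tiling Q h ε ω) a b X}) ∧
    (√2 ≤ Q → ∀ᵐ ω ∂P, ∀ ε > 0, ∀ a b : ℝ, 0 < a → ∃ X, IsRescaled (tiling Q h ε ω) a b X) ∧
    ∀ a b : ℝ → ℝ, (∀ ε > 0, 0 < a ε) → ∀ X : ℝ → Ω → PMMSpace,
      Tendsto (fun ε => P {ω | ¬ IsRescaled (tiling Q h ε ω) (a ε) (b ε) (X ε ω)}) (𝓝[>] 0)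
        (𝓝 0) →
      ∀ (Ω' : Type w) [MeasurableSpace Ω'] (P' : Measure Ω') [IsProbabilityMeasure P']
        (Y : Ω' → PMMSpace), ConvergesInLaw P X P' Y →
      ∃ δ > 0, (∃ᶠ ε in 𝓝[>] (0 : ℝ), δ ≤ a ε) ∧
        ∀ᵐ ω' ∂P', ∀ p q : (Y ω').X, p ≠ q → δ ≤ dist p q := by
  have hs : √2 ^ 2 = (2 : ℝ) := sq_sqrt (by norm_num)
  refine ⟨fun h1 => ?_, fun h1 => ?_, ?_⟩
  · apply no_space hh hQ
    have := sqrt_nonneg (2 : ℝ)
    nlinarith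
  · apply space_ae hh hQ
    have := sqrt_nonneg (2 : ℝ)
    nlinarith
  · intro a b ha X hX Ω' _ P' _ Y hY
    exact main hh hQ hQ' ha hX hY

end Pool.Agent.Y980
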