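import Mathlib

/-!
# Exponential moments of linear combinations of a Gaussian process
-/

set_option autoImplicit false

namespace Pool.Agent.Y980

open MeasureTheory ProbabilityTheory Real

variable {T Ω : Type*} [MeasurableSpace Ω] {P : Measure Ω} {g : T → Ω → ℝ}

/-- finite linear combinations of a process -/
noncomputable def lin (g : T → Ω → ℝ) (f : T →₀ ℝ) (ω : Ω) : ℝ := f.sum fun t c => c * g t ω

theorem isGaussianProcess_lin (hg : IsGaussianProcess g P) : IsGaussianProcess (lin g) P := by
  apply hg.of_isGaussianProcess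
  intro f
  refine ⟨f.support,
    { toFun := fun x => ∑ t : f.support, f t * x t
      map_add' := fun x y => by simp [mul_add, Finset.sum_add_distrib]
      map_smul' := fun c x => by
        simp only [Pi.smul_apply, smul_eq_mul, RingHom.id_apply, Finset.mul_sum]
        exact Finset.sum_congr rfl fun _ _ => by ring
      cont := by fun_prop }, fun ω => ?_⟩
  simp only [lin, Finsupp.sum]
  rw [← Finset.sum_coe_sort f.support (fun t => f t * g t ω)]
  rfl

omit [MeasurableSpace Ω] in
theorem lin_add (f f' : T →₀ ℝ) (ω : Ω) : lin g (f + f') ω = lin g f ω + lin g f' ω := by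
  classical
  unfold lin
  rw [Finsupp.sum_add_index']
  · intro t; simp
  · intro t a b; ring

omit [MeasurableSpace Ω] in
theorem lin_single (t : T) (a : ℝ) (ω : Ω) : lin g (Finsupp.single t a) ω = a * g t ω := by
  unfold lin
  rw [Finsupp.sum_single_index (by simp)]

omit [MeasurableSpace Ω] in
theorem lin3 (s t r : T) (a b c : ℝ) :
    (fun ω => a * g s ω + b * g t ω + c * g r ω) =
      lin g (Finsupp.single s a + Finsupp.single t b + Finsupp.single r c) := by
  ext ω
  rw [lin_add, lin_add, lin_single, lin_single, lin_single]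

theorem law_lin3 (hg : IsGaussianProcess g P) (s t r : T) (a b c : ℝ) :
    HasGaussianLaw (fun ω => a * g s ω + b * g t ω + c * g r ω) P := by
  rw [lin3]
  exact (isGaussianProcess_lin hg).hasGaussianLaw_eval _

theorem exp_gauss {X : Ω → ℝ} (hX : HasGaussianLaw X P) (h0 : ∫ ω, X ω ∂P = 0) :
    Integrable (fun ω => exp (X ω)) P ∧ ∫ ω, exp (X ω) ∂P = exp (Var[X; P] / 2) := by
  have := hX.isProbabilityMeasure
  have h1 := hX.map_eq_gaussianReal
  have h2 : mgf X P 1 = exp (Var[X; P] / 2) := by
    rw [mgf_gaussianReal h1, h0]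
    congr 1
    rw [Real.coe_toNNReal _ (variance_nonneg _ _)]
    ring
  have h3 : mgf X P 1 = ∫ ω, exp (X ω) ∂P := by
    unfold mgf
    simp
  refine ⟨?_, by rw [← h3, h2]⟩
  have h4 : 0 < mgf X P 1 := by rw [h2]; exact exp_pos _
  by_contra hc
  have h5 : ∫ ω, exp (X ω) ∂P = 0 := integral_undef hc
  rw [h3, h5] at h4
  exact lt_irrefl _ h4

theorem var_lin3 (hg : IsGaussianProcess g P) (s t r : T) (a b c : ℝ) :
    Var[fun ω => a * g s ω + b * g t ω + c * g r ω; P] =
      a ^ 2 * cov[g s, g s; P] + b ^ 2 * cov[g t, g t; P] + c ^ 2 * cov[g r, g r; P] +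
      2 * a * b * cov[g s, g t; P] + 2 * a * c * cov[g s, g r; P] +
      2 * b * c * cov[g t, g r; P] := by
  have := hg.isProbabilityMeasure
  have m : ∀ t, MemLp (g t) 2 P := fun t => (hg.hasGaussianLaw_eval t).memLp_two
  have m1 : MemLp (fun ω => a * g s ω) 2 P := (m s).const_mul a
  have m2 : MemLp (fun ω => b * g t ω) 2 P := (m t).const_mul b
  have m3 : MemLp (fun ω => c * g r ω) 2 P := (m r).const_mul c
  have m12 : MemLp (fun ω => a * g s ω + b * g t ω) 2 P := m1.add m2
  rw [variance_fun_add m12 m3, variance_fun_add m1 m2]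
  have e : cov[fun ω => a * g s ω + b * g t ω, fun ω => c * g r ω; P] =
      cov[fun ω => a * g s ω, fun ω => c * g r ω; P] +
      cov[fun ω => b * g t ω, fun ω => c * g r ω; P] := covariance_add_left m1 m2 m3
  rw [e]
  rw [variance_const_mul, variance_const_mul, variance_const_mul, covariance_const_mul_left,
    covariance_const_mul_right, covariance_const_mul_left, covariance_const_mul_right,
    covariance_const_mul_left, covariance_const_mul_right]
  rw [covariance_self (m s).1.aemeasurable, covariance_self (m t).1.aemeasurable,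
    covariance_self (m r).1.aemeasurable]
  ring

theorem mean_lin3 (hg : IsGaussianProcess g P) (h0 : ∀ t, ∫ ω, g t ω ∂P = 0) (s t r : T)
    (a b c : ℝ) : ∫ ω, (a * g s ω + b * g t ω + c * g r ω) ∂P = 0 := by
  have i : ∀ t, Integrable (g t) P := fun t => (hg.hasGaussianLaw_eval t).integrable
  have i2 : Integrable (fun ω => a * g s ω + b * g t ω) P :=
    ((i s).const_mul a).add ((i t).const_mul b)
  rw [integral_add i2 ((i r).const_mul c),
    integral_add ((i s).const_mul a) ((i t).const_mul b), integral_const_mul, integral_const_mul,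
    integral_const_mul, h0, h0, h0]
  simp

theorem exp_lin3 (hg : IsGaussianProcess g P) (h0 : ∀ t, ∫ ω, g t ω ∂P = 0) (s t r : T)
    (a b c : ℝ) :
    Integrable (fun ω => exp (a * g s ω + b * g t ω + c * g r ω)) P ∧
    ∫ ω, exp (a * g s ω + b * g t ω + c * g r ω) ∂P =
      exp ((a ^ 2 * cov[g s, g s; P] + b ^ 2 * cov[g t, g t; P] + c ^ 2 * cov[g r, g r; P] +
      2 * a * b * cov[g s, g t; P] + 2 * a * c * cov[g s, g r; P] +
      2 * b * c * cov[g t, g r; P]) / 2) := by
  have h := exp_gauss (law_lin3 hg s t r a b c) (mean_lin3 hg h0 s t r a b c)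
  rw [var_lin3 hg] at h
  exact h

end Pool.Agent.Y980
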