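import Pool.Agent.Y980.Defs

/-!
# Geometry of dyadic squares
-/

set_option autoImplicit false

namespace Pool.Agent.Y980

namespace DSquare

/-- the `k`-th dyadic ancestor -/
def anc (k : ℕ) (S : DSquare) : DSquare := ⟨S.n - k, S.i / 2 ^ k, S.j / 2 ^ k⟩

theorem anc_zero (S : DSquare) : anc 0 S = S := by
  ext <;> simp [anc]

theorem anc_anc (k l : ℕ) (S : DSquare) : anc k (anc l S) = anc (k + l) S := by
  ext
  · simp only [anc]; push_cast; ring
  · simp only [anc]
    rw [Int.ediv_ediv_of_nonneg (by positivity), ← pow_add, add_comm]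
  · simp only [anc]
    rw [Int.ediv_ediv_of_nonneg (by positivity), ← pow_add, add_comm]

theorem side_pos (S : DSquare) : 0 < S.side := by
  unfold side; positivity

theorem side_anc (k : ℕ) (S : DSquare) : (anc k S).side = 2 ^ k * S.side := by
  unfold side anc
  simp only
  rw [show -(S.n - (k : ℤ)) = (k : ℤ) + -S.n by ring, zpow_add₀ (by norm_num), zpow_natCast]

theorem mem_toSet {S : DSquare} {z : ℂ} : z ∈ S.toSet ↔
    (S.i : ℝ) ≤ z.re / S.side ∧ z.re / S.side ≤ S.i + 1 ∧
    (S.j : ℝ) ≤ z.im / S.side ∧ z.im / S.side ≤ S.j + 1 := by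
  have h := S.side_pos
  unfold toSet
  simp only [Set.mem_ofPred_eq]
  rw [le_div_iff₀ h, div_le_iff₀ h, le_div_iff₀ h, div_le_iff₀ h]

theorem ediv_le_real (a : ℤ) (k : ℕ) : ((a / 2 ^ k : ℤ) : ℝ) * 2 ^ k ≤ a := by
  have h := Int.ediv_mul_le a (show (2 ^ k : ℤ) ≠ 0 by positivity)
  exact_mod_cast h

theorem real_lt_ediv (a : ℤ) (k : ℕ) : (a : ℝ) + 1 ≤ (((a / 2 ^ k : ℤ) : ℝ) + 1) * 2 ^ k := by
  have h := Int.lt_ediv_add_one_mul_self a (show (0 : ℤ) < 2 ^ k by positivity)
  have h' : a + 1 ≤ (a / 2 ^ k + 1) * 2 ^ k := h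
  exact_mod_cast h'

theorem subset_anc (k : ℕ) (S : DSquare) : S.toSet ⊆ (anc k S).toSet := by
  intro z hz
  rw [mem_toSet] at hz ⊢
  obtain ⟨h1, h2, h3, h4⟩ := hz
  have e : z.re / S.side = z.re / (anc k S).side * 2 ^ k := by
    rw [side_anc]; field_simp
  have e' : z.im / S.side = z.im / (anc k S).side * 2 ^ k := by
    rw [side_anc]; field_simp
  rw [e] at h1 h2
  rw [e'] at h3 h4
  have hp : (0 : ℝ) < 2 ^ k := by positivity
  have a1 := ediv_le_real S.i k
  have a2 := real_lt_ediv S.i k
  have a3 := ediv_le_real S.j k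
  have a4 := real_lt_ediv S.j k
  refine ⟨?_, ?_, ?_, ?_⟩
  · exact le_of_mul_le_mul_right (a1.trans h1) hp
  · exact le_of_mul_le_mul_right (h2.trans a2) hp
  · exact le_of_mul_le_mul_right (a3.trans h3) hp
  · exact le_of_mul_le_mul_right (h4.trans a4) hp

/-- the lower left corner -/
noncomputable def corner (S : DSquare) : ℂ := ⟨S.i * S.side, S.j * S.side⟩

/-- the upper right corner -/
noncomputable def corner' (S : DSquare) : ℂ := ⟨(S.i + 1) * S.side, (S.j + 1) * S.side⟩

theorem corner_mem (S : DSquare) : S.corner ∈ S.toSet := by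
  have := S.side_pos
  simp only [corner, toSet, Set.mem_ofPred_eq]
  refine ⟨le_refl _, ?_, le_refl _, ?_⟩ <;> nlinarith

theorem corner'_mem (S : DSquare) : S.corner' ∈ S.toSet := by
  have := S.side_pos
  simp only [corner', toSet, Set.mem_ofPred_eq]
  refine ⟨?_, le_refl _, ?_, le_refl _⟩ <;> nlinarith

theorem ediv_eq_of {a b : ℤ} {k : ℕ} (h1 : (b : ℝ) * 2 ^ k ≤ a) (h2 : (a : ℝ) < (b + 1) * 2 ^ k) :
    a / 2 ^ k = b := by
  have h1' : b * 2 ^ k ≤ a := by exact_mod_cast h1
  have h2' : a < (b + 1) * 2 ^ k := by exact_mod_cast h2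
  apply le_antisymm
  · have : a / 2 ^ k < b + 1 := Int.ediv_lt_of_lt_mul (by positivity) h2'
    omega
  · exact Int.le_ediv_of_mul_le (by positivity) h1'

theorem side_le_of_subset {S T : DSquare} (h : S.toSet ⊆ T.toSet) : S.side ≤ T.side := by
  have h1 := h S.corner_mem
  have h2 := h S.corner'_mem
  simp only [corner, corner', toSet, Set.mem_ofPred_eq] at h1 h2
  have := S.side_pos
  nlinarith [h1.1, h2.2.1]

theorem level_le_of_subset {S T : DSquare} (h : S.toSet ⊆ T.toSet) : T.n ≤ S.n := by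
  have h1 := side_le_of_subset h
  unfold side at h1
  have := (zpow_le_zpow_iff_right₀ (show (1 : ℝ) < 2 by norm_num)).1 h1
  omega

theorem subset_iff {S T : DSquare} : S.toSet ⊆ T.toSet ↔ ∃ k, T = anc k S := by
  constructor
  · intro h
    have hl := level_le_of_subset h
    obtain ⟨k, hk⟩ := Int.eq_ofNat_of_zero_le (show 0 ≤ S.n - T.n by omega)
    have hs : T.side = 2 ^ k * S.side := by
      unfold side
      rw [show -T.n = (k : ℤ) + -S.n by omega, zpow_add₀ (by norm_num), zpow_natCast]
    have h1 := h S.corner_mem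
    have h2 := h S.corner'_mem
    simp only [corner, corner', toSet, Set.mem_ofPred_eq] at h1 h2
    have hp := S.side_pos
    rw [hs] at h1 h2
    refine ⟨k, ?_⟩
    have e1 : S.i / 2 ^ k = T.i := by
      apply ediv_eq_of
      · have := h1.1
        rw [← mul_assoc] at this
        exact le_of_mul_le_mul_right this hp
      · have := h2.2.1
        rw [← mul_assoc] at this
        have := le_of_mul_le_mul_right this hp
        linarith
    have e2 : S.j / 2 ^ k = T.j := by
      apply ediv_eq_of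
      · have := h1.2.2.1
        rw [← mul_assoc] at this
        exact le_of_mul_le_mul_right this hp
      · have := h2.2.2.2
        rw [← mul_assoc] at this
        have := le_of_mul_le_mul_right this hp
        linarith
    ext
    · simp only [anc]; omega
    · simp only [anc]; exact e1.symm
    · simp only [anc]; exact e2.symm
  · rintro ⟨k, rfl⟩
    exact subset_anc k S

theorem ssubset_iff {S T : DSquare} : S.toSet ⊂ T.toSet ↔ ∃ k, 0 < k ∧ T = anc k S := by
  constructor
  · intro h
    obtain ⟨k, hk⟩ := subset_iff.1 h.subset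
    refine ⟨k, ?_, hk⟩
    rcases Nat.eq_zero_or_pos k with h0 | h0
    · subst h0
      rw [anc_zero] at hk
      subst hk
      exact (h.ne rfl).elim
    · exact h0
  · rintro ⟨k, hk, rfl⟩
    refine (subset_anc k S).ssubset_of_ne (fun h => ?_)
    have h1 := level_le_of_subset h.ge
    simp only [anc] at h1
    omega

end DSquare

open DSquare

theorem mem_tiles {M : DSquare → ℝ} {ε : ℝ} {S : DSquare} :
    S ∈ tiles M ε ↔ M S ≤ ε ∧ ∀ k, 0 < k → ε < M (anc k S) := by
  unfold tiles
  simp only [Set.mem_ofPred_eq]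
  refine and_congr_right (fun _ => ⟨fun h k hk => h _ (ssubset_iff.2 ⟨k, hk, rfl⟩), ?_⟩)
  rintro h S' hS'
  obtain ⟨k, hk, rfl⟩ := ssubset_iff.1 hS'
  exact h k hk

/-- `S` and all its ancestors are above the threshold. -/
def Alive (x : DSquare → ℝ) (u : ℝ) (S : DSquare) : Prop := ∀ k, u < x (anc k S)

theorem Alive.anc {x : DSquare → ℝ} {u : ℝ} {S : DSquare} (h : Alive x u S) (k : ℕ) :
    Alive x u (DSquare.anc k S) := by
  intro l
  rw [anc_anc]
  exact h _

theorem Alive.not_mem {x : DSquare → ℝ} {u : ℝ} {S : DSquare} (h : Alive x u S) :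
    S ∉ tiles x u := by
  intro h'
  have := h 0
  rw [anc_zero] at this
  exact absurd (mem_tiles.1 h').1 (not_le.2 this)

theorem Alive.mono {x : DSquare → ℝ} {u v : ℝ} {S : DSquare} (h : Alive x v S) (huv : u ≤ v) :
    Alive x u S := fun k => lt_of_le_of_lt huv (h k)

theorem alive_anc_of_tile {x : DSquare → ℝ} {u : ℝ} {S : DSquare} (h : S ∈ tiles x u) {k : ℕ}
    (hk : 0 < k) : Alive x u (DSquare.anc k S) := by
  intro l
  rw [anc_anc]
  exact (mem_tiles.1 h).2 _ (by omega)

/-- Two nested tiles are equal. -/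
theorem tile_unique {x : DSquare → ℝ} {u : ℝ} {S T T' : DSquare} (hT : T ∈ tiles x u)
    (hT' : T' ∈ tiles x u) {k l : ℕ} (h1 : T = DSquare.anc k S) (h2 : T' = DSquare.anc l S) :
    T = T' := by
  rcases lt_trichotomy k l with h | h | h
  · exfalso
    have : T' = DSquare.anc (l - k) T := by
      rw [h1, anc_anc, h2]; congr 1; omega
    exact (this ▸ alive_anc_of_tile hT (by omega)).not_mem hT'
  · rw [h1, h2, h]
  · exfalso
    have : T = DSquare.anc (k - l) T' := by
      rw [h2, anc_anc, h1]; congr 1; omega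
    exact (this ▸ alive_anc_of_tile hT' (by omega)).not_mem hT

/-- If `s` is not alive but all its ancestors from the `N`-th on are above the threshold, then
`s` is contained in a tile. -/
theorem exists_tile {x : DSquare → ℝ} {u : ℝ} {s : DSquare} (h : ¬ Alive x u s) (N : ℕ)
    (hN : ∀ k, N ≤ k → u < x (DSquare.anc k s)) : ∃ k, k < N ∧ DSquare.anc k s ∈ tiles x u := by
  classical
  unfold Alive at h
  push Not at h
  obtain ⟨k0, hk0⟩ := h
  have hk0N : k0 ≤ N := by
    by_contra hc
    exact absurd (hN k0 (by omega)) (not_lt.2 hk0)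
  let p : ℕ → Prop := fun k => x (DSquare.anc k s) ≤ u
  have hp : p (Nat.findGreatest p N) := Nat.findGreatest_spec (P := p) hk0N hk0
  refine ⟨Nat.findGreatest p N, ?_, ?_⟩
  · by_contra hc
    exact absurd (hN _ (not_lt.1 hc)) (not_lt.2 hp)
  rw [mem_tiles]
  refine ⟨hp, fun k hk => ?_⟩
  rw [anc_anc]
  by_cases hc : N ≤ k + Nat.findGreatest p N
  · exact hN _ hc
  · have := Nat.findGreatest_is_greatest (P := p) (n := N) (k := k + Nat.findGreatest p N)
      (by omega) (by omega)
    exact not_le.1 this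

end Pool.Agent.Y980
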