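import Pool.Agent.Y980.Many

/-!
# Gaussian tails, the squares around the origin
-/

set_option autoImplicit false

namespace Pool.Agent.Y980

open MeasureTheory ProbabilityTheory Real DSquare Filter Topology

theorem gauss_tail {Ω : Type*} [MeasurableSpace Ω] {P : Measure Ω} {X : Ω → ℝ}
    (hX : HasGaussianLaw X P) (h0 : ∫ ω, X ω ∂P = 0) {v : ℝ} (hv : Var[X; P] ≤ v) {t : ℝ}
    (ht : 0 ≤ t) (a : ℝ) :
    P {ω | a ≤ X ω} ≤ ENNReal.ofReal (exp (t ^ 2 * v / 2 - t * a)) := by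
  have := hX.isProbabilityMeasure
  have hY : HasGaussianLaw (fun ω => t * X ω) P := hX.fun_smul t
  have hY0 : ∫ ω, t * X ω ∂P = 0 := by rw [integral_const_mul, h0, mul_zero]
  obtain ⟨h1, h2⟩ := exp_gauss hY hY0
  have h3 := measure_ge_le_exp_mul_mgf a ht h1
  rw [variance_const_mul] at h2
  have h4 : mgf X P t = exp (t ^ 2 * Var[X; P] / 2) := h2
  rw [h4, ← exp_add] at h3
  have h5 : P.real {ω | a ≤ X ω} ≤ exp (t ^ 2 * v / 2 - t * a) := by
    refine h3.trans (exp_le_exp.2 ?_)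
    have : t ^ 2 * Var[X; P] ≤ t ^ 2 * v := mul_le_mul_of_nonneg_left hv (by positivity)
    linarith
  rw [← ofReal_measureReal]
  exact ENNReal.ofReal_le_ofReal h5

theorem gauss_tail' {Ω : Type*} [MeasurableSpace Ω] {P : Measure Ω} {X : Ω → ℝ}
    (hX : HasGaussianLaw X P) (h0 : ∫ ω, X ω ∂P = 0) {v : ℝ} (hv : Var[X; P] ≤ v) {t : ℝ}
    (ht : 0 ≤ t) (a : ℝ) :
    P {ω | X ω ≤ -a} ≤ ENNReal.ofReal (exp (t ^ 2 * v / 2 - t * a)) := by
  have := hX.isProbabilityMeasure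
  have hY : HasGaussianLaw (fun ω => - X ω) P := hX.fun_neg
  have hY0 : ∫ ω, - X ω ∂P = 0 := by rw [integral_neg, h0, neg_zero]
  have hv' : Var[fun ω => - X ω; P] ≤ v := by rwa [variance_fun_neg]
  refine le_trans (measure_mono ?_) (gauss_tail hY hY0 hv' ht a)
  intro ω hω
  simp only [Set.mem_ofPred_eq] at hω ⊢
  linarith

section

variable {Ω : Type*} [MeasurableSpace Ω] {P : Measure Ω} {h : ℝ → ℂ → Ω → ℝ}

theorem isGaussianProcess_sqv (hh : IsGFF P h) : IsGaussianProcess (sqv h) P :=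
  hh.gaussian.comp_right (fun S : DSquare => (⟨⟨S.side / 2, half_pos' S⟩, S.center⟩ :
      Set.Ioi (0 : ℝ) × ℂ))

theorem mean_sqv (hh : IsGFF P h) (S : DSquare) : ∫ ω, sqv h S ω ∂P = 0 :=
  hh.mean _ _ (half_pos' S)

theorem measurable_sqv (hh : IsGFF P h) (S : DSquare) : Measurable (sqv h S) :=
  hh.measurable _ _ (half_pos' S)

theorem measurable_fld (hh : IsGFF P h) (Q : ℝ) : Measurable (fun ω => fld Q h ω) := by
  refine measurable_pi_lambda _ fun S => ?_
  have := measurable_sqv hh S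
  unfold fld
  fun_prop

/-- the four quadrants -/
def Quad (i : ℤ) : Prop := i = 0 ∨ i = -1

theorem quad_bound {S : DSquare} (hi : Quad S.i) (hj : Quad S.j) {x : ℂ} (hx : x ∈ S.toSet) :
    ‖x‖ ≤ exp (log 2 / 2 - S.n * log 2) := by
  have hs := S.side_pos
  have e : exp (log 2 / 2 - S.n * log 2) ^ 2 = 2 * S.side ^ 2 := by
    rw [side_eq, ← exp_nat_mul, ← exp_nat_mul, show (2 : ℝ) * exp ((2 : ℕ) * -(S.n * log 2)) =
      exp (log 2) * exp ((2 : ℕ) * -(S.n * log 2)) by rw [exp_log (by norm_num)], ← exp_add]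
    congr 1
    push_cast
    ring
  apply norm_le_of_sq (exp_pos _).le
  rw [e]
  simp only [toSet, Set.mem_ofPred_eq] at hx
  obtain ⟨h1, h2, h3, h4⟩ := hx
  have a1 : x.re ^ 2 ≤ S.side ^ 2 := by
    rcases hi with hi | hi
    · rw [hi] at h1 h2
      apply sq_le_sq'
      · push_cast at h1; nlinarith
      · push_cast at h2; nlinarith
    · rw [hi] at h1 h2
      apply sq_le_sq'
      · push_cast at h1; nlinarith
      · push_cast at h2; nlinarith
  have a2 : x.im ^ 2 ≤ S.side ^ 2 := by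
    rcases hj with hj | hj
    · rw [hj] at h3 h4
      apply sq_le_sq'
      · push_cast at h3; nlinarith
      · push_cast at h4; nlinarith
    · rw [hj] at h3 h4
      apply sq_le_sq'
      · push_cast at h3; nlinarith
      · push_cast at h4; nlinarith
  linarith

theorem var_quad (hh : IsGFF P h) {S : DSquare} (hi : Quad S.i) (hj : Quad S.j) :
    Var[sqv h S; P] ≤ (|(S.n : ℝ)| + 2) * log 2 := by
  have hp := hh.gaussian.isProbabilityMeasure
  rw [← covariance_self (measurable_sqv hh S).aemeasurable, cov_sq hh, sA_self]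
  have hl := log_two_pos
  have h1 : sN S ≤ max 0 (log 2 / 2 - S.n * log 2) :=
    sN_le (le_max_left _ _) fun x hx => (quad_bound hi hj hx).trans
      (exp_le_exp.2 (le_max_right _ _))
  rcases le_total 0 (S.n : ℝ) with h2 | h2
  · have h3 : max 0 (log 2 / 2 - S.n * log 2) ≤ log 2 / 2 := by
      apply max_le (by linarith)
      nlinarith
    rw [abs_of_nonneg h2]
    nlinarith
  · have h3 : max 0 (log 2 / 2 - S.n * log 2) = log 2 / 2 - S.n * log 2 := by
      apply max_eq_right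
      nlinarith
    rw [h3] at h1
    rw [abs_of_nonpos h2]
    nlinarith

theorem quad_anc {i : ℤ} (hi : Quad i) (k : ℕ) : i / 2 ^ k = i := by
  rcases hi with rfl | rfl
  · simp
  · apply Int.le_antisymm
    · have : (-1 : ℤ) / 2 ^ k < 0 := Int.ediv_neg_of_neg_of_pos (by norm_num) (by positivity)
      omega
    · apply Int.le_ediv_of_mul_le (by positivity)
      have : (1 : ℤ) ≤ 2 ^ k := one_le_pow₀ (by norm_num)
      omega

theorem anc_quad {n i j : ℤ} (hi : Quad i) (hj : Quad j) (k : ℕ) :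
    anc k ⟨n, i, j⟩ = ⟨n - k, i, j⟩ := by
  ext
  · rfl
  · exact quad_anc hi k
  · exact quad_anc hj k

/-- large squares around the origin have a large mass -/
theorem anc_tail (hh : IsGFF P h) {Q : ℝ} (hQ : 0 < Q) {i j : ℤ} (hi : Quad i) (hj : Quad j)
    (k : ℕ) (C : ℝ) : P {ω | fld Q h ω ⟨-(k : ℤ), i, j⟩ ≤ -C} ≤
      ENNReal.ofReal (exp (Q ^ 2 * log 2 - Q * C) * exp (-(Q ^ 2 * log 2 / 2)) ^ k) := by
  set S : DSquare := ⟨-(k : ℤ), i, j⟩ with hS
  have h1 := var_quad hh (S := S) hi hj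
  have h2 := gauss_tail' ((isGaussianProcess_sqv hh).hasGaussianLaw_eval S) (mean_sqv hh S) h1
    hQ.le (C + Q * k * log 2)
  have e : (|(S.n : ℝ)| + 2) * log 2 = (k + 2) * log 2 := by
    rw [hS]
    push_cast
    rw [abs_neg, abs_of_nonneg (Nat.cast_nonneg k)]
  rw [e] at h2
  have e2 : exp (Q ^ 2 * log 2 - Q * C) * exp (-(Q ^ 2 * log 2 / 2)) ^ k =
      exp (Q ^ 2 * ((k + 2) * log 2) / 2 - Q * (C + Q * k * log 2)) := by
    rw [← exp_nat_mul, ← exp_add]
    congr 1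
    ring
  rw [e2]
  refine le_trans (measure_mono ?_) h2
  intro ω hω
  simp only [Set.mem_ofPred_eq, fld] at hω ⊢
  have e3 : ((S.n : ℤ) : ℝ) = -k := by rw [hS]; push_cast; rfl
  rw [e3] at hω
  linarith

/-- the bad event for all the large squares together -/
theorem anc_tail_all (hh : IsGFF P h) {Q : ℝ} (hQ : 0 < Q) {i j : ℤ} (hi : Quad i) (hj : Quad j)
    (C : ℝ) (N : ℕ) : P {ω | ∃ k : ℕ, N ≤ k ∧ fld Q h ω ⟨-(k : ℤ), i, j⟩ ≤ -C} ≤
      ENNReal.ofReal (exp (Q ^ 2 * log 2 - Q * C) * exp (-(Q ^ 2 * log 2 / 2)) ^ N /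
        (1 - exp (-(Q ^ 2 * log 2 / 2)))) := by
  set r := exp (-(Q ^ 2 * log 2 / 2)) with hr
  have hr0 : 0 < r := exp_pos _
  have hr1 : r < 1 := by
    rw [hr, exp_lt_one_iff]
    have : 0 < Q ^ 2 * log 2 / 2 := by have := log_two_pos; positivity
    linarith
  set c := exp (Q ^ 2 * log 2 - Q * C) with hc
  have hc0 : 0 < c := exp_pos _
  have h1 : {ω | ∃ k : ℕ, N ≤ k ∧ fld Q h ω ⟨-(k : ℤ), i, j⟩ ≤ -C} ⊆
      ⋃ l : ℕ, {ω | fld Q h ω ⟨-((N + l : ℕ) : ℤ), i, j⟩ ≤ -C} := by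
    rintro ω ⟨k, hk, hω⟩
    obtain ⟨l, rfl⟩ := Nat.exists_eq_add_of_le hk
    exact Set.mem_iUnion.2 ⟨l, hω⟩
  refine (measure_mono h1).trans ((measure_iUnion_le _).trans ?_)
  have h2 : ∀ l : ℕ, P {ω | fld Q h ω ⟨-((N + l : ℕ) : ℤ), i, j⟩ ≤ -C} ≤
      ENNReal.ofReal (c * r ^ N * r ^ l) := by
    intro l
    have := anc_tail hh hQ hi hj (N + l) C
    rwa [pow_add, ← mul_assoc] at this
  refine (ENNReal.tsum_le_tsum h2).trans ?_
  have hs : Summable fun l : ℕ => c * r ^ N * r ^ l :=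
    (summable_geometric_of_lt_one hr0.le hr1).mul_left _
  rw [← ENNReal.ofReal_tsum_of_nonneg (fun l => by positivity) hs]
  apply ENNReal.ofReal_le_ofReal
  rw [tsum_mul_left, tsum_geometric_of_lt_one hr0.le hr1, div_eq_mul_inv]

end

end Pool.Agent.Y980
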