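import Mathlib

/-!
# Centered Gaussian processes with the same covariances have the same law
-/

set_option autoImplicit false

namespace Pool.Agent.Y980

open MeasureTheory ProbabilityTheory

theorem law_finset {T Ω Ω' : Type*} [MeasurableSpace Ω] [MeasurableSpace Ω'] {P : Measure Ω}
    {P' : Measure Ω'} {X : T → Ω → ℝ} {Y : T → Ω' → ℝ} (hX : IsGaussianProcess X P)
    (hY : IsGaussianProcess Y P') (hX0 : ∀ t, ∫ ω, X t ω ∂P = 0) (hY0 : ∀ t, ∫ ω, Y t ω ∂P' = 0)
    (hc : ∀ s t, cov[X s, X t; P] = cov[Y s, Y t; P']) (I : Finset T) :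
    P.map (fun ω (i : I) => X i ω) = P'.map (fun ω (i : I) => Y i ω) := by
  have mX : AEMeasurable (fun ω (i : I) => X i ω) P := aemeasurable_pi_lambda _ fun _ ↦ hX.aemeasurable _
  have mY : AEMeasurable (fun ω (i : I) => Y i ω) P' := aemeasurable_pi_lambda _ fun _ ↦ hY.aemeasurable _
  apply (MeasurableEquiv.toLp 2 (_ → ℝ)).map_measurableEquiv_injective
  rw [MeasurableEquiv.coe_toLp, ← PiLp.coe_symm_continuousLinearEquiv 2 ℝ]
  have := (hX.hasGaussianLaw I).isGaussian_map
  have := (hY.hasGaussianLaw I).isGaussian_map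
  have i1 : IsGaussian (P.map (fun ω (i : I) => X i ω)) := (hX.hasGaussianLaw I).isGaussian_map
  have i2 : IsGaussian (P'.map (fun ω (i : I) => Y i ω)) := (hY.hasGaussianLaw I).isGaussian_map
  apply IsGaussian.ext
  · rw [integral_map, integral_map, integral_map, integral_map]
    · simp only [id_eq]
      rw [ContinuousLinearEquiv.integral_comp_comm,
        ContinuousLinearEquiv.integral_comp_comm]
      congr 1
      ext i
      rw [eval_integral, eval_integral]
      · rw [hX0, hY0]
      · exact fun _ ↦ (hY.hasGaussianLaw_eval _).integrable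
      · exact fun _ ↦ (hX.hasGaussianLaw_eval _).integrable
    any_goals fun_prop
    · exact mY
    · exact mX
  · rw [← ContinuousLinearMap.toBilinForm_inj]
    refine LinearMap.BilinForm.ext_of_isSymm isPosSemidef_covarianceBilin.isSymm
      isPosSemidef_covarianceBilin.isSymm fun x ↦ ?_
    simp only [ContinuousLinearMap.toBilinForm_apply]
    rw [PiLp.coe_symm_continuousLinearEquiv, covarianceBilin_apply_pi, covarianceBilin_apply_pi]
    · congrm ∑ i, ∑ j, _ * ?_
      rw [covariance_map, covariance_map]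
      · exact hc _ _
      any_goals exact Measurable.aestronglyMeasurable (by fun_prop)
      · exact mY
      · exact mX
    · exact fun i ↦ (i2.hasGaussianLaw_id.eval i).memLp_two
    · exact fun i ↦ (i1.hasGaussianLaw_id.eval i).memLp_two

theorem law_eq {T Ω Ω' : Type*} [MeasurableSpace Ω] [MeasurableSpace Ω'] {P : Measure Ω}
    {P' : Measure Ω'} {X : T → Ω → ℝ} {Y : T → Ω' → ℝ} (hX : IsGaussianProcess X P)
    (hY : IsGaussianProcess Y P') (mX : ∀ t, Measurable (X t)) (mY : ∀ t, Measurable (Y t))
    (hX0 : ∀ t, ∫ ω, X t ω ∂P = 0) (hY0 : ∀ t, ∫ ω, Y t ω ∂P' = 0)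
    (hc : ∀ s t, cov[X s, X t; P] = cov[Y s, Y t; P']) :
    P.map (fun ω t => X t ω) = P'.map (fun ω t => Y t ω) := by
  have h1 := hX.isProbabilityMeasure
  have h2 := hY.isProbabilityMeasure
  have m1 : Measurable (fun ω t => X t ω) := measurable_pi_lambda _ mX
  have m2 : Measurable (fun ω t => Y t ω) := measurable_pi_lambda _ mY
  have h3 : IsProbabilityMeasure (P'.map (fun ω t => Y t ω)) :=
    Measure.isProbabilityMeasure_map m2.aemeasurable
  have h4 : ∀ I : Finset T, IsFiniteMeasure ((P'.map (fun ω t => Y t ω)).map I.restrict) :=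
    fun I => Measure.isFiniteMeasure_map _ _
  refine IsProjectiveLimit.unique (P := fun I => (P'.map (fun ω t => Y t ω)).map I.restrict)
    (fun I => ?_) (fun I => rfl)
  have mr : Measurable (I.restrict (π := fun _ : T => ℝ)) := Finset.measurable_restrict I
  rw [Measure.map_map mr m1]
  refine Eq.trans ?_ (Measure.map_map mr m2).symm
  exact law_finset hX hY hX0 hY0 hc I

end Pool.Agent.Y980
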