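import Pool.Agent.Y980.Tail

/-!
# Every quadrant has a tile at the origin
-/

set_option autoImplicit false

namespace Pool.Agent.Y980

open MeasureTheory ProbabilityTheory Real DSquare Filter Topology

theorem null_of_tendsto {Ω : Type*} [MeasurableSpace Ω] {P : Measure Ω} {E : ℕ → Set Ω} {b : ℕ → ℝ}
    (hb : Tendsto b atTop (𝓝 0)) (h : ∀ n, P (E n) ≤ ENNReal.ofReal (b n)) :
    P {ω | ∀ n, ω ∈ E n} = 0 := by
  have h1 : Tendsto (fun n => ENNReal.ofReal (b n)) atTop (𝓝 0) := by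
    rw [← ENNReal.ofReal_zero]
    exact (ENNReal.continuous_ofReal.tendsto 0).comp hb
  have h2 : ∀ n, P {ω | ∀ n, ω ∈ E n} ≤ ENNReal.ofReal (b n) := fun n =>
    (measure_mono (show {ω | ∀ n, ω ∈ E n} ⊆ E n from fun _ hω => hω n)).trans (h n)
  exact le_antisymm (ge_of_tendsto' h1 h2) zero_le

section

variable {Ω : Type*} [MeasurableSpace Ω] {P : Measure Ω} {h : ℝ → ℂ → Ω → ℝ}

theorem geom_lt {Q : ℝ} (hQ : 0 < Q) : exp (-(Q ^ 2 * log 2 / 2)) < 1 := by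
  rw [exp_lt_one_iff]
  have : 0 < Q ^ 2 * log 2 / 2 := by have := log_two_pos; positivity
  linarith

theorem quad_large (hh : IsGFF P h) {Q : ℝ} (hQ : 0 < Q) {i j : ℤ} (hi : Quad i) (hj : Quad j) :
    ∀ᵐ ω ∂P, ∀ M : ℕ, ∃ N : ℕ, ∀ k, N ≤ k → (M : ℝ) < fld Q h ω ⟨-(k : ℤ), i, j⟩ := by
  rw [ae_all_iff]
  intro M
  have h1 : P {ω | ∀ N : ℕ, ω ∈ {ω | ∃ k : ℕ, N ≤ k ∧ fld Q h ω ⟨-(k : ℤ), i, j⟩ ≤ -(-(M : ℝ))}} = 0 := by
    refine null_of_tendsto (b := fun N => exp (Q ^ 2 * log 2 - Q * (-(M : ℝ))) *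
      exp (-(Q ^ 2 * log 2 / 2)) ^ N / (1 - exp (-(Q ^ 2 * log 2 / 2)))) ?_
      (fun N => anc_tail_all hh hQ hi hj _ N)
    have := ((tendsto_pow_atTop_nhds_zero_of_lt_one (exp_pos _).le (geom_lt hQ)).const_mul
      (exp (Q ^ 2 * log 2 - Q * (-(M : ℝ))))).div_const (1 - exp (-(Q ^ 2 * log 2 / 2)))
    simpa using this
  rw [ae_iff]
  refine measure_mono_null ?_ h1
  intro ω hω
  simp only [Set.mem_ofPred_eq, not_exists, not_forall, not_lt, neg_neg, exists_prop] at hω ⊢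
  exact hω

theorem quad_small (hh : IsGFF P h) {Q : ℝ} (hQ : 0 < Q) {i j : ℤ} (hi : Quad i) (hj : Quad j) :
    ∀ᵐ ω ∂P, ∀ M : ℕ, ∃ n : ℕ, fld Q h ω ⟨n, i, j⟩ < -(M : ℝ) := by
  rw [ae_all_iff]
  intro M
  have h1 : P {ω | ∀ n : ℕ, ω ∈ {ω | -(M : ℝ) ≤ fld Q h ω ⟨n, i, j⟩}} = 0 := by
    refine null_of_tendsto (b := fun n => exp (Q ^ 2 * log 2 + Q * M) *
      exp (-(Q ^ 2 * log 2 / 2)) ^ n) ?_ (fun n => ?_)
    · have := ((tendsto_pow_atTop_nhds_zero_of_lt_one (exp_pos _).le (geom_lt hQ)).const_mul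
        (exp (Q ^ 2 * log 2 + Q * M)))
      simpa using this
    · set S : DSquare := ⟨n, i, j⟩ with hS
      have h1 := var_quad hh (S := S) hi hj
      have h2 := gauss_tail ((isGaussianProcess_sqv hh).hasGaussianLaw_eval S) (mean_sqv hh S) h1
        hQ.le (Q * n * log 2 - M)
      have e : (|(S.n : ℝ)| + 2) * log 2 = (n + 2) * log 2 := by
        rw [hS]
        push_cast
        rw [abs_of_nonneg (Nat.cast_nonneg n)]
      rw [e] at h2
      have e2 : exp (Q ^ 2 * log 2 + Q * M) * exp (-(Q ^ 2 * log 2 / 2)) ^ n =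
          exp (Q ^ 2 * ((n + 2) * log 2) / 2 - Q * (Q * n * log 2 - M)) := by
        rw [← exp_nat_mul, ← exp_add]
        congr 1
        ring
      rw [e2]
      refine le_trans (measure_mono ?_) h2
      intro ω hω
      simp only [Set.mem_ofPred_eq, fld] at hω ⊢
      have e3 : ((S.n : ℤ) : ℝ) = n := by rw [hS]; push_cast; rfl
      rw [e3] at hω
      linarith
  rw [ae_iff]
  refine measure_mono_null ?_ h1
  intro ω hω
  simp only [Set.mem_ofPred_eq, not_exists, not_lt] at hω ⊢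
  exact hω

/-- In each quadrant there is a tile at the origin. -/
theorem quad_tile (hh : IsGFF P h) {Q : ℝ} (hQ : 0 < Q) {i j : ℤ} (hi : Quad i) (hj : Quad j) :
    ∀ᵐ ω ∂P, ∀ u : ℝ, ∃ n : ℤ, (⟨n, i, j⟩ : DSquare) ∈ tiles (fld Q h ω) u := by
  filter_upwards [quad_large hh hQ hi hj, quad_small hh hQ hi hj] with ω h1 h2 u
  obtain ⟨M, hM⟩ := exists_nat_gt |u|
  obtain ⟨N, hN⟩ := h1 M
  obtain ⟨n, hn⟩ := h2 M
  have h3 : ¬ Alive (fld Q h ω) u ⟨n, i, j⟩ := by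
    intro ha
    have := ha 0
    rw [anc_zero] at this
    have := neg_abs_le u
    linarith
  obtain ⟨k, _, hk⟩ := exists_tile h3 (N + n) (fun k hk => by
    rw [anc_quad hi hj]
    have h4 := hN (k - n) (by omega)
    have e : -((k - n : ℕ) : ℤ) = (n : ℤ) - k := by omega
    rw [e] at h4
    have := le_abs_self u
    linarith)
  rw [anc_quad hi hj] at hk
  exact ⟨_, hk⟩

end

end Pool.Agent.Y980
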