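import Pool.Agent.Y980.Tail2
import Pool.Agent.Y980.QuadTile

/-!
# The small squares along the boundary of a dyadic square
-/

set_option autoImplicit false

namespace Pool.Agent.Y980

open MeasureTheory ProbabilityTheory Real DSquare Filter Topology

/-- for some `N`, the squares inside `S` of relative level `N` which touch the boundary of `S` are
all below `u` -/
def BdLow (x : DSquare → ℝ) (u : ℝ) (S : DSquare) : Prop :=
  ∃ N : ℕ, ∀ T : DSquare, anc N T = S → Bd N T.i T.j → x T ≤ u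

/-- enumeration -/
def bdEnum (S : DSquare) (N : ℕ) (t : Fin 4) (c : Fin (2 ^ N)) : DSquare :=
  match t with
  | 0 => ⟨S.n + N, S.i * 2 ^ N, S.j * 2 ^ N + c⟩
  | 1 => ⟨S.n + N, S.i * 2 ^ N + (2 ^ N - 1), S.j * 2 ^ N + c⟩
  | 2 => ⟨S.n + N, S.i * 2 ^ N + c, S.j * 2 ^ N⟩
  | 3 => ⟨S.n + N, S.i * 2 ^ N + c, S.j * 2 ^ N + (2 ^ N - 1)⟩

theorem exists_off {i a : ℤ} {N : ℕ} (h : a / 2 ^ N = i) : ∃ c : Fin (2 ^ N), a = i * 2 ^ N + c := by
  have hN : (0 : ℤ) < 2 ^ N := by positivity
  have h1 := Int.ediv_mul_le a hN.ne'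
  have h2 := Int.lt_ediv_add_one_mul_self a hN
  rw [h] at h1 h2
  refine ⟨⟨(a - i * 2 ^ N).toNat, ?_⟩, ?_⟩
  · zify
    rw [Int.toNat_of_nonneg (by linarith)]
    linarith
  · simp only
    rw [Int.toNat_of_nonneg (by linarith)]
    ring

theorem eq_of_dvd0 {i a : ℤ} {N : ℕ} (h : a / 2 ^ N = i) (hd : (2 : ℤ) ^ N ∣ a) : a = i * 2 ^ N := by
  rw [← h, Int.ediv_mul_cancel hd]

theorem eq_of_dvd1 {i a : ℤ} {N : ℕ} (h : a / 2 ^ N = i) (hd : (2 : ℤ) ^ N ∣ a + 1) :
    a = i * 2 ^ N + (2 ^ N - 1) := by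
  have hN : (0 : ℤ) < 2 ^ N := by positivity
  have h1 := Int.ediv_mul_le a hN.ne'
  have h2 := Int.lt_ediv_add_one_mul_self a hN
  rw [h] at h1 h2
  obtain ⟨c, hc⟩ := hd
  have h3 : i < c := by
    have : i * 2 ^ N < c * 2 ^ N := by rw [mul_comm c, ← hc]; linarith
    exact lt_of_mul_lt_mul_right this hN.le
  have h4 : c ≤ i + 1 := by
    have : c * 2 ^ N ≤ (i + 1) * 2 ^ N := by rw [mul_comm c, ← hc]; linarith
    exact le_of_mul_le_mul_right this hN
  have h5 : c = i + 1 := by omega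
  rw [h5] at hc
  linarith

theorem exists_bdEnum {S T : DSquare} {N : ℕ} (hT : anc N T = S) (hbd : Bd N T.i T.j) :
    ∃ t c, bdEnum S N t c = T := by
  have hn : T.n - N = S.n := congrArg DSquare.n hT
  have hi : T.i / 2 ^ N = S.i := congrArg DSquare.i hT
  have hj : T.j / 2 ^ N = S.j := congrArg DSquare.j hT
  obtain ⟨c, hc⟩ := exists_off hi
  obtain ⟨d, hd⟩ := exists_off hj
  have hn' : S.n + N = T.n := by omega
  rcases hbd with h | h | h | h
  · exact ⟨0, d, by ext <;> simp only [bdEnum]; exacts [hn', (eq_of_dvd0 hi h).symm, hd.symm]⟩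
  · exact ⟨1, d, by ext <;> simp only [bdEnum]; exacts [hn', (eq_of_dvd1 hi h).symm, hd.symm]⟩
  · exact ⟨2, c, by ext <;> simp only [bdEnum]; exacts [hn', hc.symm, (eq_of_dvd0 hj h).symm]⟩
  · exact ⟨3, c, by ext <;> simp only [bdEnum]; exacts [hn', hc.symm, (eq_of_dvd1 hj h).symm]⟩

theorem null_of_tendsto' {Ω : Type*} [MeasurableSpace Ω] {P : Measure Ω} {E : ℕ → Set Ω} {b : ℕ → ℝ}
    (hb : Tendsto b atTop (𝓝 0)) (h : ∀ᶠ n in atTop, P (E n) ≤ ENNReal.ofReal (b n)) :
    P {ω | ∀ n, ω ∈ E n} = 0 := by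
  have h1 : Tendsto (fun n => ENNReal.ofReal (b n)) atTop (𝓝 0) := by
    rw [← ENNReal.ofReal_zero]
    exact (ENNReal.continuous_ofReal.tendsto 0).comp hb
  have h2 : ∀ᶠ n in atTop, P {ω | ∀ n, ω ∈ E n} ≤ ENNReal.ofReal (b n) := h.mono fun n hn =>
    (measure_mono (show {ω | ∀ n, ω ∈ E n} ⊆ E n from fun _ hω => hω n)).trans hn
  exact le_antisymm (ge_of_tendsto h1 h2) zero_le

section

variable {Ω : Type*} [MeasurableSpace Ω] {P : Measure Ω} {h : ℝ → ℂ → Ω → ℝ}

theorem norm_le_in {S : DSquare} {x : ℂ} (hx : x ∈ S.toSet) :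
    ‖x‖ ≤ exp (log (1 + ‖S.center‖ + S.side)) := by
  have hs := S.side_pos
  rw [exp_log (by positivity)]
  have h1 := sub_center hx
  have h2 := norm_add_le (x - S.center) S.center
  rw [sub_add_cancel] at h2
  linarith

theorem var_in (hh : IsGFF P h) {S T : DSquare} {N : ℕ} (hT : anc N T = S) :
    (S.n + N + 1) * log 2 ≤ Var[sqv h T; P] ∧
    Var[sqv h T; P] ≤ N * log 2 + (2 * log (1 + ‖S.center‖ + S.side) + (|(S.n : ℝ)| + 1) * log 2) := by
  have hp := hh.gaussian.isProbabilityMeasure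
  rw [← covariance_self (measurable_sqv hh T).aemeasurable, cov_sq hh, sA_self]
  have hl := log_two_pos
  have hs := S.side_pos
  have h0 := sN_nonneg T
  have h1 : sN T ≤ log (1 + ‖S.center‖ + S.side) := by
    apply sN_le
    · apply log_nonneg
      have := norm_nonneg S.center
      linarith
    · intro x hx
      apply norm_le_in
      rw [← hT]
      exact subset_anc N T hx
  have hn : (T.n : ℝ) = S.n + N := by
    have : T.n - N = S.n := congrArg DSquare.n hT
    have h2 : T.n = S.n + N := by omega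
    rw [h2]
    push_cast
    rfl
  rw [hn]
  have h3 := le_abs_self (S.n : ℝ)
  constructor
  · linarith
  · nlinarith

theorem in_tail (hh : IsGFF P h) {Q : ℝ} (hQ : 0 < Q) (hQ2 : 2 ≤ Q ^ 2) (S : DSquare) (M : ℕ) :
    ∃ C b : ℝ, 0 < C ∧ 0 < b ∧ ∀ᶠ N : ℕ in atTop, ∀ T, anc N T = S →
      P {ω | -(M : ℝ) < fld Q h ω T} ≤ ENNReal.ofReal ((2 ^ N)⁻¹ * (C / √(N * log 2 + b))) := by
  have hl := log_two_pos
  have hs := S.side_pos
  set c : ℝ := 2 * log (1 + ‖S.center‖ + S.side) + (|(S.n : ℝ)| + 1) * log 2 with hc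
  have hc0 : 0 < c := by
    have h1 : 0 ≤ log (1 + ‖S.center‖ + S.side) := by
      apply log_nonneg
      have := norm_nonneg S.center
      linarith
    have h2 := abs_nonneg (S.n : ℝ)
    have h3 : 0 < (|(S.n : ℝ)| + 1) * log 2 := by positivity
    linarith
  set u : ℝ := -(M : ℝ) + Q * S.n * log 2 with hu
  refine ⟨exp (c + Q * |u|) * (2 / Q), c, by positivity, hc0, ?_⟩
  have hlarge : ∀ᶠ N : ℕ in atTop, Q * c / 2 - u < Q / 2 * (N * log 2) := by
    have : Tendsto (fun N : ℕ => Q / 2 * (N * log 2)) atTop atTop :=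
      (tendsto_natCast_atTop_atTop.atTop_mul_const hl).const_mul_atTop (by positivity)
    exact this.eventually_gt_atTop _
  have hlarge2 : ∀ᶠ N : ℕ in atTop, |(S.n : ℝ)| < N :=
    tendsto_natCast_atTop_atTop.eventually_gt_atTop _
  filter_upwards [hlarge, hlarge2] with N hN1 hN2 T hT
  set y : ℝ := N * log 2 with hy
  have hy0 : 0 ≤ y := by positivity
  obtain ⟨h1, h2⟩ := var_in hh hT
  rw [← hc, ← hy] at h2
  have hV : 0 < Var[sqv h T; P] := by
    refine lt_of_lt_of_le ?_ h1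
    have := neg_abs_le (S.n : ℝ)
    apply mul_pos _ hl
    linarith
  have hx : 0 < Q * y + u := by
    have h4 : 0 < Q * c := by positivity
    have h5 : 0 ≤ Q * y := by positivity
    linarith
  have h3 := gauss_tail2 ((isGaussianProcess_sqv hh).hasGaussianLaw_eval T) (measurable_sqv hh T)
    (mean_sqv hh T) hV h2 hx
  refine (le_trans (measure_mono ?_) h3).trans (ENNReal.ofReal_le_ofReal ?_)
  · intro ω hω
    simp only [Set.mem_ofPred_eq, fld] at hω ⊢
    have hn : (T.n : ℝ) = S.n + N := by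
      have : T.n - N = S.n := congrArg DSquare.n hT
      have h2 : T.n = S.n + N := by omega
      rw [h2]
      push_cast
      rfl
    rw [hn] at hω
    rw [hu, hy]
    linarith
  · have hv0 : 0 < √(y + c) := sqrt_pos.2 (by linarith)
    have h4 : √(y + c) / (Q * y + u) ≤ (2 / Q) / √(y + c) := by
      rw [div_le_div_iff₀ hx hv0, mul_self_sqrt (by linarith), div_mul_eq_mul_div, le_div_iff₀ hQ]
      nlinarith
    have h5 : exp (-((Q * y + u) ^ 2 / (2 * (y + c)))) ≤ (2 ^ N)⁻¹ * exp (c + Q * |u|) := by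
      have e1 : ((2 : ℝ) ^ N)⁻¹ = exp (-y) := by
        rw [exp_neg, hy, exp_nat_mul, exp_log (by norm_num)]
      rw [e1, ← exp_add]
      apply exp_le_exp.2
      have h6 : y - c - Q * |u| ≤ (Q * y + u) ^ 2 / (2 * (y + c)) := by
        rw [le_div_iff₀ (by linarith)]
        have h7 : -|u| ≤ u := neg_abs_le u
        have h8 : 0 ≤ |u| := abs_nonneg u
        have h9 : 2 * Q * y * (-|u|) ≤ 2 * Q * y * u :=
          mul_le_mul_of_nonneg_left h7 (by positivity)
        have h10 : 2 * y ^ 2 ≤ Q ^ 2 * y ^ 2 := mul_le_mul_of_nonneg_right hQ2 (by positivity)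
        have h11 : 0 ≤ Q * |u| * c := by positivity
        nlinarith [sq_nonneg u, sq_nonneg c]
      linarith
    calc √(y + c) / (Q * y + u) * exp (-((Q * y + u) ^ 2 / (2 * (y + c))))
        ≤ ((2 / Q) / √(y + c)) * ((2 ^ N)⁻¹ * exp (c + Q * |u|)) :=
          mul_le_mul h4 h5 (exp_pos _).le (by positivity)
      _ = _ := by ring

theorem bdLow_ae (hh : IsGFF P h) {Q : ℝ} (hQ : 0 < Q) (hQ2 : 2 ≤ Q ^ 2) :
    ∀ᵐ ω ∂P, ∀ (S : DSquare) (M : ℕ), BdLow (fld Q h ω) (-(M : ℝ)) S := by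
  have hcount : Countable DSquare := by
    have : Function.Injective (fun S : DSquare => (S.n, S.i, S.j)) := by
      intro S T h
      simp only [Prod.mk.injEq] at h
      ext
      · exact h.1
      · exact h.2.1
      · exact h.2.2
    exact this.countable
  rw [ae_all_iff]
  intro S
  rw [ae_all_iff]
  intro M
  obtain ⟨C, b, hC, hb, hev⟩ := in_tail hh hQ hQ2 S M
  have hl := log_two_pos
  have hlim : Tendsto (fun N : ℕ => 4 * (C / √(N * log 2 + b))) atTop (𝓝 0) := by
    have h1 : Tendsto (fun N : ℕ => √((N : ℝ) * log 2 + b)) atTop atTop := by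
      apply tendsto_sqrt_atTop.comp
      exact tendsto_atTop_add_const_right _ _ (tendsto_natCast_atTop_atTop.atTop_mul_const hl)
    have h2 := (h1.const_div_atTop C).const_mul 4
    simpa using h2
  have h1 := null_of_tendsto' (P := P) (E := fun N : ℕ =>
    {ω | ¬ ∀ T : DSquare, anc N T = S → Bd N T.i T.j → fld Q h ω T ≤ -(M : ℝ)}) hlim ?_
  · rw [ae_iff]
    refine measure_mono_null ?_ h1
    intro ω hω n
    simp only [BdLow, Set.mem_ofPred_eq, not_exists] at hω ⊢
    exact hω n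
  · filter_upwards [hev] with N hN
    set c : ℝ := (2 ^ N)⁻¹ * (C / √(N * log 2 + b)) with hc
    set E : Fin 4 → Fin (2 ^ N) → Set Ω := fun t a =>
      {ω | anc N (bdEnum S N t a) = S ∧ -(M : ℝ) < fld Q h ω (bdEnum S N t a)} with hE
    have hEb : ∀ t a, P (E t a) ≤ ENNReal.ofReal c := by
      intro t a
      by_cases hin : anc N (bdEnum S N t a) = S
      · refine (measure_mono ?_).trans (hN _ hin)
        intro ω hω
        exact hω.2
      · have : E t a = ∅ := by
          ext ω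
          simp [hE, hin]
        rw [this, measure_empty]
        exact zero_le
    have h2 : {ω | ¬ ∀ T : DSquare, anc N T = S → Bd N T.i T.j → fld Q h ω T ≤ -(M : ℝ)} ⊆
        ⋃ t, ⋃ a, E t a := by
      intro ω hω
      simp only [Set.mem_ofPred_eq, not_forall, not_le] at hω
      obtain ⟨T, hT, hbd, hlt⟩ := hω
      obtain ⟨t, a, he⟩ := exists_bdEnum hT hbd
      simp only [Set.mem_iUnion]
      refine ⟨t, a, ?_⟩
      simp only [hE, Set.mem_ofPred_eq, he]
      exact ⟨hT, hlt⟩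
    refine (measure_mono h2).trans ?_
    calc P (⋃ t, ⋃ a, E t a) ≤ ∑ t, ∑ a, P (E t a) := by
          refine (measure_iUnion_fintype_le _ _).trans (Finset.sum_le_sum fun t _ => ?_)
          exact measure_iUnion_fintype_le _ _
      _ ≤ ∑ t : Fin 4, ∑ a : Fin (2 ^ N), ENNReal.ofReal c :=
          Finset.sum_le_sum fun t _ => Finset.sum_le_sum fun a _ => hEb t a
      _ = ENNReal.ofReal (4 * (C / √(N * log 2 + b))) := by
          simp only [Finset.sum_const, Finset.card_univ, Fintype.card_fin, nsmul_eq_mul]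
          have e : 4 * (C / √(N * log 2 + b)) = (4 : ℕ) * (((2 ^ N : ℕ) : ℝ) * c) := by
            rw [hc]
            push_cast
            field_simp
          clear_value c
          rw [e, ENNReal.ofReal_mul (Nat.cast_nonneg _), ENNReal.ofReal_mul (Nat.cast_nonneg _),
            ENNReal.ofReal_natCast, ENNReal.ofReal_natCast]

end

end Pool.Agent.Y980
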