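import Pool.Agent.Y980.QuadTile

/-!
# Lowering the value at the root square independently of the other squares
-/

set_option autoImplicit false

namespace Pool.Agent.Y980

open MeasureTheory ProbabilityTheory Real DSquare Filter Topology

/-- the unit square -/
def S0 : DSquare := ⟨0, 0, 0⟩

/-- the circle of the square `S` avoids the disc of radius `2/5` around the origin -/
def Far (S : DSquare) : Prop := ∀ x ∈ Metric.sphere S.center |S.side / 2|, 2 / 5 ≤ ‖x‖

theorem far_inB {n : ℕ} {i j : ℤ} (h : InB n i j) : Far ⟨n, i, j⟩ := by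
  intro x hx
  have h1 := inB_subset h (sphere_coord hx)
  have h2 := Complex.abs_re_le_norm x
  have h3 := le_abs_self x.re
  linarith [h1.1]

theorem far_anc {k : ℕ} (hk : 0 < k) : Far (anc k S0) := by
  intro x hx
  rw [mem_sphere_iff_norm, abs_of_pos (half_pos' _)] at hx
  set s := (anc k S0).side with hs
  have hs2 : 2 ≤ s := by
    rw [hs, side_anc]
    have h1 : S0.side = 1 := by simp [side, S0]
    rw [h1, mul_one]
    calc (2 : ℝ) = 2 ^ 1 := by norm_num
      _ ≤ 2 ^ k := pow_le_pow_right₀ (by norm_num) hk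
  have hc : (anc k S0).center = ⟨1 / 2 * s, 1 / 2 * s⟩ := by
    have : anc k S0 = ⟨0 - k, 0, 0⟩ := anc_quad (Or.inl rfl) (Or.inl rfl) k
    rw [hs, this]
    simp only [DSquare.center]
    push_cast
    norm_num
  rw [hc] at hx
  by_contra hcon
  push Not at hcon
  have h1 := Complex.abs_re_le_norm x
  have h2 := Complex.abs_im_le_norm x
  have h3 := abs_le.1 (h1.trans hcon.le)
  have h4 := abs_le.1 (h2.trans hcon.le)
  have h5 : (x.re) ^ 2 + x.im ^ 2 < (2 / 5) ^ 2 := by
    have := Complex.sq_norm x
    rw [Complex.normSq_apply] at this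
    have h0 := norm_nonneg x
    nlinarith
  have h6 : (x.re - 1 / 2 * s) ^ 2 + (x.im - 1 / 2 * s) ^ 2 = (s / 2) ^ 2 := by
    have := Complex.sq_norm (x - ⟨1 / 2 * s, 1 / 2 * s⟩)
    rw [Complex.normSq_apply, hx] at this
    simp only [Complex.sub_re, Complex.sub_im] at this
    linarith
  have h7 : x.re + x.im < 57 / 100 := by nlinarith [sq_nonneg (x.re - x.im)]
  nlinarith [sq_nonneg (x.re + x.im - s), sq_nonneg (x.re - x.im)]

section

variable {Ω : Type*} [MeasurableSpace Ω] {P : Measure Ω} {h : ℝ → ℂ → Ω → ℝ}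

theorem cN_zero {r : ℝ} (hr0 : 0 < r) (hr : r ≤ 1) : cN r 0 = 0 := by
  unfold cN
  have : Set.EqOn (fun x : ℂ => log (max ‖x‖ 1)) (fun _ => 0) (Metric.sphere 0 |r|) := by
    intro x hx
    rw [mem_sphere_iff_norm, sub_zero, abs_of_pos hr0] at hx
    simp only
    rw [hx, max_eq_right hr, log_one]
  rw [circleAverage_congr_sphere this, circleAverage_const]

theorem cov_zero (hh : IsGFF P h) (S : DSquare) {s : ℝ} (hs : 0 < s) (hs1 : s ≤ 1) :
    cov[sqv h S, h s 0; P] = sN S - cA (S.side / 2) S.center s 0 := by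
  unfold sqv
  rw [hh.cov _ _ _ _ (half_pos' S) hs, double_avg hs, cN_zero hs hs1, add_zero]
  rfl

theorem cA_far {S : DSquare} (hS : Far S) {s : ℝ} (hs : s ≤ 2 / 5) :
    cA (S.side / 2) S.center s 0 = circleAverage (fun x => log ‖x‖) S.center (S.side / 2) := by
  unfold cA
  apply circleAverage_congr_sphere
  intro x hx
  simp only [sub_zero]
  rw [max_eq_right (hs.trans (hS x hx))]

theorem cA_S0 : cA (S0.side / 2) S0.center (1 / 5) 0 < cA (S0.side / 2) S0.center (2 / 5) 0 := by
  have h1 : S0.side = 1 := by simp [side, S0]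
  have h2 : S0.center = ⟨1 / 2, 1 / 2⟩ := by
    simp [DSquare.center, h1]
    simp [S0]
  set f : ℂ → ℝ := fun x => log (max (2 / 5) ‖x - 0‖) - log (max (1 / 5) ‖x - 0‖) with hf
  have hc1 := continuous_logmax (show (0 : ℝ) < 2 / 5 by norm_num) 0
  have hc2 := continuous_logmax (show (0 : ℝ) < 1 / 5 by norm_num) 0
  have hfc : Continuous f := hc1.sub hc2
  have h3 : 0 < circleAverage f S0.center (S0.side / 2) := by
    refine avg_pos hfc (fun x => ?_) (5 * π / 4) ⟨by positivity, by have := pi_pos; linarith⟩ ?_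
    · simp only [hf, sub_nonneg]
      apply log_le_log (lt_max_of_lt_left (by norm_num))
      exact max_le_max_right _ (by norm_num)
    · simp only [hf, sub_pos]
      apply log_lt_log (lt_max_of_lt_left (by norm_num))
      have h4 : ‖circleMap S0.center (S0.side / 2) (5 * π / 4) - 0‖ < 2 / 5 := by
        rw [sub_zero]
        have e : circleMap S0.center (S0.side / 2) (5 * π / 4) =
            ⟨1 / 2 - √2 / 4, 1 / 2 - √2 / 4⟩ := by
          have e1 : (5 * π / 4 : ℝ) = π / 4 + π := by ring
          rw [circleMap, h1, h2, e1]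
          push_cast
          rw [add_mul, Complex.exp_add, Complex.exp_pi_mul_I]
          have e2 : Complex.exp (π / 4 * Complex.I) = ⟨√2 / 2, √2 / 2⟩ := by
            have : (π / 4 : ℂ) = ((π / 4 : ℝ) : ℂ) := by push_cast; rfl
            rw [this, Complex.exp_mul_I, ← Complex.ofReal_cos, ← Complex.ofReal_sin, cos_pi_div_four,
              sin_pi_div_four]
            apply Complex.ext <;> simp
          rw [e2]
          apply Complex.ext
          · simp; ring
          · simp; ring
        rw [e]
        have h5 : (1.41 : ℝ) < √2 := by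
          rw [lt_sqrt (by norm_num)]; norm_num
        have h6 : √2 < 1.42 := by
          rw [sqrt_lt' (by norm_num)]; norm_num
        refine lt_of_le_of_lt (norm_le_of_sq (b := 0.3) (by norm_num) ?_) (by norm_num)
        simp only
        have h7 : (1 / 2 - √2 / 4) ≤ 0.15 := by linarith
        have h8 : 0 ≤ 1 / 2 - √2 / 4 := by linarith
        nlinarith
      rw [max_lt_iff]
      constructor
      · exact lt_max_of_lt_left (by norm_num)
      · exact lt_max_of_lt_left h4
  have h4 : circleAverage f S0.center (S0.side / 2) = cA (S0.side / 2) S0.center (2 / 5) 0 -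
      cA (S0.side / 2) S0.center (1 / 5) 0 := by
    rw [hf, circleAverage_fun_sub (ci_of_cont hc1 _ _) (ci_of_cont hc2 _ _)]
    rfl
  linarith

theorem cov_rr (hh : IsGFF P h) {r s : ℝ} (hr : 0 < r) (hrs : r ≤ s) (hs1 : s ≤ 1) :
    cov[h r 0, h s 0; P] = -log s := by
  have hs : 0 < s := lt_of_lt_of_le hr hrs
  rw [hh.cov _ _ _ _ hr hs, double_avg hs, cN_zero hs hs1, cN_zero hr (hrs.trans hs1)]
  have : cA r 0 s 0 = log s := by
    unfold cA
    have : Set.EqOn (fun x : ℂ => log (max s ‖x - 0‖)) (fun _ => log s) (Metric.sphere 0 |r|) := by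
      intro x hx
      rw [mem_sphere_iff_norm, abs_of_pos hr] at hx
      simp only
      rw [hx, max_eq_left hrs]
    rw [circleAverage_congr_sphere this, circleAverage_const]
  rw [this]
  ring

end

end Pool.Agent.Y980
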