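import Pool.Agent.Y980.Tail2
import Pool.Agent.Y980.QuadTile
import Pool.Agent.Y980.Shift

/-!
# No square touching the boundary of a square of level `m` is alive
-/

set_option autoImplicit false

namespace Pool.Agent.Y980

open MeasureTheory ProbabilityTheory Real DSquare Filter Topology

section

variable {Ω : Type*} [MeasurableSpace Ω] {P : Measure Ω} {h : ℝ → ℂ → Ω → ℝ}

/-- `h_S - h_{S₀}` -/
noncomputable def dif (h : ℝ → ℂ → Ω → ℝ) (S : DSquare) (ω : Ω) : ℝ := sqv h S ω - sqv h S0 ω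

theorem dif_law (hh : IsGFF P h) (S : DSquare) : HasGaussianLaw (dif h S) P :=
  (isGaussianProcess_sqv hh).hasGaussianLaw_fun_sub (s := S) (t := S0)

theorem measurable_dif (hh : IsGFF P h) (S : DSquare) : Measurable (dif h S) :=
  (measurable_sqv hh S).sub (measurable_sqv hh S0)

theorem mean_dif (hh : IsGFF P h) (S : DSquare) : ∫ ω, dif h S ω ∂P = 0 := by
  have i1 : ∀ S, Integrable (sqv h S) P := fun S =>
    ((isGaussianProcess_sqv hh).hasGaussianLaw_eval S).integrable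
  unfold dif
  rw [integral_sub (i1 S) (i1 S0), mean_sqv hh, mean_sqv hh, sub_zero]

theorem var_dif (hh : IsGFF P h) (S : DSquare) :
    Var[dif h S; P] = -sA S S - sA S0 S0 + 2 * sA S S0 := by
  have hprob := hh.gaussian.isProbabilityMeasure
  have m : ∀ S, MemLp (sqv h S) 2 P := fun S =>
    ((isGaussianProcess_sqv hh).hasGaussianLaw_eval S).memLp_two
  have e : Var[dif h S; P] = cov[sqv h S, sqv h S; P] - 2 * cov[sqv h S, sqv h S0; P] +
      cov[sqv h S0, sqv h S0; P] := by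
    unfold dif
    rw [variance_fun_sub (m S) (m S0), covariance_self (measurable_sqv hh S).aemeasurable,
      covariance_self (measurable_sqv hh S0).aemeasurable]
  rw [e, cov_sq hh, cov_sq hh, cov_sq hh]
  ring

theorem var_dif_inB (hh : IsGFF P h) {N : ℕ} {i j : ℤ} (hin : InB N i j) :
    N * log 2 ≤ Var[dif h ⟨N, i, j⟩; P] ∧ Var[dif h ⟨N, i, j⟩; P] ≤ (N + 4) * log 2 := by
  have hl := log_two_pos
  rw [var_dif hh, sA_self, sA_self]
  have h1 : ((S0.n : ℤ) : ℝ) = 0 := by simp [S0]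
  have h2 : -((S0.n + 1) * log 2) ≤ sA ⟨N, i, j⟩ S0 := sA_ge _ _
  have h3 : sA ⟨N, i, j⟩ S0 ≤ log 2 := by
    apply sA_le
    · rw [h1]; linarith
    · intro x hx
      obtain ⟨x1, x2, x3, x4⟩ := inB_subset hin hx
      rw [exp_log (by norm_num)]
      have hc : S0.center = ⟨1 / 2, 1 / 2⟩ := by
        simp [DSquare.center, side, S0]
      rw [hc]
      apply norm_le_of_sq (by norm_num)
      simp only [Complex.sub_re, Complex.sub_im]
      nlinarith
  rw [h1] at h2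
  simp only [Int.cast_natCast]
  rw [h1]
  constructor <;> nlinarith

/-- probability that a fine square exceeds the threshold -/
theorem dif_tail (hh : IsGFF P h) {Q : ℝ} (hQ : 0 < Q) (hQ2 : 2 ≤ Q ^ 2) {N : ℕ} (hN : 0 < N)
    {i j : ℤ} (hin : InB N i j) :
    P {ω | Q * N * log 2 ≤ dif h ⟨N, i, j⟩ ω} ≤
      ENNReal.ofReal (√((N + 4) * log 2) / (Q * N * log 2) * (16 * (2 ^ N)⁻¹)) := by
  have hl := log_two_pos
  have hN0 : (0 : ℝ) < N := by exact_mod_cast hN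
  obtain ⟨h1, h2⟩ := var_dif_inB hh hin
  have hV : 0 < Var[dif h ⟨N, i, j⟩; P] := lt_of_lt_of_le (by positivity) h1
  have h3 := gauss_tail2 (dif_law hh ⟨N, i, j⟩) (measurable_dif hh _) (mean_dif hh _) hV h2
    (x := Q * N * log 2) (by positivity)
  refine h3.trans (ENNReal.ofReal_le_ofReal ?_)
  apply mul_le_mul_of_nonneg_left _ (by positivity)
  have h4 : (16 : ℝ) * (2 ^ N)⁻¹ = exp (-((N - 4) * log 2)) := by
    have e1 : -(((N : ℝ) - 4) * log 2) = (4 : ℕ) * log 2 + -(N * log 2) := by push_cast; ring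
    rw [e1, exp_add, exp_nat_mul, exp_log (by norm_num), exp_neg, exp_nat_mul,
      exp_log (by norm_num)]
    norm_num
  rw [h4]
  apply exp_le_exp.2
  rw [neg_le_neg_iff, le_div_iff₀ (by positivity)]
  have h5 : ((N : ℝ) - 4) * (N + 4) ≤ N ^ 2 := by nlinarith
  have h6 : (N : ℝ) ^ 2 * 2 ≤ N ^ 2 * Q ^ 2 := by
    apply mul_le_mul_of_nonneg_left hQ2 (by positivity)
  have h7 : 0 < log 2 * log 2 := by positivity
  calc ((N : ℝ) - 4) * log 2 * (2 * ((N + 4) * log 2))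
      = (((N : ℝ) - 4) * (N + 4)) * 2 * (log 2 * log 2) := by ring
    _ ≤ N ^ 2 * 2 * (log 2 * log 2) := by
        apply mul_le_mul_of_nonneg_right _ h7.le
        linarith
    _ ≤ N ^ 2 * Q ^ 2 * (log 2 * log 2) := mul_le_mul_of_nonneg_right h6 h7.le
    _ = (Q * N * log 2) ^ 2 := by ring

/-- enumeration of the squares of level `N` along the level-`m` grid -/
def bdMap (m N : ℕ) (t : Fin 4) (a : Fin (2 ^ m)) (b : Fin (2 ^ N)) : ℤ × ℤ :=
  match t with
  | 0 => (2 ^ N + a * 2 ^ (N - m), b)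
  | 1 => (2 ^ N + a * 2 ^ (N - m) + (2 ^ (N - m) - 1), b)
  | 2 => (2 ^ N + b, a * 2 ^ (N - m))
  | 3 => (2 ^ N + b, a * 2 ^ (N - m) + (2 ^ (N - m) - 1))

theorem exists_mul {m N : ℕ} (hmN : m ≤ N) {a : ℤ} (h0 : 0 ≤ a) (h1 : a < 2 ^ N)
    (hd : (2 : ℤ) ^ (N - m) ∣ a) : ∃ c : Fin (2 ^ m), a = c * 2 ^ (N - m) := by
  obtain ⟨c, rfl⟩ := hd
  obtain ⟨e, rfl⟩ := Nat.exists_eq_add_of_le hmN
  rw [Nat.add_sub_cancel_left] at *
  have hp : (0 : ℤ) < 2 ^ e := by positivity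
  have hc0 : 0 ≤ c := nonneg_of_mul_nonneg_right h0 hp
  have hc1 : c < 2 ^ m := by
    rw [pow_add, mul_comm] at h1
    exact lt_of_mul_lt_mul_right h1 hp.le
  obtain ⟨c, rfl⟩ := Int.eq_ofNat_of_zero_le hc0
  refine ⟨⟨c, by exact_mod_cast hc1⟩, ?_⟩
  simp only
  ring

theorem exists_mul' {m N : ℕ} (hmN : m ≤ N) {a : ℤ} (h0 : 0 ≤ a) (h1 : a < 2 ^ N)
    (hd : (2 : ℤ) ^ (N - m) ∣ a + 1) :
    ∃ c : Fin (2 ^ m), a = c * 2 ^ (N - m) + (2 ^ (N - m) - 1) := by
  have hp : (0 : ℤ) < 2 ^ (N - m) := by positivity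
  have h2 : (0 : ℤ) ≤ a - (2 ^ (N - m) - 1) := by
    have := Int.le_of_dvd (by omega) hd
    omega
  have h3 : (2 : ℤ) ^ (N - m) ∣ a - (2 ^ (N - m) - 1) := by
    have : a - (2 ^ (N - m) - 1) = (a + 1) - 2 ^ (N - m) := by ring
    rw [this]
    exact dvd_sub hd (dvd_refl _)
  obtain ⟨c, hc⟩ := exists_mul hmN h2 (by omega) h3
  exact ⟨c, by omega⟩

theorem exists_bdMap {m N : ℕ} (hmN : m ≤ N) {i j : ℤ} (hin : InB N i j) (hbd : Bd (N - m) i j) :
    ∃ t a b, bdMap m N t a b = (i, j) := by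
  rw [inB_iff] at hin
  obtain ⟨h1, h2, h3, h4⟩ := hin
  have hd : (2 : ℤ) ^ (N - m) ∣ 2 ^ N := pow_dvd_pow _ (Nat.sub_le _ _)
  have hb : ∃ b : Fin (2 ^ N), (b : ℤ) = j := by
    refine ⟨⟨j.toNat, ?_⟩, ?_⟩
    · zify; omega
    · simp only; omega
  have hb' : ∃ b : Fin (2 ^ N), (b : ℤ) = i - 2 ^ N := by
    refine ⟨⟨(i - 2 ^ N).toNat, ?_⟩, ?_⟩
    · zify; omega
    · simp only; omega
  obtain ⟨b, hb⟩ := hb
  obtain ⟨b', hb'⟩ := hb'
  rcases hbd with h | h | h | h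
  · obtain ⟨c, hc⟩ := exists_mul hmN (a := i - 2 ^ N) (by omega) (by omega) (dvd_sub h hd)
    refine ⟨0, c, b, ?_⟩
    simp only [bdMap, Prod.mk.injEq]
    exact ⟨by omega, hb⟩
  · obtain ⟨c, hc⟩ := exists_mul' hmN (a := i - 2 ^ N) (by omega) (by omega) (by
      have : i - 2 ^ N + 1 = (i + 1) - 2 ^ N := by ring
      rw [this]; exact dvd_sub h hd)
    refine ⟨1, c, b, ?_⟩
    simp only [bdMap, Prod.mk.injEq]
    exact ⟨by omega, hb⟩
  · obtain ⟨c, hc⟩ := exists_mul hmN (a := j) (by omega) (by omega) h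
    refine ⟨2, c, b', ?_⟩
    simp only [bdMap, Prod.mk.injEq]
    exact ⟨by omega, by omega⟩
  · obtain ⟨c, hc⟩ := exists_mul' hmN (a := j) (by omega) (by omega) h
    refine ⟨3, c, b', ?_⟩
    simp only [bdMap, Prod.mk.injEq]
    exact ⟨by omega, by omega⟩

omit [MeasurableSpace Ω] in
theorem fld_sub (Q : ℝ) (h : ℝ → ℂ → Ω → ℝ) (ω : Ω) (N : ℕ) (i j : ℤ) :
    fld Q h ω ⟨N, i, j⟩ - fld Q h ω S0 = dif h ⟨N, i, j⟩ ω - Q * N * log 2 := by
  unfold fld dif
  have h1 : ((S0.n : ℤ) : ℝ) = 0 := by simp [S0]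
  rw [h1]
  simp only [Int.cast_natCast]
  ring

theorem noAlive_prob (hh : IsGFF P h) {Q : ℝ} (hQ : 0 < Q) (hQ2 : 2 ≤ Q ^ 2) {m N : ℕ} (hN : 0 < N)
    (hmN : m ≤ N) : P {ω | ¬ NoAlive (fun S => fld Q h ω S - fld Q h ω S0) 0 m N} ≤
      ENNReal.ofReal (64 * 2 ^ m * (√((N + 4) * log 2) / (Q * N * log 2))) := by
  have hl := log_two_pos
  have hN0 : (0 : ℝ) < N := by exact_mod_cast hN
  set c : ℝ := √((N + 4) * log 2) / (Q * N * log 2) * (16 * (2 ^ N)⁻¹) with hc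
  have hc0 : 0 ≤ c := by positivity
  set E : Fin 4 → Fin (2 ^ m) → Fin (2 ^ N) → Set Ω := fun t a b =>
    {ω | InB N (bdMap m N t a b).1 (bdMap m N t a b).2 ∧
      Q * N * log 2 ≤ dif h ⟨N, (bdMap m N t a b).1, (bdMap m N t a b).2⟩ ω} with hE
  have hEb : ∀ t a b, P (E t a b) ≤ ENNReal.ofReal c := by
    intro t a b
    by_cases hin : InB N (bdMap m N t a b).1 (bdMap m N t a b).2
    · refine (measure_mono ?_).trans (dif_tail hh hQ hQ2 hN hin)
      intro ω hω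
      exact hω.2
    · have : E t a b = ∅ := by
        ext ω
        simp [hE, hin]
      rw [this, measure_empty]
      exact zero_le
  have h1 : {ω | ¬ NoAlive (fun S => fld Q h ω S - fld Q h ω S0) 0 m N} ⊆
      ⋃ t, ⋃ a, ⋃ b, E t a b := by
    intro ω hω
    simp only [NoAlive, Set.mem_ofPred_eq, not_forall, not_not] at hω
    obtain ⟨i, j, hin, hbd, hal⟩ := hω
    obtain ⟨t, a, b, he⟩ := exists_bdMap hmN hin hbd
    simp only [Set.mem_iUnion]
    refine ⟨t, a, b, ?_⟩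
    have h2 := hal 0
    rw [anc_zero] at h2
    have h3 : 0 < fld Q h ω ⟨N, i, j⟩ - fld Q h ω S0 := h2
    rw [fld_sub] at h3
    simp only [hE, Set.mem_ofPred_eq, he]
    exact ⟨hin, by linarith⟩
  refine (measure_mono h1).trans ?_
  calc P (⋃ t, ⋃ a, ⋃ b, E t a b) ≤ ∑ t, ∑ a, ∑ b, P (E t a b) := by
        refine (measure_iUnion_fintype_le _ _).trans (Finset.sum_le_sum fun t _ => ?_)
        refine (measure_iUnion_fintype_le _ _).trans (Finset.sum_le_sum fun a _ => ?_)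
        exact measure_iUnion_fintype_le _ _
    _ ≤ ∑ t : Fin 4, ∑ a : Fin (2 ^ m), ∑ b : Fin (2 ^ N), ENNReal.ofReal c :=
        Finset.sum_le_sum fun t _ => Finset.sum_le_sum fun a _ => Finset.sum_le_sum fun b _ =>
          hEb t a b
    _ = ENNReal.ofReal (64 * 2 ^ m * (√((N + 4) * log 2) / (Q * N * log 2))) := by
        simp only [Finset.sum_const, Finset.card_univ, Fintype.card_fin, nsmul_eq_mul]
        have e : (64 * 2 ^ m * (√((N + 4) * log 2) / (Q * N * log 2))) =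
            (4 : ℕ) * (((2 ^ m : ℕ) : ℝ) * (((2 ^ N : ℕ) : ℝ) * c)) := by
          rw [hc]
          push_cast
          field_simp
          ring
        clear_value c
        rw [e, ENNReal.ofReal_mul (Nat.cast_nonneg _), ENNReal.ofReal_mul (Nat.cast_nonneg _),
          ENNReal.ofReal_mul (Nat.cast_nonneg _), ENNReal.ofReal_natCast, ENNReal.ofReal_natCast,
          ENNReal.ofReal_natCast]

theorem tendsto_bound {Q : ℝ} (hQ : 0 < Q) (m : ℕ) : Tendsto (fun N : ℕ =>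
    64 * 2 ^ m * (√((((N + m + 1 : ℕ) : ℝ) + 4) * log 2) / (Q * ((N + m + 1 : ℕ) : ℝ) * log 2)))
    atTop (𝓝 0) := by
  have hl := log_two_pos
  have h1 : Tendsto (fun N : ℕ => √((N : ℝ) + 1)) atTop atTop := by
    apply tendsto_sqrt_atTop.comp
    exact tendsto_atTop_add_const_right _ _ tendsto_natCast_atTop_atTop
  have h2 := (h1.inv_tendsto_atTop).const_mul (64 * 2 ^ m * (√(5 * log 2) / (Q * log 2)))
  rw [mul_zero] at h2
  refine squeeze_zero (fun N => by positivity) (fun N => ?_) h2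
  simp only [Pi.inv_apply]
  have e : 64 * 2 ^ m * (√(5 * log 2) / (Q * log 2)) * (√((N : ℝ) + 1))⁻¹ =
    64 * 2 ^ m * ((√(5 * log 2) / (Q * log 2)) * (√((N : ℝ) + 1))⁻¹) := by ring
  rw [e]
  apply mul_le_mul_of_nonneg_left _ (by positivity)
  push_cast
  set y : ℝ := (N : ℝ) + m + 1 with hy
  have hy0 : (1 : ℝ) ≤ y := by
    rw [hy]
    have : (0 : ℝ) ≤ N := Nat.cast_nonneg _
    have : (0 : ℝ) ≤ m := Nat.cast_nonneg _
    linarith
  have h3 : √((y + 4) * log 2) ≤ √(5 * log 2) * √y := by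
    rw [← sqrt_mul (by positivity)]
    apply sqrt_le_sqrt
    nlinarith
  have h4 : √((N : ℝ) + 1) ≤ √y := by
    apply sqrt_le_sqrt
    rw [hy]
    have : (0 : ℝ) ≤ m := Nat.cast_nonneg _
    linarith
  have h5 : 0 < √((N : ℝ) + 1) := by positivity
  have h6 : 0 < √y := by positivity
  calc √((y + 4) * log 2) / (Q * y * log 2) ≤ √(5 * log 2) * √y / (Q * y * log 2) := by
        apply div_le_div_of_nonneg_right h3 (by positivity)
    _ = √(5 * log 2) / (Q * log 2) * (√y)⁻¹ := by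
        have : y = √y * √y := (mul_self_sqrt (by linarith)).symm
        field_simp
        rw [sq_sqrt (by linarith)]
    _ ≤ √(5 * log 2) / (Q * log 2) * (√((N : ℝ) + 1))⁻¹ := by
        apply mul_le_mul_of_nonneg_left _ (by positivity)
        exact inv_anti₀ h5 h4

theorem noAlive_ae (hh : IsGFF P h) {Q : ℝ} (hQ : 0 < Q) (hQ2 : 2 ≤ Q ^ 2) :
    ∀ᵐ ω ∂P, ∀ m : ℕ, ∃ N, m ≤ N ∧ NoAlive (fun S => fld Q h ω S - fld Q h ω S0) 0 m N := by
  rw [ae_all_iff]
  intro m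
  have h1 := null_of_tendsto (P := P) (E := fun N : ℕ =>
    {ω | ¬ NoAlive (fun S => fld Q h ω S - fld Q h ω S0) 0 m (N + m + 1)}) (tendsto_bound hQ m)
    (fun N => noAlive_prob hh hQ hQ2 (by omega) (by omega))
  rw [ae_iff]
  refine measure_mono_null ?_ h1
  intro ω hω n
  simp only [Set.mem_ofPred_eq, not_exists, not_and] at hω ⊢
  exact hω (n + m + 1) (by omega)

/-- for a fixed `m`, with probability close to `1` for some `N` -/
theorem noAlive_exists (hh : IsGFF P h) {Q : ℝ} (hQ : 0 < Q) (hQ2 : 2 ≤ Q ^ 2) (m : ℕ) {δ : ℝ}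
    (hδ : 0 < δ) : ∃ N, m ≤ N ∧
      P {ω | ¬ NoAlive (fun S => fld Q h ω S - fld Q h ω S0) 0 m N} ≤ ENNReal.ofReal δ := by
  obtain ⟨N, hN⟩ := ((tendsto_bound hQ m).eventually (gt_mem_nhds hδ)).exists
  exact ⟨N + m + 1, by omega, (noAlive_prob hh hQ hQ2 (by omega) (by omega)).trans
    (ENNReal.ofReal_le_ofReal hN.le)⟩

end

end Pool.Agent.Y980
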