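import Pool.Agent.Y980.Core
import Pool.Agent.Y980.NoAliveProb
import Pool.Agent.Y980.Det2
import Pool.Agent.Y980.Det3

/-!
# The local events
-/

set_option autoImplicit false

namespace Pool.Agent.Y980

open MeasureTheory ProbabilityTheory Real DSquare Filter Topology

/-- local event leading to `K` ends -/
def evMany (K m N : ℕ) : Set (DSquare → ℝ) :=
  {y | Rooted y ∧ (∀ m', ∃ N', m' ≤ N' ∧ NoAlive y 0 m' N') ∧ NoAlive y 0 m N ∧
    ∃ U : Fin K → ℤ × ℤ, Function.Injective U ∧ (∀ c, InB m (U c).1 (U c).2) ∧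
      ∀ c, ∀ q : ℕ, ∃ i j : ℤ, i / 2 ^ q = (U c).1 ∧ j / 2 ^ q = (U c).2 ∧
        Alive y 1 ⟨(m + q : ℕ), i, j⟩}

/-- local event leading to a root of infinite degree -/
def evDeg : Set (DSquare → ℝ) :=
  {y | Rooted y ∧ (∀ q : ℕ, ∃ j : ℤ, InB q (2 ^ q) j ∧ Alive y 1 ⟨q, 2 ^ q, j⟩) ∧
    ∀ (n : ℕ) (j : ℤ), InB n (2 ^ n) j →
      ∃ d : ℕ, ¬ Alive y 0 ⟨(n + d : ℕ), 2 ^ (n + d), j * 2 ^ d⟩}

theorem measurable_alive (u : ℝ) (S : DSquare) : Measurable fun y : DSquare → ℝ => Alive y u S := by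
  unfold Alive
  refine Measurable.forall fun k => ?_
  exact measurableSet_setOfPred.1 (measurableSet_lt measurable_const (measurable_pi_apply _))

theorem measurable_noAlive (u : ℝ) (m N : ℕ) :
    Measurable fun y : DSquare → ℝ => NoAlive y u m N := by
  unfold NoAlive
  refine Measurable.forall fun i => Measurable.forall fun j => ?_
  exact Measurable.imp measurable_const (Measurable.imp measurable_const
    (Measurable.not (measurable_alive _ _)))

theorem measurable_rooted : Measurable fun y : DSquare → ℝ => Rooted y := by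
  unfold Rooted
  refine Measurable.and ?_ ?_
  · exact measurableSet_setOfPred.1 (measurableSet_eq_fun (measurable_pi_apply _) measurable_const)
  · refine Measurable.forall fun k => Measurable.imp measurable_const ?_
    exact measurableSet_setOfPred.1 (measurableSet_lt measurable_const (measurable_pi_apply _))

theorem measurable_evMany (K m N : ℕ) : MeasurableSet (evMany K m N) := by
  refine measurableSet_setOfPred.2 (Measurable.and measurable_rooted (Measurable.and ?_
    (Measurable.and (measurable_noAlive _ _ _) ?_)))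
  · exact Measurable.forall fun m' => Measurable.exists fun N' =>
      Measurable.and measurable_const (measurable_noAlive _ _ _)
  · refine Measurable.exists fun U => Measurable.and measurable_const
      (Measurable.and measurable_const ?_)
    refine Measurable.forall fun c => Measurable.forall fun q => Measurable.exists fun i =>
      Measurable.exists fun j => ?_
    exact Measurable.and measurable_const (Measurable.and measurable_const (measurable_alive _ _))

theorem measurable_evDeg : MeasurableSet evDeg := by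
  refine measurableSet_setOfPred.2 (Measurable.and measurable_rooted (Measurable.and ?_ ?_))
  · exact Measurable.forall fun q => Measurable.exists fun j =>
      Measurable.and measurable_const (measurable_alive _ _)
  · exact Measurable.forall fun n => Measurable.forall fun j => Measurable.imp measurable_const
      (Measurable.exists fun d => Measurable.not (measurable_alive _ _))

section

variable {Ω : Type*} [MeasurableSpace Ω] {P : Measure Ω} {h : ℝ → ℂ → Ω → ℝ}

theorem many_prob (hh : IsGFF P h) {Q : ℝ} (hQ : 0 < Q) (hQ2 : 2 ≤ Q ^ 2) (hQ' : Q < 2) :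
    ∃ p : ℝ, 0 < p ∧ ∀ K : ℕ, ∃ m N : ℕ, m ≤ N ∧ ENNReal.ofReal p ≤
      P {ω | (fun S => fld Q h ω S - fld Q h ω S0) ∈ evMany K m N} := by
  obtain ⟨C, p, hp, hcore⟩ := core_prob hh fam_D2 hQ (by nlinarith)
  refine ⟨p / 2, by positivity, fun K => ?_⟩
  obtain ⟨m, hm⟩ := hcore K
  obtain ⟨N, hmN, hN⟩ := noAlive_exists hh hQ hQ2 m (show 0 < p / 2 by positivity)
  refine ⟨m, N, hmN, ?_⟩
  have hae := noAlive_ae hh hQ hQ2
  rw [ae_iff] at hae
  have h1 : {ω | fld Q h ω ∈ coreSet D2 C K m ∧ fld Q h ω S0 ≤ -(C + 1)} ⊆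
      ({ω | (fun S => fld Q h ω S - fld Q h ω S0) ∈ evMany K m N} ∪
      {ω | ¬ ∀ m : ℕ, ∃ N, m ≤ N ∧ NoAlive (fun S => fld Q h ω S - fld Q h ω S0) 0 m N}) ∪
      {ω | ¬ NoAlive (fun S => fld Q h ω S - fld Q h ω S0) 0 m N} := by
    rintro ω ⟨h1, h2⟩
    by_cases h3 : NoAlive (fun S => fld Q h ω S - fld Q h ω S0) 0 m N
    · left
      by_cases h4 : ∀ m : ℕ, ∃ N, m ≤ N ∧ NoAlive (fun S => fld Q h ω S - fld Q h ω S0) 0 m N
      · left
        refine ⟨rooted_of_core h1 h2, h4, h3, ?_⟩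
        obtain ⟨U, hinj, hU⟩ := exists_U fam_D2 h1.1
        refine ⟨U, hinj, fun c => ?_, fun c q => ?_⟩
        · have := (mem_surv.1 (hU c m le_rfl)).1
          exact mem_D2.1 this
        · obtain ⟨s, _, h5, h6, h7⟩ := alive_of_core fam_D2 h1 h2 (hU c (m + q) (by omega))
          exact ⟨s.1, s.2, h5, h6, h7⟩
      · exact Or.inr h4
    · exact Or.inr h3
  have h2 := hm.trans (measure_mono h1)
  have h3 := (h2.trans (measure_union_le _ _)).trans (add_le_add (measure_union_le _ _) hN)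
  rw [hae, add_zero] at h3
  have h4 : ENNReal.ofReal p = ENNReal.ofReal (p / 2) + ENNReal.ofReal (p / 2) := by
    rw [← ENNReal.ofReal_add (by positivity) (by positivity)]
    congr 1
    ring
  rw [h4] at h3
  exact (ENNReal.add_le_add_iff_right ENNReal.ofReal_ne_top).1 h3

theorem corner_ae (hh : IsGFF P h) {Q : ℝ} (hQ : 0 < Q) :
    ∀ᵐ ω ∂P, ∀ (n : ℕ) (j : ℤ), InB n (2 ^ n) j →
      ∃ d : ℕ, ¬ Alive (fun S => fld Q h ω S - fld Q h ω S0) 0
        ⟨(n + d : ℕ), 2 ^ (n + d), j * 2 ^ d⟩ := by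
  rw [ae_all_iff]
  intro n
  rw [ae_all_iff]
  intro j
  by_cases hin : InB n (2 ^ n) j
  swap
  · exact Filter.Eventually.of_forall fun ω h => (hin h).elim
  have hin' : ∀ d, InB (n + d) (2 ^ (n + d)) (j * 2 ^ d) := by
    intro d
    apply InB.of_ediv
    rw [pow_add, ediv_mul_pow, ediv_mul_pow]
    exact hin
  set r := exp (-(Q ^ 2 * log 2 / 2)) with hr
  have hr1 : r < 1 := geom_lt hQ
  have hb : Tendsto (fun d : ℕ => exp (2 * Q ^ 2 * log 2) * r ^ (n + d)) atTop (𝓝 0) := by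
    have h1 : Tendsto (fun d : ℕ => r ^ (n + d)) atTop (𝓝 0) := by
      have := (tendsto_pow_atTop_nhds_zero_of_lt_one (exp_pos _).le hr1).const_mul (r ^ n)
      rw [mul_zero] at this
      simpa [pow_add] using this
    simpa using h1.const_mul (exp (2 * Q ^ 2 * log 2))
  have h1 := null_of_tendsto (P := P) (E := fun d : ℕ =>
    {ω | Alive (fun S => fld Q h ω S - fld Q h ω S0) 0 ⟨(n + d : ℕ), 2 ^ (n + d), j * 2 ^ d⟩}) hb ?_
  · rw [ae_iff]
    refine measure_mono_null ?_ h1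
    intro ω hω
    simp only [Set.mem_ofPred_eq, Classical.not_imp, not_exists, not_not] at hω ⊢
    exact hω.2
  · intro d
    have h2 := gauss_tail (dif_law hh ⟨(n + d : ℕ), 2 ^ (n + d), j * 2 ^ d⟩)
      (mean_dif hh _) (var_dif_inB hh (hin' d)).2 hQ.le (Q * (n + d : ℕ) * log 2)
    have e : exp (2 * Q ^ 2 * log 2) * r ^ (n + d) =
        exp (Q ^ 2 * (((n + d : ℕ) + 4) * log 2) / 2 - Q * (Q * (n + d : ℕ) * log 2)) := by
      rw [hr, ← exp_nat_mul, ← exp_add]
      congr 1
      ring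
    rw [e]
    refine le_trans (measure_mono ?_) h2
    intro ω hω
    have h3 := hω 0
    rw [anc_zero] at h3
    have h4 : 0 < fld Q h ω ⟨(n + d : ℕ), 2 ^ (n + d), j * 2 ^ d⟩ - fld Q h ω S0 := h3
    rw [fld_sub] at h4
    simp only [Set.mem_ofPred_eq]
    linarith

theorem deg_prob (hh : IsGFF P h) {Q : ℝ} (hQ : 0 < Q) (hQ2 : Q ^ 2 < 2) :
    ∃ p : ℝ, 0 < p ∧ ENNReal.ofReal p ≤
      P {ω | (fun S => fld Q h ω S - fld Q h ω S0) ∈ evDeg} := by
  obtain ⟨C, p, hp, hcore⟩ := core_prob hh fam_D1 hQ (by linarith)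
  refine ⟨p, hp, ?_⟩
  obtain ⟨m, hm⟩ := hcore 1
  have hae := corner_ae hh hQ
  rw [ae_iff] at hae
  have h1 : {ω | fld Q h ω ∈ coreSet D1 C 1 m ∧ fld Q h ω S0 ≤ -(C + 1)} ⊆
      {ω | (fun S => fld Q h ω S - fld Q h ω S0) ∈ evDeg} ∪
      {ω | ¬ ∀ (n : ℕ) (j : ℤ), InB n (2 ^ n) j →
      ∃ d : ℕ, ¬ Alive (fun S => fld Q h ω S - fld Q h ω S0) 0
        ⟨(n + d : ℕ), 2 ^ (n + d), j * 2 ^ d⟩} := by
    rintro ω ⟨h1, h2⟩
    by_cases h3 : ∀ (n : ℕ) (j : ℤ), InB n (2 ^ n) j →
      ∃ d : ℕ, ¬ Alive (fun S => fld Q h ω S - fld Q h ω S0) 0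
        ⟨(n + d : ℕ), 2 ^ (n + d), j * 2 ^ d⟩
    · left
      refine ⟨rooted_of_core h1 h2, fun q => ?_, h3⟩
      obtain ⟨U, _, hU⟩ := exists_U fam_D1 h1.1
      obtain ⟨s, hs, _, _, h7⟩ := alive_of_core fam_D1 h1 h2 (hU 0 (m + q) (by omega))
      rw [add_comm m q] at hs h7
      have h8 := fam_D1.anc q m s hs
      rw [mem_D1] at h8
      simp only at h8
      refine ⟨s.2 / 2 ^ m, h8.1 ▸ h8.2, ?_⟩
      have h9 := h7.anc m
      have e : anc m (⟨(q + m : ℕ), s.1, s.2⟩ : DSquare) = ⟨q, 2 ^ q, s.2 / 2 ^ m⟩ := by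
        ext
        · simp only [anc]; push_cast; ring
        · exact h8.1
        · rfl
      rwa [e] at h9
    · exact Or.inr h3
  have h2 := (hm.trans (measure_mono h1)).trans (measure_union_le _ _)
  rwa [hae, add_zero] at h2

end

end Pool.Agent.Y980
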