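import Pool.Agent.Y980.Family

/-!
# Many infinite chains of squares above a threshold
-/

set_option autoImplicit false

namespace Pool.Agent.Y980

open MeasureTheory ProbabilityTheory Real DSquare Filter Topology

/-- the logarithm of the mass -/
noncomputable def fld {Ω : Type*} (Q : ℝ) (h : ℝ → ℂ → Ω → ℝ) (ω : Ω) (S : DSquare) : ℝ :=
  sqv h S ω - Q * S.n * log 2

open scoped Classical in
/-- the squares of level `m` with a descendant of level `n` in `D n` whose ancestors inside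
`[1,2] × [0,1]` are above `-C` -/
noncomputable def surv (D : ℕ → Finset (ℤ × ℤ)) (C : ℝ) (m n : ℕ) (x : DSquare → ℝ) :
    Finset (ℤ × ℤ) :=
  (D m).filter fun v => ∃ s ∈ D n, s.1 / 2 ^ (n - m) = v.1 ∧ s.2 / 2 ^ (n - m) = v.2 ∧
    ∀ j ≤ n, -C < x (ans n s j)

theorem mem_surv {D : ℕ → Finset (ℤ × ℤ)} {C : ℝ} {m n : ℕ} {x : DSquare → ℝ} {v : ℤ × ℤ} :
    v ∈ surv D C m n x ↔ v ∈ D m ∧ ∃ s ∈ D n, s.1 / 2 ^ (n - m) = v.1 ∧ s.2 / 2 ^ (n - m) = v.2 ∧
    ∀ j ≤ n, -C < x (ans n s j) := by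
  classical
  unfold surv
  rw [Finset.mem_filter]

theorem exists_delta {Q d : ℝ} (hQ : 0 < Q) (hd : Q ^ 2 / 2 < d) :
    ∃ δ : ℝ, 0 < δ ∧ (Q + δ) ^ 2 / 2 + (Q + δ) * δ < d := by
  set e := d - Q ^ 2 / 2 with he
  have he0 : 0 < e := by linarith
  refine ⟨min 1 (e / (2 * Q + 2)), lt_min one_pos (by positivity), ?_⟩
  set δ := min 1 (e / (2 * Q + 2)) with hδ
  have h0 : 0 < δ := lt_min one_pos (by positivity)
  have h1 : δ ≤ 1 := min_le_left _ _
  have h2 : δ * (2 * Q + 2) ≤ e := by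
    rw [← le_div_iff₀ (by positivity)]
    exact min_le_right _ _
  nlinarith

theorem surv_prob {Ω : Type*} [MeasurableSpace Ω] {P : Measure Ω} {h : ℝ → ℂ → Ω → ℝ}
    (hh : IsGFF P h) {D : ℕ → Finset (ℤ × ℤ)} {Q d : ℝ} (hD : Fam D d) (hQ : 0 < Q)
    (hd : Q ^ 2 / 2 < d) :
    ∃ C₀ p : ℝ, 0 < p ∧ ∀ C, C₀ < C → ∀ K : ℕ, ∃ m : ℕ, ∀ n, m ≤ n →
      ENNReal.ofReal p ≤ P {ω | K ≤ (surv D C m n (fld Q h ω)).card} := by
  classical
  obtain ⟨δ, hδ, hγ⟩ := exists_delta hQ hd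
  set α := Q + δ with hα
  have hα0 : 0 < α := by positivity
  have hl := log_two_pos
  set r₁ := exp (-(δ ^ 2 / 2 * log 2)) with hr₁
  have hr₁1 : r₁ < 1 := by
    rw [hr₁, exp_lt_one_iff]
    have : 0 < δ ^ 2 / 2 * log 2 := by positivity
    linarith
  set r := exp (-((d - (α ^ 2 / 2 + α * δ)) * log 2)) with hr
  have hr1 : r < 1 := by
    rw [hr, exp_lt_one_iff]
    have : 0 < (d - (α ^ 2 / 2 + α * δ)) * log 2 := mul_pos (by linarith) hl
    linarith
  have hr0 : 0 < r := exp_pos _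
  set C₀ : ℝ := (α * δ * 4 + δ ^ 2 / 2 * 4 - log ((1 - r₁) / 4)) / δ with hC₀
  have hC : 2 * exp (α * δ * 4 + δ ^ 2 / 2 * 4 - δ * C₀) / (1 - r₁) ≤ 1 / 2 := by
    have e1 : δ * C₀ = α * δ * 4 + δ ^ 2 / 2 * 4 - log ((1 - r₁) / 4) := by
      rw [hC₀]; field_simp
    have e2 : α * δ * 4 + δ ^ 2 / 2 * 4 - δ * C₀ = log ((1 - r₁) / 4) := by rw [e1]; ring
    rw [e2, exp_log (by linarith), div_le_iff₀ (by linarith)]
    linarith
  set C₂ : ℝ := exp (7 / 2 * α ^ 2 * 4 + α * C₀) * (4 / (1 - r)) with hC₂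
  have hC₂0 : 0 < C₂ := by
    have : 0 < 1 - r := by linarith
    positivity
  refine ⟨C₀, 1 / (16 * C₂), by positivity, ?_⟩
  intro C hCC K
  obtain ⟨m, hm⟩ : ∃ m : ℕ, (K : ℝ) * (C₂ * r ^ m) ≤ 1 / 16 := by
    obtain ⟨m, hm⟩ := exists_pow_lt_of_lt_one
      (show (0 : ℝ) < 1 / (16 * ((K + 1) * C₂)) by positivity) hr1
    refine ⟨m, ?_⟩
    have h1 : r ^ m * (16 * ((K + 1) * C₂)) < 1 := by
      rwa [lt_div_iff₀ (by positivity)] at hm
    have h2 : 0 < r ^ m := by positivity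
    have h3 : 0 < C₂ * r ^ m := by positivity
    nlinarith
  refine ⟨m, fun n hmn => ?_⟩
  have hg : IsGaussianProcess (sqv h) P :=
    hh.gaussian.comp_right (fun S : DSquare => (⟨⟨S.side / 2, half_pos' S⟩, S.center⟩ :
      Set.Ioi (0 : ℝ) × ℂ))
  have h0 : ∀ S, ∫ ω, sqv h S ω ∂P = 0 := fun S => hh.mean _ _ (half_pos' S)
  have hm' : ∀ S, Measurable (sqv h S) := fun S => hh.measurable _ _ (half_pos' S)
  have key := second_step (K := K) (m₀ := m) hg h0 hm' (tree_of_fam hh hD n) hα0 hδ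
    (by norm_num : (0 : ℝ) < 4) hγ hC (le_refl C₂) hm
    (fun s => (s.1 / 2 ^ (n - m), s.2 / 2 ^ (n - m))) (by
      intro s _ s' _ he
      simp only [Prod.mk.injEq] at he
      have h1 := natAbs_lt_of_ediv he.1
      have h2 := natAbs_lt_of_ediv he.2
      have h3 : Nat.clog 2 (max (s.1 - s'.1).natAbs (s.2 - s'.2).natAbs + 1) ≤ n - m := by
        rw [Nat.clog_le_iff_le_pow (by norm_num)]
        have := max_lt h1 h2
        omega
      unfold lvs
      omega)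
  refine key.trans (measure_mono ?_)
  intro ω hω
  refine le_trans hω (Finset.card_le_card ?_)
  intro v hv
  obtain ⟨s, hs, rfl⟩ := (@Finset.mem_image _ _ (fun a b => Classical.propDecidable (a = b))
    _ _ _).1 hv
  rw [Finset.mem_filter] at hs
  obtain ⟨hs, hgood⟩ := hs
  rw [mem_surv]
  obtain ⟨q, rfl⟩ := Nat.exists_eq_add_of_le hmn
  refine ⟨?_, s, hs, rfl, rfl, ?_⟩
  · rw [Nat.add_sub_cancel_left]
    exact hD.anc m q s hs
  · intro j hj
    have h1 := hgood j hj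
    rw [abs_le] at h1
    unfold fld
    have h2 : (((ans (m + q) s j).n : ℤ) : ℝ) = j := by simp [ans]
    rw [h2]
    have h3 := h1.1
    have h4 : α * j * log 2 = Q * j * log 2 + δ * j * log 2 := by rw [hα]; ring
    linarith

theorem surv_mono {D : ℕ → Finset (ℤ × ℤ)} {d : ℝ} (hD : Fam D d) {C : ℝ} {m n : ℕ} (hmn : m ≤ n)
    {x : DSquare → ℝ} : surv D C m (n + 1) x ⊆ surv D C m n x := by
  intro v hv
  rw [mem_surv] at hv ⊢
  obtain ⟨hv, s, hs, h1, h2, h3⟩ := hv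
  have e : n + 1 - m = 1 + (n - m) := by omega
  rw [e, pow_add, ← Int.ediv_ediv_of_nonneg (by positivity)] at h1 h2
  refine ⟨hv, (s.1 / 2 ^ 1, s.2 / 2 ^ 1), hD.anc n 1 s hs, h1, h2, ?_⟩
  intro j hj
  have h4 := h3 j (by omega)
  have e2 : ans (n + 1) s j = ans n (s.1 / 2 ^ 1, s.2 / 2 ^ 1) j := by
    unfold ans
    have e : n + 1 - j = 1 + (n - j) := by omega
    rw [e, pow_add, ← Int.ediv_ediv_of_nonneg (by positivity),
      ← Int.ediv_ediv_of_nonneg (by positivity)]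
  rwa [e2] at h4

theorem surv_anti {D : ℕ → Finset (ℤ × ℤ)} {d : ℝ} (hD : Fam D d) {C : ℝ} {m n n' : ℕ}
    (hmn : m ≤ n) (hnn : n ≤ n') {x : DSquare → ℝ} : surv D C m n' x ⊆ surv D C m n x := by
  induction n', hnn using Nat.le_induction with
  | base => exact subset_rfl
  | succ n' h ih => exact (surv_mono hD (by omega)).trans ih

theorem measurable_surv (D : ℕ → Finset (ℤ × ℤ)) (C : ℝ) (m n K : ℕ) :
    MeasurableSet {x : DSquare → ℝ | K ≤ (surv D C m n x).card} := by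
  have h : {x : DSquare → ℝ | K ≤ (surv D C m n x).card} =
      {x | ∃ t : Finset (ℤ × ℤ), K ≤ t.card ∧ ∀ v ∈ t, v ∈ D m ∧ ∃ s : ℤ × ℤ, s ∈ D n ∧
        s.1 / 2 ^ (n - m) = v.1 ∧ s.2 / 2 ^ (n - m) = v.2 ∧ ∀ j ≤ n, -C < x (ans n s j)} := by
    ext x
    simp only [Set.mem_ofPred_eq]
    constructor
    · intro hK
      exact ⟨_, hK, fun v hv => mem_surv.1 hv⟩
    · rintro ⟨t, ht, h⟩
      exact ht.trans (Finset.card_le_card fun v hv => mem_surv.2 (h v hv))
  rw [h]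
  refine measurableSet_setOfPred.2 ?_
  refine Measurable.exists fun t => Measurable.and measurable_const ?_
  refine Measurable.forall fun v => Measurable.imp measurable_const ?_
  refine Measurable.and measurable_const (Measurable.exists fun s => ?_)
  refine Measurable.and measurable_const (Measurable.and measurable_const
    (Measurable.and measurable_const ?_))
  refine Measurable.forall fun j => Measurable.imp measurable_const ?_
  exact measurableSet_setOfPred.1 (measurableSet_lt measurable_const (measurable_pi_apply _))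

end Pool.Agent.Y980
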