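import Pool.Agent.Y980.Local
import Pool.Agent.Y980.Law

/-!
# Scale invariance in law of the increments
-/

set_option autoImplicit false

namespace Pool.Agent.Y980

open MeasureTheory ProbabilityTheory Real DSquare Filter Topology

/-- the square scaled by `2^{-k}` -/
def sft (k : ℕ) (S : DSquare) : DSquare := ⟨S.n + k, S.i, S.j⟩

theorem side_sft (k : ℕ) (S : DSquare) : (sft k S).side = ((2 : ℝ) ^ k)⁻¹ * S.side := by
  unfold side sft
  simp only
  rw [neg_add, add_comm, zpow_add₀ (by norm_num), zpow_neg, zpow_natCast]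

theorem center_sft (k : ℕ) (S : DSquare) :
    (sft k S).center = (((2 : ℝ) ^ k)⁻¹ : ℝ) * S.center := by
  simp only [DSquare.center, side_sft]
  apply Complex.ext
  · rw [Complex.re_ofReal_mul]
    simp only [sft]
    ring
  · rw [Complex.im_ofReal_mul]
    simp only [sft]
    ring

theorem sA_sft (k : ℕ) (S T : DSquare) : sA (sft k S) (sft k T) = -(k * log 2) + sA S T := by
  unfold sA
  rw [side_sft, side_sft, center_sft, center_sft, mul_div_assoc, mul_div_assoc,
    cA_scale (by positivity) _ _ (half_pos' T)]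
  rw [log_inv, log_pow]

section

variable {Ω : Type*} [MeasurableSpace Ω] {P : Measure Ω} {h : ℝ → ℂ → Ω → ℝ}

/-- the increments of the field at scale `2^{-k}` -/
noncomputable def difk (h : ℝ → ℂ → Ω → ℝ) (k : ℕ) (S : DSquare) (ω : Ω) : ℝ :=
  sqv h (sft k S) ω - sqv h (sft k S0) ω

/-- the normalised configuration at scale `2^{-k}` -/
noncomputable def inc (Q : ℝ) (h : ℝ → ℂ → Ω → ℝ) (k : ℕ) (ω : Ω) (S : DSquare) : ℝ :=
  fld Q h ω (sft k S) - fld Q h ω (sft k S0)

omit [MeasurableSpace Ω] in
theorem inc_eq (Q : ℝ) (h : ℝ → ℂ → Ω → ℝ) (k : ℕ) (ω : Ω) (S : DSquare) :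
    inc Q h k ω S = difk h k S ω - Q * S.n * log 2 := by
  unfold inc difk fld
  have h1 : (((sft k S0).n : ℤ) : ℝ) = k := by simp [sft, S0]
  have h2 : (((sft k S).n : ℤ) : ℝ) = S.n + k := by simp [sft]
  rw [h1, h2]
  ring

theorem difk_gauss (hh : IsGFF P h) (k : ℕ) : IsGaussianProcess (difk h k) P := by
  have h1 := (isGaussianProcess_lin (isGaussianProcess_sqv hh)).comp_right
    (fun S : DSquare => Finsupp.single (sft k S) (1 : ℝ) + Finsupp.single (sft k S0) (-1))
  have h2 : lin (sqv h) ∘ (fun S : DSquare => Finsupp.single (sft k S) (1 : ℝ) +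
      Finsupp.single (sft k S0) (-1)) = difk h k := by
    funext S
    funext ω
    simp only [Function.comp_apply, lin_add, lin_single, difk]
    ring
  rwa [h2] at h1

theorem measurable_difk (hh : IsGFF P h) (k : ℕ) (S : DSquare) : Measurable (difk h k S) :=
  (measurable_sqv hh _).sub (measurable_sqv hh _)

theorem mean_difk (hh : IsGFF P h) (k : ℕ) (S : DSquare) : ∫ ω, difk h k S ω ∂P = 0 := by
  have i1 : ∀ S, Integrable (sqv h S) P := fun S =>
    ((isGaussianProcess_sqv hh).hasGaussianLaw_eval S).integrable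
  unfold difk
  rw [integral_sub (i1 _) (i1 _), mean_sqv hh, mean_sqv hh, sub_zero]

theorem cov_difk (hh : IsGFF P h) (k : ℕ) (S T : DSquare) :
    cov[difk h k S, difk h k T; P] = sA S S0 + sA S0 T - sA S T - sA S0 S0 := by
  have hprob := hh.gaussian.isProbabilityMeasure
  have m : ∀ S, MemLp (sqv h S) 2 P := fun S =>
    ((isGaussianProcess_sqv hh).hasGaussianLaw_eval S).memLp_two
  unfold difk
  rw [covariance_fun_sub_fun_sub (m _) (m _) (m _) (m _), cov_sq hh, cov_sq hh, cov_sq hh,
    cov_sq hh, sA_sft, sA_sft, sA_sft, sA_sft]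
  ring

theorem inc_law (hh : IsGFF P h) (Q : ℝ) (k : ℕ) {A : Set (DSquare → ℝ)} (hA : MeasurableSet A) :
    P {ω | inc Q h k ω ∈ A} = P {ω | (fun S => fld Q h ω S - fld Q h ω S0) ∈ A} := by
  have h1 : P.map (fun ω S => difk h k S ω) = P.map (fun ω S => difk h 0 S ω) :=
    law_eq (difk_gauss hh k) (difk_gauss hh 0) (measurable_difk hh k) (measurable_difk hh 0)
      (mean_difk hh k) (mean_difk hh 0) (fun S T => by rw [cov_difk hh, cov_difk hh])
  set B : Set (DSquare → ℝ) := {z | (fun S => z S - Q * S.n * log 2) ∈ A} with hB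
  have hBm : MeasurableSet B := by
    have : Measurable (fun (z : DSquare → ℝ) (S : DSquare) => z S - Q * S.n * log 2) := by
      fun_prop
    exact this hA
  have m : ∀ k, Measurable (fun ω S => difk h k S ω) := fun k =>
    measurable_pi_lambda _ (measurable_difk hh k)
  have h2 : ∀ k, P {ω | inc Q h k ω ∈ A} = (P.map (fun ω S => difk h k S ω)) B := by
    intro k
    rw [Measure.map_apply (m k) hBm]
    congr 1
    ext ω
    simp only [Set.mem_ofPred_eq, Set.mem_preimage, hB]
    have : inc Q h k ω = fun S => difk h k S ω - Q * S.n * log 2 := by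
      funext S
      exact inc_eq Q h k ω S
    rw [this]
  rw [h2 k, h1, ← h2 0]
  congr 1
  ext ω
  simp only [Set.mem_ofPred_eq]
  have : inc Q h 0 ω = fun S => fld Q h ω S - fld Q h ω S0 := by
    funext S
    unfold inc sft
    simp
  rw [this]

theorem measurable_inc (hh : IsGFF P h) (Q : ℝ) (k : ℕ) : Measurable (fun ω => inc Q h k ω) := by
  refine measurable_pi_lambda _ fun S => ?_
  have h1 := measurable_pi_iff.1 (measurable_fld hh Q)
  exact (h1 _).sub (h1 _)

end

end Pool.Agent.Y980
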