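import Pool.Agent.Y980.Gauss

/-!
# An abstract truncated second moment method for log-correlated Gaussian fields
-/

set_option autoImplicit false

namespace Pool.Agent.Y980

open MeasureTheory ProbabilityTheory Real

/-- Covariance data: `D` is a finite set of leaves, `an s j` (`j ≤ n`) the ancestors of the leaf
`s`, `lv s s'` the level at which `s` and `s'` separate. -/
structure Tree {T Ω β : Type*} [MeasurableSpace Ω] (P : Measure Ω) (g : T → Ω → ℝ)
    (D : Finset β) (n : ℕ) (an : β → ℕ → T) (lv : β → β → ℕ) (c c₀ d : ℝ) : Prop where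
  ne : D.Nonempty
  lvle : ∀ s ∈ D, ∀ s' ∈ D, lv s s' ≤ n
  var : ∀ s ∈ D, ∀ j ≤ n, cov[g (an s j), g (an s j); P] ≤ j * log 2 + c
  cov : ∀ s ∈ D, ∀ j ≤ n, |cov[g (an s n), g (an s j); P] - j * log 2| ≤ c
  le : ∀ s ∈ D, ∀ s' ∈ D, cov[g (an s n), g (an s' n); P] ≤ lv s s' * log 2 + c
  ge : ∀ s ∈ D, ∀ s' ∈ D, lv s s' * log 2 - c ≤ cov[g (an s' n), g (an s (lv s s')); P]
  count : ∀ s ∈ D, ∀ m ≤ n, ((D.filter fun s' => lv s s' = m).card : ℝ) * (D.card : ℝ)⁻¹ ≤
    c₀ * exp (-(d * m * log 2))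

section

variable {T Ω β : Type*} [MeasurableSpace Ω] {P : Measure Ω} {g : T → Ω → ℝ}
  {D : Finset β} {n : ℕ} {an : β → ℕ → T} {lv : β → β → ℕ} {c c₀ d : ℝ}

/-- the tilting density -/
noncomputable def theta (P : Measure Ω) (g : T → Ω → ℝ) (α : ℝ) (t : T) (ω : Ω) : ℝ :=
  exp (α * g t ω - α ^ 2 / 2 * cov[g t, g t; P])

/-- the good event of a leaf -/
def good (g : T → Ω → ℝ) (an : β → ℕ → T) (n : ℕ) (α δ C : ℝ) (s : β) : Set Ω :=
  {ω | ∀ j ≤ n, |g (an s j) ω - α * j * log 2| ≤ δ * j * log 2 + C}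

theorem measurableSet_good (hm : ∀ t, Measurable (g t)) (α δ C : ℝ) (s : β) :
    MeasurableSet (good g an n α δ C s) := by
  have : good g an n α δ C s =
      ⋂ j, ⋂ _ : j ≤ n, {ω | |g (an s j) ω - α * j * log 2| ≤ δ * j * log 2 + C} := by
    ext ω; simp [good]
  rw [this]
  refine MeasurableSet.iInter fun j => MeasurableSet.iInter fun _ => ?_
  exact measurableSet_le (by have := hm (an s j); fun_prop) measurable_const

theorem theta_pos (α : ℝ) (t : T) (ω : Ω) : 0 < theta P g α t ω := exp_pos _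

theorem theta_measurable (hm : ∀ t, Measurable (g t)) (α : ℝ) (t : T) :
    Measurable (theta P g α t) := by
  have := hm t
  unfold theta
  fun_prop

theorem integral_theta_mul (hg : IsGaussianProcess g P) (h0 : ∀ t, ∫ ω, g t ω ∂P = 0)
    (α δ : ℝ) (s t : T) (a : ℝ) :
    Integrable (fun ω => theta P g α s ω * exp (δ * g t ω + a)) P ∧
    ∫ ω, theta P g α s ω * exp (δ * g t ω + a) ∂P =
      exp (α * δ * cov[g s, g t; P] + δ ^ 2 / 2 * cov[g t, g t; P] + a) := by
  obtain ⟨h1, h2⟩ := exp_lin3 hg h0 s t s α δ 0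
  have e : (fun ω => theta P g α s ω * exp (δ * g t ω + a)) =
      fun ω => exp (a - α ^ 2 / 2 * cov[g s, g s; P]) *
        exp (α * g s ω + δ * g t ω + 0 * g s ω) := by
    ext ω
    unfold theta
    rw [← exp_add, ← exp_add]
    congr 1
    ring
  rw [e]
  refine ⟨h1.const_mul _, ?_⟩
  rw [integral_const_mul, h2, ← exp_add]
  congr 1
  ring

theorem integral_theta (hg : IsGaussianProcess g P) (h0 : ∀ t, ∫ ω, g t ω ∂P = 0)
    (α : ℝ) (s : T) : Integrable (theta P g α s) P ∧ ∫ ω, theta P g α s ω ∂P = 1 := by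
  obtain ⟨h1, h2⟩ := integral_theta_mul hg h0 α 0 s s 0
  simp only [zero_mul, add_zero, exp_zero, mul_one, mul_zero, ne_eq, OfNat.ofNat_ne_zero,
    not_false_eq_true, zero_pow, zero_div] at h1 h2
  exact ⟨h1, h2⟩

/-- first moment of the bad part -/
theorem first (hg : IsGaussianProcess g P) (h0 : ∀ t, ∫ ω, g t ω ∂P = 0)
    (hm : ∀ t, Measurable (g t)) (ht : Tree P g D n an lv c c₀ d) {α δ C : ℝ} (hα : 0 < α)
    (hδ : 0 < δ) {s : β} (hs : s ∈ D) :
    ∫ ω in (good g an n α δ C s)ᶜ, theta P g α (an s n) ω ∂P ≤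
      2 * exp (α * δ * c + δ ^ 2 / 2 * c - δ * C) *
        ∑ j ∈ Finset.range (n + 1), exp (-(δ ^ 2 / 2 * log 2)) ^ j := by
  have hG := measurableSet_good (n := n) (an := an) hm α δ C s
  set E := exp (α * δ * c + δ ^ 2 / 2 * c - δ * C) with hE
  set F : ℕ → Ω → ℝ := fun j ω => theta P g α (an s n) ω *
    exp (δ * g (an s j) ω + -(δ * (α * j * log 2 + δ * j * log 2 + C))) with hF
  set F' : ℕ → Ω → ℝ := fun j ω => theta P g α (an s n) ω *
    exp (-δ * g (an s j) ω + δ * (α * j * log 2 - δ * j * log 2 - C)) with hF'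
  have iF : ∀ j, Integrable (F j) P := fun j => (integral_theta_mul hg h0 α δ _ _ _).1
  have iF' : ∀ j, Integrable (F' j) P := fun j => (integral_theta_mul hg h0 α (-δ) _ _ _).1
  have pw : ∀ ω, (good g an n α δ C s)ᶜ.indicator (theta P g α (an s n)) ω ≤
      ∑ j ∈ Finset.range (n + 1), (F j ω + F' j ω) := by
    intro ω
    have hpos : ∀ j, 0 ≤ F j ω + F' j ω := fun j =>
      add_nonneg (mul_nonneg (theta_pos _ _ _).le (exp_pos _).le)
        (mul_nonneg (theta_pos _ _ _).le (exp_pos _).le)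
    by_cases hω : ω ∈ good g an n α δ C s
    · rw [Set.indicator_of_notMem (Set.notMem_compl_iff.2 hω)]
      exact Finset.sum_nonneg fun j _ => hpos j
    · rw [Set.indicator_of_mem hω]
      simp only [good, Set.mem_ofPred_eq, not_forall, not_le] at hω
      obtain ⟨j, hj, hω⟩ := hω
      refine le_trans ?_ (Finset.single_le_sum (fun j _ => hpos j)
        (Finset.mem_range.2 (Nat.lt_succ_of_le hj)))
      have hth := theta_pos (P := P) (g := g) α (an s n) ω
      rcases lt_abs.1 hω with h | h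
      · have h1 : 1 ≤ exp (δ * g (an s j) ω + -(δ * (α * j * log 2 + δ * j * log 2 + C))) := by
          apply one_le_exp
          have := mul_le_mul_of_nonneg_left h.le hδ.le
          linarith
        have h2 : 0 ≤ F' j ω := mul_nonneg hth.le (exp_pos _).le
        have h3 : theta P g α (an s n) ω ≤ F j ω := le_mul_of_one_le_right hth.le h1
        linarith
      · have h1 : 1 ≤ exp (-δ * g (an s j) ω + δ * (α * j * log 2 - δ * j * log 2 - C)) := by
          apply one_le_exp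
          have := mul_le_mul_of_nonneg_left h.le hδ.le
          linarith
        have h2 : 0 ≤ F j ω := mul_nonneg hth.le (exp_pos _).le
        have h3 : theta P g α (an s n) ω ≤ F' j ω := le_mul_of_one_le_right hth.le h1
        linarith
  rw [← integral_indicator hG.compl]
  have iT := (integral_theta hg h0 α (an s n)).1
  refine (integral_mono (iT.indicator hG.compl)
    (integrable_finsetSum _ fun j _ => (iF j).add (iF' j)) pw).trans ?_
  rw [integral_finsetSum _ fun j _ => (iF j).add (iF' j), Finset.mul_sum]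
  apply Finset.sum_le_sum
  intro j hj
  have hj' : j ≤ n := Nat.lt_succ_iff.1 (Finset.mem_range.1 hj)
  rw [integral_add' (iF j) (iF' j)]
  have hv := ht.var s hs j hj'
  have hc := abs_le.1 (ht.cov s hs j hj')
  have e1 : ∫ ω, F j ω ∂P ≤ E * exp (-(δ ^ 2 / 2 * log 2)) ^ j := by
    rw [(integral_theta_mul hg h0 α δ (an s n) (an s j) _).2, hE, ← exp_nat_mul, ← exp_add]
    apply exp_le_exp.2
    have a1 : α * δ * cov[g (an s n), g (an s j); P] ≤ α * δ * (j * log 2 + c) :=
      mul_le_mul_of_nonneg_left (by linarith [hc.2]) (by positivity)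
    have a2 : δ ^ 2 / 2 * cov[g (an s j), g (an s j); P] ≤ δ ^ 2 / 2 * (j * log 2 + c) :=
      mul_le_mul_of_nonneg_left hv (by positivity)
    nlinarith
  have e2 : ∫ ω, F' j ω ∂P ≤ E * exp (-(δ ^ 2 / 2 * log 2)) ^ j := by
    rw [(integral_theta_mul hg h0 α (-δ) (an s n) (an s j) _).2, hE, ← exp_nat_mul, ← exp_add]
    apply exp_le_exp.2
    have a1 : α * δ * (j * log 2 - c) ≤ α * δ * cov[g (an s n), g (an s j); P] :=
      mul_le_mul_of_nonneg_left (by linarith [hc.1]) (by positivity)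
    have a2 : δ ^ 2 / 2 * cov[g (an s j), g (an s j); P] ≤ δ ^ 2 / 2 * (j * log 2 + c) :=
      mul_le_mul_of_nonneg_left hv (by positivity)
    nlinarith
  linarith

/-- second moment of a pair -/
theorem second (hg : IsGaussianProcess g P) (h0 : ∀ t, ∫ ω, g t ω ∂P = 0)
    (ht : Tree P g D n an lv c c₀ d) {α δ C : ℝ} (hα : 0 < α)
    {s s' : β} (hs : s ∈ D) (hs' : s' ∈ D) :
    ∃ F : Ω → ℝ, Integrable F P ∧
      (∀ ω, (good g an n α δ C s).indicator (theta P g α (an s n)) ω *
        (good g an n α δ C s').indicator (theta P g α (an s' n)) ω ≤ F ω) ∧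
      ∫ ω, F ω ∂P ≤ exp (7 / 2 * α ^ 2 * c + α * C) *
        exp ((α ^ 2 / 2 + α * δ) * lv s s' * log 2) := by
  set m := lv s s' with hm
  set r := an s m with hr
  obtain ⟨h1, h2⟩ := exp_lin3 hg h0 (an s n) (an s' n) r α α (-α)
  set K := exp (-(α ^ 2 / 2 * cov[g (an s n), g (an s n); P]) -
    α ^ 2 / 2 * cov[g (an s' n), g (an s' n); P] + α * ((α + δ) * m * log 2 + C)) with hK
  refine ⟨fun ω => K * exp (α * g (an s n) ω + α * g (an s' n) ω + -α * g r ω),
    h1.const_mul _, fun ω => ?_, ?_⟩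
  · by_cases hω : ω ∈ good g an n α δ C s
    · by_cases hω' : ω ∈ good g an n α δ C s'
      · rw [Set.indicator_of_mem hω, Set.indicator_of_mem hω']
        unfold theta
        beta_reduce
        rw [hK, ← exp_add, ← exp_add]
        apply exp_le_exp.2
        have h3 := (abs_le.1 (hω m (ht.lvle s hs s' hs'))).2
        have h4 := mul_le_mul_of_nonneg_left h3 hα.le
        rw [← hr] at h4
        nlinarith
      · rw [Set.indicator_of_notMem hω', mul_zero]
        positivity
    · rw [Set.indicator_of_notMem hω, zero_mul]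
      positivity
  · rw [integral_const_mul, h2, hK, ← exp_add, ← exp_add]
    apply exp_le_exp.2
    have a1 := ht.var s hs m (ht.lvle s hs s' hs')
    have a2 := ht.le s hs s' hs'
    have a3 := (abs_le.1 (ht.cov s hs m (ht.lvle s hs s' hs'))).1
    have a4 := ht.ge s hs s' hs'
    rw [← hm] at a2 a4
    rw [← hr] at a1 a3 a4
    have hα2 : 0 < α ^ 2 := by positivity
    nlinarith [mul_le_mul_of_nonneg_left a1 hα2.le, mul_le_mul_of_nonneg_left a2 hα2.le,
      mul_le_mul_of_nonneg_left a3 hα2.le, mul_le_mul_of_nonneg_left a4 hα2.le]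

/-- the sum over the pairs of separation level at least `m₀` -/
theorem count_sum (ht : Tree P g D n an lv c c₀ d) {γ : ℝ} (hγ : γ < d) (hc₀ : 0 ≤ c₀)
    {s : β} (hs : s ∈ D) (m₀ : ℕ) :
    ∑ s' ∈ D.filter (fun s' => m₀ ≤ lv s s'), (D.card : ℝ)⁻¹ * exp (γ * lv s s' * log 2) ≤
      c₀ * exp (-((d - γ) * log 2)) ^ m₀ / (1 - exp (-((d - γ) * log 2))) := by
  classical
  set r := exp (-((d - γ) * log 2)) with hr
  have hl := log_pos (show (1 : ℝ) < 2 by norm_num)
  have hr1 : r < 1 := by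
    rw [hr, exp_lt_one_iff]
    have := mul_pos (sub_pos.2 hγ) hl
    linarith
  have hr0 : 0 < r := exp_pos _
  have h1 : ∑ s' ∈ D.filter (fun s' => m₀ ≤ lv s s'), (D.card : ℝ)⁻¹ * exp (γ * lv s s' * log 2) =
      ∑ m ∈ Finset.Ico m₀ (n + 1), ∑ s' ∈ (D.filter (fun s' => m₀ ≤ lv s s')).filter
        (fun s' => lv s s' = m), (D.card : ℝ)⁻¹ * exp (γ * lv s s' * log 2) := by
    rw [Finset.sum_fiberwise_of_maps_to]
    intro s' hs'
    rw [Finset.mem_filter] at hs'
    rw [Finset.mem_Ico]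
    exact ⟨hs'.2, Nat.lt_succ_of_le (ht.lvle s hs s' hs'.1)⟩
  rw [h1]
  have h2 : ∀ m ∈ Finset.Ico m₀ (n + 1), ∑ s' ∈ (D.filter (fun s' => m₀ ≤ lv s s')).filter
        (fun s' => lv s s' = m), (D.card : ℝ)⁻¹ * exp (γ * lv s s' * log 2) ≤ c₀ * r ^ m := by
    intro m hm
    rw [Finset.mem_Ico] at hm
    have h3 : ∑ s' ∈ (D.filter (fun s' => m₀ ≤ lv s s')).filter
        (fun s' => lv s s' = m), (D.card : ℝ)⁻¹ * exp (γ * lv s s' * log 2) ≤
        ∑ s' ∈ D.filter (fun s' => lv s s' = m), (D.card : ℝ)⁻¹ * exp (γ * m * log 2) := by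
      have h4 : ∀ s' ∈ (D.filter (fun s' => m₀ ≤ lv s s')).filter (fun s' => lv s s' = m),
          (D.card : ℝ)⁻¹ * exp (γ * lv s s' * log 2) = (D.card : ℝ)⁻¹ * exp (γ * m * log 2) := by
        intro s' hs'
        rw [Finset.mem_filter] at hs'
        rw [hs'.2]
      rw [Finset.sum_congr rfl h4]
      apply Finset.sum_le_sum_of_subset_of_nonneg
      · intro s' hs'
        rw [Finset.mem_filter, Finset.mem_filter] at hs'
        exact Finset.mem_filter.2 ⟨hs'.1.1, hs'.2⟩
      · intro _ _ _; positivity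
    refine h3.trans ?_
    rw [Finset.sum_const, nsmul_eq_mul]
    have h5 := ht.count s hs m (by omega)
    have h6 : c₀ * exp (-(d * m * log 2)) * exp (γ * m * log 2) = c₀ * r ^ m := by
      rw [mul_assoc, ← exp_add, hr, ← exp_nat_mul]
      congr 2
      ring
    rw [← h6, ← mul_assoc]
    exact mul_le_mul_of_nonneg_right h5 (exp_pos _).le
  refine (Finset.sum_le_sum h2).trans ?_
  rw [← Finset.mul_sum, mul_div_assoc]
  apply mul_le_mul_of_nonneg_left _ hc₀
  rw [le_div_iff₀ (by linarith), Finset.sum_Ico_eq_sum_range]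
  have h7 : ∑ k ∈ Finset.range (n + 1 - m₀), r ^ (m₀ + k) =
      r ^ m₀ * ∑ k ∈ Finset.range (n + 1 - m₀), r ^ k := by
    rw [Finset.mul_sum]
    exact Finset.sum_congr rfl fun k _ => by rw [pow_add]
  rw [h7, mul_assoc]
  have h8 : (∑ k ∈ Finset.range (n + 1 - m₀), r ^ k) * (1 - r) = 1 - r ^ (n + 1 - m₀) :=
    geom_sum_mul_neg r _
  rw [h8]
  have : 0 < r ^ (n + 1 - m₀) := by positivity
  have : 0 < r ^ m₀ := by positivity
  nlinarith

end

end Pool.Agent.Y980
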