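import Pool.Agent.Y980.Shift

/-!
# Lowering the value at the root square independently of the other squares
-/

set_option autoImplicit false

namespace Pool.Agent.Y980

open MeasureTheory ProbabilityTheory Real DSquare Filter Topology

section

variable {Ω : Type*} [MeasurableSpace Ω] {P : Measure Ω} {h : ℝ → ℂ → Ω → ℝ}

/-- the extension of a configuration on the far squares -/
noncomputable def extz (Q : ℝ) (z : Option {S : DSquare // Far S} → ℝ) (S : DSquare) : ℝ :=
  open scoped Classical in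
  if hS : Far S then z (some ⟨S, hS⟩) - Q * S.n * log 2 else 0

theorem measurable_extz (Q : ℝ) : Measurable (extz Q) := by
  classical
  refine measurable_pi_lambda _ fun S => ?_
  unfold extz
  by_cases hS : Far S
  · simp only [hS, dite_true]
    fun_prop
  · simp only [hS, dite_false]
    exact measurable_const

theorem gauss_pos {X : Ω → ℝ} (hX : HasGaussianLaw X P) (hm : Measurable X) (hv : Var[X; P] ≠ 0)
    (a : ℝ) : 0 < P {ω | X ω ≤ a} := by
  have h1 := hX.map_eq_gaussianReal
  have h2 : P {ω | X ω ≤ a} = (P.map X) (Set.Iic a) := by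
    rw [Measure.map_apply hm measurableSet_Iic]
    rfl
  rw [h2, h1, pos_iff_ne_zero]
  intro h3
  have hv' : (Var[X; P]).toNNReal ≠ 0 := by
    rw [ne_eq, toNNReal_eq_zero, not_le]
    exact lt_of_le_of_ne (variance_nonneg _ _) (Ne.symm hv)
  have h4 := gaussianReal_absolutelyContinuous' (∫ ω, X ω ∂P) hv' h3
  rw [Real.volume_Iic] at h4
  exact ENNReal.top_ne_zero h4

theorem shift (hh : IsGFF P h) (Q : ℝ) {p₁ : ℝ} (hp₁ : 0 < p₁) (M : ℝ) :
    ∃ p : ℝ, 0 < p ∧ ∀ A : Set (DSquare → ℝ), MeasurableSet A →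
      (∀ x x' : DSquare → ℝ, (∀ S, Far S → x S = x' S) → x ∈ A → x' ∈ A) →
      ENNReal.ofReal p₁ ≤ P {ω | fld Q h ω ∈ A} →
      ENNReal.ofReal p ≤ P {ω | fld Q h ω ∈ A ∧ sqv h S0 ω ≤ -M} := by
  classical
  have hprob := hh.gaussian.isProbabilityMeasure
  have ha : (0 : ℝ) < 1 / 5 := by norm_num
  have hb : (0 : ℝ) < 2 / 5 := by norm_num
  set W : Ω → ℝ := fun ω => h (1 / 5) 0 ω - h (2 / 5) 0 ω with hW
  have hWm : Measurable W := (hh.measurable _ 0 ha).sub (hh.measurable _ 0 hb)
  set pa : Set.Ioi (0 : ℝ) × ℂ := (⟨1 / 5, ha⟩, 0) with hpa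
  set pb : Set.Ioi (0 : ℝ) × ℂ := (⟨2 / 5, hb⟩, 0) with hpb
  set pS : DSquare → Set.Ioi (0 : ℝ) × ℂ := fun S => (⟨S.side / 2, half_pos' S⟩, S.center) with hpS
  have m2 : ∀ p : Set.Ioi (0 : ℝ) × ℂ, MemLp (h p.1 p.2) 2 P := fun p =>
    (hh.gaussian.hasGaussianLaw_eval p).memLp_two
  have m2a : MemLp (h (1 / 5) 0) 2 P := m2 pa
  have m2b : MemLp (h (2 / 5) 0) 2 P := m2 pb
  have m2W : MemLp W 2 P := m2a.sub m2b
  have m2S : ∀ S, MemLp (sqv h S) 2 P := fun S => m2 (pS S)
  have hcovS : ∀ S, cov[sqv h S, W; P] =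
      cA (S.side / 2) S.center (2 / 5) 0 - cA (S.side / 2) S.center (1 / 5) 0 := by
    intro S
    rw [hW, covariance_fun_sub_right (m2S S) m2a m2b, cov_zero hh S ha (by norm_num),
      cov_zero hh S hb (by norm_num)]
    ring
  have hcovW : cov[W, W; P] = log 2 := by
    rw [hW, covariance_fun_sub_fun_sub m2a m2b m2a m2b, cov_rr hh ha le_rfl (by norm_num),
      cov_rr hh ha (by norm_num) (by norm_num), covariance_comm,
      cov_rr hh ha (by norm_num) (by norm_num), cov_rr hh hb le_rfl (by norm_num)]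
    have : (2 / 5 : ℝ) = 2 * (1 / 5) := by norm_num
    rw [this, log_mul (by norm_num) (by norm_num)]
    ring
  have hl := log_two_pos
  set lam : ℝ := cov[sqv h S0, W; P] / log 2 with hlam
  have hlam0 : 0 < lam := by
    rw [hlam, hcovS]
    have := cA_S0
    exact div_pos (by linarith) hl
  set R : Ω → ℝ := fun ω => sqv h S0 ω - lam * W ω with hR
  have hRm : Measurable R := (measurable_sqv hh S0).sub (hWm.const_mul _)
  -- the joint process
  set X : Option {S : DSquare // Far S} → Ω → ℝ := fun o =>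
    match o with
    | none => R
    | some S => sqv h S.1 with hX
  set Y : Unit → Ω → ℝ := fun _ => W with hY
  set f : Option {S : DSquare // Far S} ⊕ Unit → (Set.Ioi (0 : ℝ) × ℂ →₀ ℝ) := fun t =>
    match t with
    | Sum.inl none => Finsupp.single (pS S0) 1 + Finsupp.single pa (-lam) + Finsupp.single pb lam
    | Sum.inl (some S) => Finsupp.single (pS S.1) 1
    | Sum.inr _ => Finsupp.single pa 1 + Finsupp.single pb (-1) with hf
  have hXY : IsGaussianProcess (Sum.elim X Y) P := by
    have h1 := (isGaussianProcess_lin hh.gaussian).comp_right f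
    have h2 : lin (fun p : Set.Ioi (0 : ℝ) × ℂ => h p.1 p.2) ∘ f = Sum.elim X Y := by
      funext t
      funext ω
      rcases t with (_ | S) | _
      · simp only [Function.comp_apply, hf, Sum.elim_inl, hX, hR, hW, lin_add, lin_single]
        simp only [hpS, hpa, hpb, sqv]
        ring
      · simp only [Function.comp_apply, hf, Sum.elim_inl, hX, lin_single]
        simp only [hpS, sqv]
        ring
      · simp only [Function.comp_apply, hf, Sum.elim_inr, hY, hW, lin_add, lin_single]
        simp only [hpa, hpb]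
        ring
    rwa [h2] at h1
  have hXm : ∀ o, Measurable (X o) := by
    rintro (_ | S)
    · exact hRm
    · exact measurable_sqv hh S.1
  have hind : IndepFun (fun ω s => X s ω) (fun ω t => Y t ω) P := by
    refine hXY.indepFun_of_covariance_eq_zero (fun s => (hXm s).aemeasurable)
      (fun _ => hWm.aemeasurable) ?_
    rintro (_ | S) _
    · simp only [hX, hY, hR]
      rw [covariance_fun_sub_left (m2S S0) (m2W.const_mul lam) m2W, covariance_const_mul_left,
        hcovW, hlam]
      field_simp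
      ring
    · simp only [hX, hY]
      rw [hcovS, cA_far S.2 le_rfl, cA_far S.2 (by norm_num), sub_self]
  -- the constants
  have hRlaw : HasGaussianLaw R P := by
    have := hXY.hasGaussianLaw_eval (Sum.inl none)
    exact this
  have hWlaw : HasGaussianLaw W P := by
    have := hXY.hasGaussianLaw_eval (Sum.inr ())
    exact this
  have hRtail : ∃ r₀ : ℝ, P {ω | r₀ ≤ R ω} ≤ ENNReal.ofReal (p₁ / 2) := by
    have hR0 : ∫ ω, R ω ∂P = 0 := by
      have i1 : Integrable (sqv h S0) P := (m2S S0).integrable (by norm_num)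
      have i2 : Integrable (h (1 / 5) 0) P := m2a.integrable (by norm_num)
      have i3 : Integrable (h (2 / 5) 0) P := m2b.integrable (by norm_num)
      have i4 : Integrable W P := i2.sub i3
      rw [hR, integral_sub i1 (i4.const_mul lam), integral_const_mul, mean_sqv hh S0, hW,
        integral_sub i2 i3, hh.mean _ _ ha, hh.mean _ _ hb]
      ring
    have h1 : Tendsto (fun a : ℝ => exp (1 ^ 2 * Var[R; P] / 2 - 1 * a)) atTop (𝓝 0) := by
      apply tendsto_exp_atBot.comp
      have : Tendsto (fun a : ℝ => 1 ^ 2 * Var[R; P] / 2 - 1 * a) atTop atBot := by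
        simp only [one_mul, sub_eq_add_neg]
        exact tendsto_atBot_add_const_left _ _ tendsto_neg_atTop_atBot
      exact this
    obtain ⟨r₀, hr₀⟩ := (h1.eventually (gt_mem_nhds (show (0 : ℝ) < p₁ / 2 by positivity))).exists
    exact ⟨r₀, (gauss_tail hRlaw hR0 le_rfl zero_le_one r₀).trans
      (ENNReal.ofReal_le_ofReal hr₀.le)⟩
  obtain ⟨r₀, hr₀⟩ := hRtail
  have hq := gauss_pos hWlaw hWm (by rw [← covariance_self hWm.aemeasurable, hcovW]; exact hl.ne')
    ((-M - r₀) / lam)
  set q := P {ω | W ω ≤ (-M - r₀) / lam} with hqdef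
  have hqfin : q ≠ ⊤ := measure_ne_top _ _
  refine ⟨p₁ / 2 * q.toReal, mul_pos (by positivity) (ENNReal.toReal_pos hq.ne' hqfin), ?_⟩
  intro A hA hAc hPA
  set B : Set (Option {S : DSquare // Far S} → ℝ) := {z | extz Q z ∈ A ∧ z none < r₀} with hB
  have hBm : MeasurableSet B := by
    have h1 : MeasurableSet {z : Option {S : DSquare // Far S} → ℝ | extz Q z ∈ A} :=
      measurable_extz Q hA
    have h2 : MeasurableSet {z : Option {S : DSquare // Far S} → ℝ | z none < r₀} :=
      measurableSet_lt (measurable_pi_apply _) measurable_const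
    exact h1.inter h2
  set C : Set (Unit → ℝ) := {y | y () ≤ (-M - r₀) / lam} with hC
  have hCm : MeasurableSet C := measurableSet_le (measurable_pi_apply _) measurable_const
  have hkey := hind.measure_inter_preimage_eq_mul B C hBm hCm
  have hext : ∀ ω S, Far S → extz Q (fun s => X s ω) S = fld Q h ω S := by
    intro ω S hS
    simp only [extz, hS, dite_true, hX, fld]
  have e1 : ∀ ω, extz Q (fun s => X s ω) ∈ A ↔ fld Q h ω ∈ A := fun ω =>
    ⟨fun hx => hAc _ _ (fun S hS => hext ω S hS) hx,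
      fun hx => hAc _ _ (fun S hS => (hext ω S hS).symm) hx⟩
  have h1 : ENNReal.ofReal (p₁ / 2) ≤ P ((fun ω s => X s ω) ⁻¹' B) := by
    have h2 : {ω | fld Q h ω ∈ A} ⊆ ((fun ω s => X s ω) ⁻¹' B) ∪ {ω | r₀ ≤ R ω} := by
      intro ω hω
      by_cases hr : r₀ ≤ R ω
      · exact Or.inr hr
      · exact Or.inl ⟨(e1 ω).2 hω, not_le.1 hr⟩
    have h3 := (hPA.trans (measure_mono h2)).trans (measure_union_le _ _)
    have h4 : ENNReal.ofReal p₁ = ENNReal.ofReal (p₁ / 2) + ENNReal.ofReal (p₁ / 2) := by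
      rw [← ENNReal.ofReal_add (by positivity) (by positivity)]
      congr 1
      ring
    rw [h4] at h3
    have h5 := h3.trans (add_le_add_right hr₀ _)
    exact (ENNReal.add_le_add_iff_right ENNReal.ofReal_ne_top).1 h5
  have h2 : (fun ω (t : Unit) => Y t ω) ⁻¹' C = {ω | W ω ≤ (-M - r₀) / lam} := rfl
  rw [h2] at hkey
  calc ENNReal.ofReal (p₁ / 2 * q.toReal) = ENNReal.ofReal (p₁ / 2) * q := by
        rw [ENNReal.ofReal_mul (by positivity), ENNReal.ofReal_toReal hqfin]
    _ ≤ P ((fun ω s => X s ω) ⁻¹' B) * q := by gcongr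
    _ = P ((fun ω s => X s ω) ⁻¹' B ∩ {ω | W ω ≤ (-M - r₀) / lam}) := hkey.symm
    _ ≤ P {ω | fld Q h ω ∈ A ∧ sqv h S0 ω ≤ -M} := by
        apply measure_mono
        rintro ω ⟨⟨hω1, hω2⟩, hω3⟩
        refine ⟨(e1 ω).1 hω1, ?_⟩
        have h6 : R ω < r₀ := hω2
        have h7 : W ω ≤ (-M - r₀) / lam := hω3
        rw [le_div_iff₀ hlam0] at h7
        have h8 : R ω = sqv h S0 ω - lam * W ω := rfl
        linarith

end

end Pool.Agent.Y980
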