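import Pool.Agent.Y980.Tail

/-!
# Gaussian tails with the prefactor
-/

set_option autoImplicit false

namespace Pool.Agent.Y980

open MeasureTheory ProbabilityTheory Real Filter Topology

theorem integral_tail {b x : ℝ} (hb : 0 < b) :
    ∫ t in Set.Ioi x, t * exp (-b * t ^ 2) = exp (-b * x ^ 2) / (2 * b) := by
  have hderiv : ∀ t ∈ Set.Ici x, HasDerivAt (fun t : ℝ => -exp (-b * t ^ 2) / (2 * b))
      (t * exp (-b * t ^ 2)) t := by
    intro t _
    have h1 : HasDerivAt (fun t : ℝ => -b * t ^ 2) (-b * (2 * t)) t := by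
      have := (hasDerivAt_pow 2 t).const_mul (-b)
      simpa using this
    have h2 : HasDerivAt (fun t : ℝ => -exp (-b * t ^ 2) / (2 * b))
        (-(exp (-b * t ^ 2) * (-b * (2 * t))) / (2 * b)) t := (h1.exp.neg).div_const (2 * b)
    have e : t * exp (-b * t ^ 2) = -(exp (-b * t ^ 2) * (-b * (2 * t))) / (2 * b) := by
      field_simp
    rw [e]
    exact h2
  have hlim : Tendsto (fun t : ℝ => -exp (-b * t ^ 2) / (2 * b)) atTop (𝓝 0) := by
    have h1 : Tendsto (fun t : ℝ => -b * t ^ 2) atTop atBot :=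
      (tendsto_pow_atTop (by norm_num)).const_mul_atTop_of_neg (by linarith)
    have h2 := ((tendsto_exp_atBot.comp h1).neg).div_const (2 * b)
    simpa using h2
  have h := integral_Ioi_of_hasDerivAt_of_tendsto' hderiv
    (integrable_mul_exp_neg_mul_sq hb).integrableOn hlim
  rw [h]
  ring

theorem gauss_tail2 {Ω : Type*} [MeasurableSpace Ω] {P : Measure Ω} {X : Ω → ℝ}
    (hX : HasGaussianLaw X P) (hm : Measurable X) (h0 : ∫ ω, X ω ∂P = 0) {v : ℝ}
    (hV : 0 < Var[X; P]) (hv : Var[X; P] ≤ v) {x : ℝ} (hx : 0 < x) :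
    P {ω | x ≤ X ω} ≤ ENNReal.ofReal (√v / x * exp (-(x ^ 2 / (2 * v)))) := by
  have h1 := hX.map_eq_gaussianReal
  have h2 : P {ω | x ≤ X ω} = (P.map X) (Set.Ici x) := by
    rw [Measure.map_apply hm measurableSet_Ici]
    rfl
  set V := Var[X; P] with hVdef
  have hV' : V.toNNReal ≠ 0 := by
    rw [ne_eq, toNNReal_eq_zero, not_le]; exact hV
  rw [h2, h1, h0, gaussianReal_apply_eq_integral _ hV']
  apply ENNReal.ofReal_le_ofReal
  rw [integral_Ici_eq_integral_Ioi]
  have hVc : ((V.toNNReal : NNReal) : ℝ) = V := Real.coe_toNNReal _ hV.le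
  have hb : (0 : ℝ) < 1 / (2 * V) := by positivity
  have h3 : ∫ t in Set.Ioi x, gaussianPDFReal 0 V.toNNReal t ≤
      ∫ t in Set.Ioi x, ((√(2 * π * V))⁻¹ / x) * (t * exp (-(1 / (2 * V)) * t ^ 2)) := by
    refine setIntegral_mono_on (integrable_gaussianPDFReal _ _).integrableOn
      (((integrable_mul_exp_neg_mul_sq hb).const_mul _).integrableOn) measurableSet_Ioi ?_
    intro t ht
    rw [gaussianPDFReal_def, hVc]
    simp only
    have e : -(t - 0) ^ 2 / (2 * V) = -(1 / (2 * V)) * t ^ 2 := by ring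
    rw [e]
    have ht' : x < t := ht
    have h4 : 1 ≤ t / x := by rw [le_div_iff₀ hx]; linarith
    have h5 : 0 < (√(2 * π * V))⁻¹ * exp (-(1 / (2 * V)) * t ^ 2) := by
      have := pi_pos
      positivity
    calc (√(2 * π * V))⁻¹ * exp (-(1 / (2 * V)) * t ^ 2)
        = 1 * ((√(2 * π * V))⁻¹ * exp (-(1 / (2 * V)) * t ^ 2)) := (one_mul _).symm
      _ ≤ (t / x) * ((√(2 * π * V))⁻¹ * exp (-(1 / (2 * V)) * t ^ 2)) :=
          mul_le_mul_of_nonneg_right h4 h5.le
      _ = _ := by ring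
  refine h3.trans ?_
  rw [integral_const_mul, integral_tail hb]
  have h6 : (√(2 * π * V))⁻¹ / x * (exp (-(1 / (2 * V)) * x ^ 2) / (2 * (1 / (2 * V)))) =
      (V / √(2 * π * V)) / x * exp (-(x ^ 2 / (2 * V))) := by
    have e1 : -(1 / (2 * V)) * x ^ 2 = -(x ^ 2 / (2 * V)) := by ring
    rw [e1]
    field_simp
  rw [h6]
  have h7 : V / √(2 * π * V) ≤ √v := by
    have hp : √V ≤ √(2 * π * V) := by
      apply sqrt_le_sqrt
      have := pi_gt_three
      nlinarith
    have h8 : 0 < √V := sqrt_pos.2 hV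
    calc V / √(2 * π * V) ≤ V / √V := div_le_div_of_nonneg_left hV.le h8 hp
      _ = √V := by
        rw [div_eq_iff h8.ne', mul_self_sqrt hV.le]
      _ ≤ √v := sqrt_le_sqrt hv
  have h9 : exp (-(x ^ 2 / (2 * V))) ≤ exp (-(x ^ 2 / (2 * v))) := by
    apply exp_le_exp.2
    rw [neg_le_neg_iff]
    apply div_le_div_of_nonneg_left (by positivity) (by positivity) (by linarith)
  exact mul_le_mul (div_le_div_of_nonneg_right h7 hx.le) h9 (exp_pos _).le (by positivity)

end Pool.Agent.Y980
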