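import Pool.Agent.Y980.Defs

/-!
# Closed sets of the local GHP topology
-/

set_option autoImplicit false

namespace Pool.Agent.Y980

open MeasureTheory Filter Topology

/-- the spaces whose closed unit ball around the base point contains `K` points at mutual distances
at least `1/2` -/
def Pack (K : ℕ) : Set PMMSpace :=
  {X | ∃ f : Fin K → X.X, (∀ i, dist (f i) X.o ≤ 1) ∧ ∀ i j, i ≠ j → 1 / 2 ≤ dist (f i) (f j)}

/-- the spaces in which different points have distance at least `δ` -/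
def Sep (δ : ℝ) : Set PMMSpace := {X | ∀ p q : X.X, p ≠ q → δ ≤ dist p q}

theorem isClosed_pack (K : ℕ) : IsClosedGHP (Pack K) := by
  rintro Xs X hXs ⟨Z, _, _, f, g, hf, hg, ho, hH, _⟩
  have key : ∀ δ : ℝ, 0 < δ → ∃ y : Fin K → X.X, (∀ i, dist (y i) X.o ≤ 1 + 2 * δ) ∧
      ∀ i j, i ≠ j → 1 / 2 - 2 * δ ≤ dist (y i) (y j) := by
    intro δ hδ
    have e1 : ∀ᶠ n in atTop, dist (f n (Xs n).o) (g X.o) < δ :=
      (Metric.tendsto_nhds.1 ho) δ hδ
    obtain ⟨n, hn1, hn2⟩ := (e1.and (hH 1 δ hδ)).exists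
    obtain ⟨x, hx1, hx2⟩ := hXs n
    choose y hy using fun i => hn2.1 (x i) (hx1 i)
    refine ⟨y, fun i => ?_, fun i j hij => ?_⟩
    · rw [← hg.dist_eq]
      have h1 := dist_triangle4 (g (y i)) (f n (x i)) (f n (Xs n).o) (g X.o)
      have h2 := hy i
      rw [dist_comm] at h2
      rw [(hf n).dist_eq] at h1
      linarith [hx1 i]
    · rw [← hg.dist_eq]
      have h1 := dist_triangle4 (f n (x i)) (g (y i)) (g (y j)) (f n (x j))
      have h2 := hy i
      have h3 := hy j
      rw [dist_comm] at h3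
      rw [(hf n).dist_eq] at h1
      linarith [hx2 i j hij]
  let S : ℕ → Set (Fin K → X.X) := fun m => {y | (∀ i, dist (y i) X.o ≤ 1 + 2 * (1 / ((m : ℝ) + 1))) ∧
      ∀ i j, i ≠ j → 1 / 2 - 2 * (1 / ((m : ℝ) + 1)) ≤ dist (y i) (y j)}
  have hcl : ∀ m, IsClosed (S m) := by
    intro m
    have : S m = (⋂ i, {y : Fin K → X.X | dist (y i) X.o ≤ 1 + 2 * (1 / ((m : ℝ) + 1))}) ∩
        ⋂ i, ⋂ j, ⋂ _ : i ≠ j, {y : Fin K → X.X | 1 / 2 - 2 * (1 / ((m : ℝ) + 1)) ≤
          dist (y i) (y j)} := by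
      ext y
      simp only [S, Set.mem_ofPred_eq, Set.mem_inter_iff, Set.mem_iInter]
    rw [this]
    refine IsClosed.inter (isClosed_iInter fun i => ?_)
      (isClosed_iInter fun i => isClosed_iInter fun j => isClosed_iInter fun _ => ?_)
    · exact isClosed_le (by fun_prop) continuous_const
    · exact isClosed_le continuous_const (by fun_prop)
  have hcomp : IsCompact (S 0) := by
    have h1 : IsCompact (Set.pi Set.univ fun _ : Fin K => Metric.closedBall X.o 3) :=
      isCompact_univ_pi fun _ => isCompact_closedBall _ _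
    refine h1.of_isClosed_subset (hcl 0) ?_
    intro y hy i _
    rw [Metric.mem_closedBall]
    have := hy.1 i
    norm_num at this
    exact this
  obtain ⟨y, hy⟩ := IsCompact.nonempty_iInter_of_sequence_nonempty_isCompact_isClosed S
    (by
      intro m y hy
      have h1 : (1 : ℝ) / (((m + 1 : ℕ) : ℝ) + 1) ≤ 1 / ((m : ℝ) + 1) := by
        apply one_div_le_one_div_of_le (by positivity)
        push_cast; linarith
      refine ⟨fun i => ?_, fun i j hij => ?_⟩
      · have := hy.1 i; linarith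
      · have := hy.2 i j hij; linarith)
    (fun m => key _ (by positivity)) hcomp hcl
  rw [Set.mem_iInter] at hy
  have hlim : Tendsto (fun m : ℕ => 1 / ((m : ℝ) + 1)) atTop (𝓝 0) :=
    tendsto_one_div_add_atTop_nhds_zero_nat
  refine ⟨y, fun i => ?_, fun i j hij => ?_⟩
  · have h1 : Tendsto (fun m : ℕ => 1 + 2 * (1 / ((m : ℝ) + 1))) atTop (𝓝 (1 + 2 * 0)) :=
      (hlim.const_mul 2).const_add 1
    have := ge_of_tendsto' h1 (fun m => (hy m).1 i)
    linarith
  · have h1 : Tendsto (fun m : ℕ => 1 / 2 - 2 * (1 / ((m : ℝ) + 1))) atTop (𝓝 (1 / 2 - 2 * 0)) :=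
      (hlim.const_mul 2).const_sub _
    have := le_of_tendsto' h1 (fun m => (hy m).2 i j hij)
    linarith

theorem isClosed_sep (δ : ℝ) : IsClosedGHP (Sep δ) := by
  rintro Xs X hXs ⟨Z, _, _, f, g, hf, hg, ho, hH, _⟩ p q hpq
  by_contra hc
  push Not at hc
  have hd : 0 < dist p q := dist_pos.2 hpq
  set R := max (dist p X.o) (dist q X.o) with hR
  obtain ⟨η, hη0, hη1, hη2⟩ : ∃ η : ℝ, 0 < η ∧ 2 * η < dist p q ∧ dist p q + 2 * η < δ := by
    refine ⟨min (dist p q) (δ - dist p q) / 4, ?_, ?_, ?_⟩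
    · have := lt_min hd (sub_pos.2 hc); linarith
    · have := min_le_left (dist p q) (δ - dist p q); linarith
    · have := min_le_right (dist p q) (δ - dist p q); linarith
  obtain ⟨n, hn⟩ := (hH R η hη0).exists
  obtain ⟨x, hx⟩ := hn.2 p (le_max_left _ _)
  obtain ⟨y, hy⟩ := hn.2 q (le_max_right _ _)
  have h1 := dist_triangle4 (f n x) (g p) (g q) (f n y)
  have h2 := dist_triangle4 (g p) (f n x) (f n y) (g q)
  rw [(hf n).dist_eq, hg.dist_eq, dist_comm (g q)] at h1
  rw [(hf n).dist_eq, hg.dist_eq, dist_comm (g p)] at h2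
  by_cases hxy : x = y
  · rw [hxy, dist_self] at h2
    rw [hxy] at hx
    linarith
  · have h3 := hXs n x y hxy
    linarith

theorem exists_not_pack (X : PMMSpace) : ∃ K, X ∉ Pack K := by
  by_contra hcon
  push Not at hcon
  have hc : IsCompact (Metric.closedBall X.o (1 : ℝ)) := isCompact_closedBall _ _
  obtain ⟨t, htf, hcov⟩ := Metric.totallyBounded_iff.1 hc.totallyBounded (1 / 4) (by norm_num)
  obtain ⟨f, hf1, hf2⟩ := hcon (htf.toFinset.card + 1)
  have h1 : ∀ i, ∃ z ∈ htf.toFinset, dist (f i) z < 1 / 4 := by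
    intro i
    have := hcov (show f i ∈ Metric.closedBall X.o 1 from hf1 i)
    simp only [Set.mem_iUnion, Metric.mem_ball] at this
    obtain ⟨z, hz, hz'⟩ := this
    exact ⟨z, htf.mem_toFinset.2 hz, hz'⟩
  choose z hz hz' using h1
  obtain ⟨i, _, j, _, hij, he⟩ := Finset.exists_ne_map_eq_of_card_lt_of_maps_to
    (s := (Finset.univ : Finset (Fin (htf.toFinset.card + 1)))) (t := htf.toFinset) (f := z)
    (by simp) (fun i _ => hz i)
  have h2 := hf2 i j hij
  have h3 := dist_triangle (f i) (z i) (f j)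
  have h4 := hz' i
  have h5 := hz' j
  rw [dist_comm, ← he] at h5
  linarith

/-- If the closed unit balls have arbitrarily large packings with a probability bounded below, there
is no limit in law. -/
theorem no_limit {Ω Ω' : Type*} [MeasurableSpace Ω] [MeasurableSpace Ω']
    {P : Measure Ω} {X : ℝ → Ω → PMMSpace} {P' : Measure Ω'} [IsFiniteMeasure P'] {Y : Ω' → PMMSpace}
    (hconv : ConvergesInLaw P X P' Y) {p : ENNReal} (hp : 0 < p)
    (h : ∀ K : ℕ, ∃ᶠ ε in 𝓝[>] (0 : ℝ), p ≤ P {ω | X ε ω ∈ Pack K}) : False := by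
  have h1 : ∀ K, p ≤ P' {ω | Y ω ∈ Pack K} := by
    intro K
    exact (le_limsup_of_frequently_le' (h K)).trans (hconv _ (isClosed_pack K)).2
  have hmono : ∀ K L, K ≤ L → Pack L ⊆ Pack K := by
    rintro K L hKL X ⟨f, hf1, hf2⟩
    exact ⟨fun i => f (Fin.castLE hKL i), fun i => hf1 _, fun i j hij =>
      hf2 _ _ (fun h => hij (Fin.castLE_injective hKL h))⟩
  have h2 : Tendsto (fun K => P' {ω | Y ω ∈ Pack K}) atTop (𝓝 (P' (⋂ K, {ω | Y ω ∈ Pack K}))) := by
    apply tendsto_measure_iInter_atTop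
    · exact fun K => (hconv _ (isClosed_pack K)).1
    · exact fun K L hKL ω hω => hmono K L hKL hω
    · exact ⟨0, measure_ne_top _ _⟩
  have h3 : (⋂ K, {ω | Y ω ∈ Pack K}) = ∅ := by
    ext ω
    simp only [Set.mem_iInter, Set.mem_ofPred_eq, Set.mem_empty_iff_false, iff_false, not_forall]
    exact exists_not_pack (Y ω)
  rw [h3, measure_empty] at h2
  have h4 := ge_of_tendsto' h2 h1
  exact absurd h4 (not_le.2 hp)

end Pool.Agent.Y980
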