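import Pool.Agent.Y980.Avg
import Pool.Agent.Y980.Topo

/-!
# From the local events to the rooted tilings
-/

set_option autoImplicit false

namespace Pool.Agent.Y980

open MeasureTheory ProbabilityTheory Real DSquare Filter Topology

/-! ### The tiling in terms of the logarithm of the mass -/

theorem mass_eq {Ω : Type*} (Q : ℝ) (h : ℝ → ℂ → Ω → ℝ) (ω : Ω) (S : DSquare) :
    mass Q h ω S = exp (fld Q h ω S) := by
  unfold mass fld sqv
  rw [side_eq, ← exp_mul, ← exp_add]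
  congr 1
  ring

theorem tiling_eq {Ω : Type*} (Q : ℝ) (h : ℝ → ℂ → Ω → ℝ) (u : ℝ) (ω : Ω) :
    tiling Q h (exp u) ω = tiles (fld Q h ω) u := by
  unfold tiling tiles
  ext S
  simp only [Set.mem_ofPred_eq, mass_eq, exp_le_exp, exp_lt_exp]

/-! ### Scaling isomorphism -/

theorem toSet_sft {k : ℕ} {S : DSquare} {z : ℂ} :
    ((((2 : ℝ) ^ k)⁻¹ : ℝ) : ℂ) * z ∈ (sft k S).toSet ↔ z ∈ S.toSet := by
  have hp : 0 < ((2 : ℝ) ^ k)⁻¹ := by positivity
  rw [mem_toSet, mem_toSet, side_sft, Complex.re_ofReal_mul, Complex.im_ofReal_mul,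
    mul_div_mul_left _ _ hp.ne', mul_div_mul_left _ _ hp.ne']
  rfl

theorem adj_sft {𝒯₁ 𝒯₂ : Set DSquare} {k : ℕ} {S T : 𝒯₁} {S' T' : 𝒯₂} (hS : S'.1 = sft k S.1)
    (hT : T'.1 = sft k T.1) : (adjGraph 𝒯₂).Adj S' T' ↔ (adjGraph 𝒯₁).Adj S T := by
  set c : ℂ := ((((2 : ℝ) ^ k)⁻¹ : ℝ) : ℂ) with hc
  have hc0 : c ≠ 0 := by
    rw [hc]
    exact_mod_cast (show ((2 : ℝ) ^ k)⁻¹ ≠ 0 by positivity)
  have hne : S' ≠ T' ↔ S ≠ T := by
    rw [not_iff_not]
    constructor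
    · rintro rfl
      rw [hS] at hT
      apply Subtype.ext
      have h1 := congrArg DSquare.n hT
      have h2 := congrArg DSquare.i hT
      have h3 := congrArg DSquare.j hT
      simp only [sft] at h1 h2 h3
      ext
      · omega
      · exact h2
      · exact h3
    · rintro rfl
      exact Subtype.ext (hS.trans hT.symm)
  have hsm : ∀ x : ℂ, c * x = (((2 : ℝ) ^ k)⁻¹ : ℝ) • x := fun x => by
    rw [hc, Complex.real_smul]
  constructor
  · rintro ⟨h1, x, y, hxy, hs⟩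
    refine ⟨hne.1 h1, c⁻¹ * x, c⁻¹ * y, ?_, ?_⟩
    · intro h
      exact hxy (mul_left_cancel₀ (inv_ne_zero hc0) h)
    · intro z hz
      have h2 : c * z ∈ segment ℝ x y := by
        obtain ⟨a, b, ha, hb, hab, rfl⟩ := hz
        refine ⟨a, b, ha, hb, hab, ?_⟩
        simp only [Complex.real_smul]
        field_simp
      have h3 := hs h2
      rw [hS, hT] at h3
      exact ⟨toSet_sft.1 h3.1, toSet_sft.1 h3.2⟩
  · rintro ⟨h1, x, y, hxy, hs⟩
    refine ⟨hne.2 h1, c * x, c * y, ?_, ?_⟩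
    · intro h
      exact hxy (mul_left_cancel₀ hc0 h)
    · intro z hz
      have h2 : c⁻¹ * z ∈ segment ℝ x y := by
        obtain ⟨a, b, ha, hb, hab, rfl⟩ := hz
        refine ⟨a, b, ha, hb, hab, ?_⟩
        simp only [Complex.real_smul]
        field_simp
      have h3 := hs h2
      have h4 : z = c * (c⁻¹ * z) := by field_simp
      rw [hS, hT, h4]
      exact ⟨toSet_sft.2 h3.1, toSet_sft.2 h3.2⟩

/-- the scaling isomorphism -/
noncomputable def sftIso {𝒯₁ 𝒯₂ : Set DSquare} {k : ℕ} (hk : ∀ S, S ∈ 𝒯₁ ↔ sft k S ∈ 𝒯₂) :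
    adjGraph 𝒯₁ ≃g adjGraph 𝒯₂ where
  toFun S := ⟨sft k S.1, (hk _).1 S.2⟩
  invFun S := ⟨⟨S.1.n - k, S.1.i, S.1.j⟩, (hk _).2 (by
    have : sft k ⟨S.1.n - k, S.1.i, S.1.j⟩ = S.1 := by
      ext <;> simp [sft]
    rw [this]
    exact S.2)⟩
  left_inv S := by
    apply Subtype.ext
    ext <;> simp [sft]
  right_inv S := by
    apply Subtype.ext
    ext <;> simp [sft]
  map_rel_iff' := adj_sft rfl rfl

theorem iso_dist_le {V W : Type*} {G : SimpleGraph V} {H : SimpleGraph W} (φ : G ≃g H) {u v : V}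
    (h : G.Reachable u v) : H.dist (φ u) (φ v) ≤ G.dist u v := by
  obtain ⟨w, hw⟩ := h.exists_walk_length_eq_dist
  rw [← hw]
  have := SimpleGraph.dist_le (w.map φ.toHom)
  rwa [SimpleGraph.Walk.length_map] at this

theorem iso_dist {V W : Type*} {G : SimpleGraph V} {H : SimpleGraph W} (φ : G ≃g H) (u v : V) :
    H.dist (φ u) (φ v) = G.dist u v := by
  by_cases h : G.Reachable u v
  · apply le_antisymm (iso_dist_le φ h)
    have h1 : H.Reachable (φ u) (φ v) := h.map φ.toHom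
    have := iso_dist_le φ.symm h1
    simpa using this
  · rw [SimpleGraph.dist_eq_zero_of_not_reachable h, SimpleGraph.dist_eq_zero_of_not_reachable]
    intro h1
    apply h
    have := h1.map φ.symm.toHom
    simpa using this

/-! ### Deterministic consequences -/

/-- `K` points at distance `ρ` from a tile at the origin, at mutual distance at least `ρ` -/
def Many (K ρ₀ : ℕ) (𝒯 : Set DSquare) : Prop :=
  ∃ R : 𝒯, R.1.i = 0 ∧ R.1.j = 0 ∧ ∀ ρ, ρ₀ ≤ ρ → ∃ f : Fin K → 𝒯, ∀ c,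
    (adjGraph 𝒯).Reachable R (f c) ∧ (adjGraph 𝒯).dist R (f c) = ρ ∧
      ∀ d, c ≠ d → ρ ≤ (adjGraph 𝒯).dist (f c) (f d)

/-- a tile at the origin has infinite degree -/
def InfDeg (𝒯 : Set DSquare) : Prop :=
  ∃ R : 𝒯, R.1.i = 0 ∧ R.1.j = 0 ∧ {T : 𝒯 | (adjGraph 𝒯).Adj R T}.Infinite

theorem many_sft {𝒯₁ 𝒯₂ : Set DSquare} {k : ℕ} (hk : ∀ S, S ∈ 𝒯₁ ↔ sft k S ∈ 𝒯₂) {K ρ₀ : ℕ}
    (h : Many K ρ₀ 𝒯₁) : Many K ρ₀ 𝒯₂ := by
  obtain ⟨R, h1, h2, h3⟩ := h
  refine ⟨sftIso hk R, h1, h2, fun ρ hρ => ?_⟩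
  obtain ⟨f, hf⟩ := h3 ρ hρ
  refine ⟨fun c => sftIso hk (f c), fun c => ?_⟩
  obtain ⟨h4, h5, h6⟩ := hf c
  refine ⟨h4.map (sftIso hk).toHom, ?_, fun d hd => ?_⟩
  · rw [iso_dist, h5]
  · rw [iso_dist]
    exact h6 d hd

theorem infDeg_sft {𝒯₁ 𝒯₂ : Set DSquare} {k : ℕ} (hk : ∀ S, S ∈ 𝒯₁ ↔ sft k S ∈ 𝒯₂)
    (h : InfDeg 𝒯₁) : InfDeg 𝒯₂ := by
  obtain ⟨R, h1, h2, h3⟩ := h
  refine ⟨sftIso hk R, h1, h2, ?_⟩
  refine (h3.image (f := sftIso hk) (sftIso hk).injective.injOn).mono ?_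
  rintro _ ⟨T, hT, rfl⟩
  exact (sftIso hk).map_rel_iff.2 hT

theorem root_mem {y : DSquare → ℝ} (hy : Rooted y) {u : ℝ} (h0 : 0 ≤ u) (h1 : u < 1) :
    (⟨0, 0, 0⟩ : DSquare) ∈ tiles y u := by
  rw [mem_tiles]
  exact ⟨hy.1.trans_le h0, fun k hk => h1.trans (hy.2 k hk)⟩

theorem many_of_ev {K m N : ℕ} (hmN : m ≤ N) {y : DSquare → ℝ} (hy : y ∈ evMany K m N) {u : ℝ}
    (h0 : 0 ≤ u) (h1 : u < 1) : Many K (2 ^ (N + 2)) (tiles y u) := by
  obtain ⟨hR, hall, hno, U, hinj, hU, hdesc⟩ := hy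
  have hmono : ∀ {m' N'}, NoAlive y 0 m' N' → NoAlive y u m' N' :=
    fun h i j hin hbd hal => h i j hin hbd (hal.mono h0)
  refine ⟨⟨_, root_mem hR h0 h1⟩, rfl, rfl, fun ρ hρ => ?_⟩
  obtain ⟨f, hf⟩ := det_ends (root_mem hR h0 h1) (fun k hk => h1.trans (hR.2 k hk))
    (fun m' => (hall m').imp fun N' h => ⟨h.1, hmono h.2⟩) hmN (hmono hno) U hinj hU
    (fun c q => (hdesc c q).imp fun i h => h.imp fun j h => ⟨h.1, h.2.1, h.2.2.mono h1.le⟩) ρ hρ
  exact ⟨f, hf⟩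

theorem infDeg_of_ev {y : DSquare → ℝ} (hy : y ∈ evDeg) {u : ℝ} (h0 : 0 ≤ u) (h1 : u < 1) :
    InfDeg (tiles y u) := by
  obtain ⟨hR, hdesc, hcor⟩ := hy
  refine ⟨⟨_, root_mem hR h0 h1⟩, rfl, rfl, ?_⟩
  exact det_degree (root_mem hR h0 h1) (fun k hk => h1.trans (hR.2 k hk))
    (fun q => (hdesc q).imp fun j h => ⟨h.1, h.2.mono h1.le⟩)
    (fun n j hin => (hcor n j hin).imp fun d h => fun hal => h (hal.mono h0))

section

variable {Ω : Type*} {h : ℝ → ℂ → Ω → ℝ}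

theorem mem_sft {Q : ℝ} {ω : Ω} {k : ℕ} {u v : ℝ} (hu : u = v - fld Q h ω (sft k S0))
    (S : DSquare) : S ∈ tiles (inc Q h k ω) u ↔ sft k S ∈ tiles (fld Q h ω) v := by
  rw [mem_tiles, mem_tiles]
  unfold inc
  rw [hu]
  constructor
  · rintro ⟨h1, h2⟩
    refine ⟨by linarith, fun j hj => ?_⟩
    have := h2 j hj
    rw [anc_sft]
    linarith
  · rintro ⟨h1, h2⟩
    refine ⟨by linarith, fun j hj => ?_⟩
    have := h2 j hj
    rw [anc_sft] at this
    linarith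

theorem many_of_gev {Q : ℝ} {K m N : ℕ} (hmN : m ≤ N) {T k : ℕ} {ω : Ω}
    (hω : ω ∈ gev Q h (evMany K m N) T k) :
    Many K (2 ^ (N + 2)) (tiling Q h (exp (-(T : ℝ))) ω) := by
  obtain ⟨h1, h2, h3⟩ := hω
  rw [tiling_eq]
  exact many_sft (mem_sft rfl) (many_of_ev hmN h1 (by linarith) (by linarith))

theorem infDeg_of_gev {Q : ℝ} {T k : ℕ} {ω : Ω} (hω : ω ∈ gev Q h evDeg T k) :
    InfDeg (tiling Q h (exp (-(T : ℝ))) ω) := by
  obtain ⟨h1, h2, h3⟩ := hω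
  rw [tiling_eq]
  exact infDeg_sft (mem_sft rfl) (infDeg_of_ev h1 (by linarith) (by linarith))

end

/-! ### The choice of the root -/

theorem quad_of_mem {i : ℤ} {t s : ℝ} (hs : 0 < s) (ht : t = 0) (h1 : (i : ℝ) * s ≤ t)
    (h2 : t ≤ ((i : ℝ) + 1) * s) : Quad i := by
  rw [ht] at h1 h2
  have h3 : (i : ℝ) ≤ 0 := by
    by_contra hc
    push Not at hc
    have := mul_pos hc hs
    linarith
  have h4 : 0 ≤ (i : ℝ) + 1 := by
    by_contra hc
    push Not at hc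
    have := mul_neg_of_neg_of_pos hc hs
    linarith
  have h3' : i ≤ 0 := by exact_mod_cast h3
  have h4' : 0 ≤ i + 1 := by exact_mod_cast h4
  unfold Quad
  omega

theorem quad_mem {S : DSquare} (h : (0 : ℂ) ∈ S.toSet) : Quad S.i ∧ Quad S.j := by
  simp only [toSet, Set.mem_ofPred_eq, Complex.zero_re, Complex.zero_im] at h
  obtain ⟨h1, h2, h3, h4⟩ := h
  exact ⟨quad_of_mem S.side_pos rfl h1 h2, quad_of_mem S.side_pos rfl h3 h4⟩

/-- Squares on the chains of two quadrants are ancestors of two squares of the same level. -/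
theorem common_level {S T : DSquare} (hSi : Quad S.i) (hSj : Quad S.j) (hTi : Quad T.i)
    (hTj : Quad T.j) : ∃ (n : ℤ) (k l : ℕ), S = anc k ⟨n, S.i, S.j⟩ ∧ T = anc l ⟨n, T.i, T.j⟩ := by
  refine ⟨max S.n T.n, (max S.n T.n - S.n).toNat, (max S.n T.n - T.n).toNat, ?_, ?_⟩
  · rw [anc_quad hSi hSj]
    ext
    · simp only; omega
    · rfl
    · rfl
  · rw [anc_quad hTi hTj]
    ext
    · simp only; omega
    · rfl
    · rfl

theorem root_walk {x : DSquare → ℝ} {u : ℝ} (R₀ R R' : tiles x u) (h0 : (0 : ℂ) ∈ R₀.1.toSet)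
    (hRi : R.1.i = 0) (hRj : R.1.j = 0) (hRi' : R'.1.i = -1) (hRj' : R'.1.j = 0) :
    ∃ w : (adjGraph (tiles x u)).Walk R₀ R, w.length ≤ 2 := by
  obtain ⟨hi, hj⟩ := quad_mem h0
  have q1 : Quad R.1.i := Or.inl hRi
  have q2 : Quad R.1.j := Or.inl hRj
  have q3 : Quad R'.1.i := Or.inr hRi'
  have q4 : Quad R'.1.j := Or.inl hRj'
  have hR'R : R' = R ∨ (adjGraph (tiles x u)).Adj R' R := by
    obtain ⟨n, k, l, h1, h2⟩ := common_level q3 q4 q1 q2
    rw [hRi', hRj'] at h1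
    rw [hRi, hRj] at h2
    exact step_right (n := n) (i := -1) (j := 0) h1 (by simpa using h2)
  have one : ∀ {A B : tiles x u}, (A = B ∨ (adjGraph (tiles x u)).Adj A B) →
      ∃ w : (adjGraph (tiles x u)).Walk A B, w.length ≤ 1 := by
    rintro A B (rfl | h)
    · exact ⟨SimpleGraph.Walk.nil, by simp⟩
    · exact ⟨SimpleGraph.Walk.cons h SimpleGraph.Walk.nil, by simp⟩
  rcases hi with hi | hi <;> rcases hj with hj | hj
  · -- the same quadrant
    obtain ⟨n, k, l, h1, h2⟩ := common_level (Or.inl hi) (Or.inl hj) q1 q2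
    rw [hi, hj] at h1
    rw [hRi, hRj] at h2
    have : R₀ = R := Subtype.ext (tile_unique R₀.2 R.2 h1 h2)
    obtain ⟨w, hw⟩ := one (Or.inl this)
    exact ⟨w, by omega⟩
  · obtain ⟨n, k, l, h1, h2⟩ := common_level (Or.inl hi) (Or.inr hj) q1 q2
    rw [hi, hj] at h1
    rw [hRi, hRj] at h2
    obtain ⟨w, hw⟩ := one (step_up (n := n) (i := 0) (j := -1) h1 (by simpa using h2))
    exact ⟨w, by omega⟩
  · obtain ⟨n, k, l, h1, h2⟩ := common_level (Or.inr hi) (Or.inl hj) q1 q2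
    rw [hi, hj] at h1
    rw [hRi, hRj] at h2
    obtain ⟨w, hw⟩ := one (step_right (n := n) (i := -1) (j := 0) h1 (by simpa using h2))
    exact ⟨w, by omega⟩
  · obtain ⟨n, k, l, h1, h2⟩ := common_level (Or.inr hi) (Or.inr hj) q3 q4
    rw [hi, hj] at h1
    rw [hRi', hRj'] at h2
    obtain ⟨w, hw⟩ := one (step_up (n := n) (i := -1) (j := -1) h1 (by simpa using h2))
    obtain ⟨w', hw'⟩ := one hR'R
    exact ⟨w.append w', by rw [SimpleGraph.Walk.length_append]; omega⟩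

/-! ### The rescaled spaces -/

theorem pack_of_many {x : DSquare → ℝ} {u a b : ℝ} {X : PMMSpace} (ha : 0 < a) {K ρ₀ : ℕ}
    (hm : Many K ρ₀ (tiles x u)) (hq : ∃ n : ℤ, (⟨n, -1, 0⟩ : DSquare) ∈ tiles x u)
    (hX : IsRescaled (tiles x u) a b X) (ha6 : a ≤ 1 / 6) (haρ : (ρ₀ : ℝ) + 3 ≤ 1 / a) :
    X ∈ Pack K := by
  obtain ⟨R, hRi, hRj, hmany⟩ := hm
  obtain ⟨n, hn⟩ := hq
  obtain ⟨R₀, e, h0, ho, hdist, _⟩ := hX
  obtain ⟨w, hw⟩ := root_walk R₀ R ⟨_, hn⟩ h0 hRi hRj rfl rfl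
  set ρ := ⌊1 / a⌋₊ - 2 with hρ
  have h1a : 0 ≤ 1 / a := by positivity
  have hfl : (ρ₀ + 2 : ℕ) ≤ ⌊1 / a⌋₊ := by
    apply Nat.le_floor
    push_cast
    linarith
  have hρ1 : ρ₀ ≤ ρ := by omega
  have hρ2 : (ρ : ℝ) + 2 = (⌊1 / a⌋₊ : ℝ) := by
    have : ρ + 2 = ⌊1 / a⌋₊ := by omega
    exact_mod_cast this
  obtain ⟨f, hf⟩ := hmany ρ hρ1
  have hR : (adjGraph (tiles x u)).Reachable R₀ R := ⟨w⟩
  have hreach : ∀ c, (adjGraph (tiles x u)).Reachable R₀ (f c) := fun c => hR.trans (hf c).1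
  refine ⟨fun c => e ⟨f c, hreach c⟩, fun c => ?_, fun c d hcd => ?_⟩
  · rw [← ho, hdist]
    obtain ⟨w', hw'⟩ := (hf c).1.exists_walk_length_eq_dist
    have h2 : (adjGraph (tiles x u)).dist (f c) R₀ ≤ ρ + 2 := by
      rw [SimpleGraph.dist_comm]
      have := SimpleGraph.dist_le (w.append w')
      rw [SimpleGraph.Walk.length_append, hw', (hf c).2.1] at this
      omega
    have h3 : ((adjGraph (tiles x u)).dist (f c) R₀ : ℝ) ≤ ρ + 2 := by exact_mod_cast h2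
    have h4 := Nat.floor_le h1a
    calc a * ((adjGraph (tiles x u)).dist (f c) R₀ : ℝ) ≤ a * (1 / a) :=
          mul_le_mul_of_nonneg_left (by linarith) ha.le
      _ = 1 := by field_simp
  · rw [hdist]
    have h3 : (ρ : ℝ) ≤ ((adjGraph (tiles x u)).dist (f c) (f d) : ℝ) := by
      exact_mod_cast (hf c).2.2 d hcd
    have h4 := Nat.lt_floor_add_one (1 / a)
    have h5 : a * (1 / a - 3) ≤ a * ((adjGraph (tiles x u)).dist (f c) (f d) : ℝ) :=
      mul_le_mul_of_nonneg_left (by linarith) ha.le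
    have h6 : a * (1 / a - 3) = 1 - 3 * a := by field_simp
    simp only
    linarith

theorem not_infDeg {x : DSquare → ℝ} {u a b : ℝ} {X : PMMSpace} (ha : 0 < a)
    (hm : InfDeg (tiles x u)) (hq : ∃ n : ℤ, (⟨n, -1, 0⟩ : DSquare) ∈ tiles x u)
    (hX : IsRescaled (tiles x u) a b X) : False := by
  obtain ⟨R, hRi, hRj, hinf⟩ := hm
  obtain ⟨n, hn⟩ := hq
  obtain ⟨R₀, e, h0, ho, hdist, _⟩ := hX
  obtain ⟨w, hw⟩ := root_walk R₀ R ⟨_, hn⟩ h0 hRi hRj rfl rfl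
  have hR : (adjGraph (tiles x u)).Reachable R₀ R := ⟨w⟩
  -- the images of the neighbours
  have hreach : ∀ T : {T : tiles x u | (adjGraph (tiles x u)).Adj R T},
      (adjGraph (tiles x u)).Reachable R₀ T.1 := fun T => hR.trans T.2.reachable
  set g : {T : tiles x u | (adjGraph (tiles x u)).Adj R T} → X.X := fun T => e ⟨T.1, hreach T⟩
    with hg
  have hginj : Function.Injective g := by
    intro S T hST
    have := e.injective hST
    simp only [Subtype.mk.injEq] at this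
    exact Subtype.ext this
  have hgball : ∀ T, g T ∈ Metric.closedBall (e ⟨R, hR⟩) a := by
    intro T
    rw [Metric.mem_closedBall, hdist]
    have h1 : (adjGraph (tiles x u)).dist T.1 R = 1 := SimpleGraph.dist_eq_one_iff_adj.2 T.2.symm
    simp only
    rw [h1]
    simp
  have hgsep : ∀ S T, S ≠ T → a ≤ dist (g S) (g T) := by
    intro S T hST
    rw [hg, hdist]
    have h1 : 0 < (adjGraph (tiles x u)).dist S.1 T.1 := by
      apply SimpleGraph.Reachable.pos_dist_of_ne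
      · exact (hreach S).symm.trans (hreach T)
      · exact fun h => hST (Subtype.ext h)
    have h2 : (1 : ℝ) ≤ ((adjGraph (tiles x u)).dist S.1 T.1 : ℝ) := by exact_mod_cast h1
    exact le_mul_of_one_le_right ha.le h2
  have hc : IsCompact (Metric.closedBall (e ⟨R, hR⟩) a) := isCompact_closedBall _ _
  obtain ⟨t, htf, hcov⟩ := Metric.totallyBounded_iff.1 hc.totallyBounded (a / 2) (by linarith)
  have h1 : ∀ T, ∃ z ∈ htf.toFinset, dist (g T) z < a / 2 := by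
    intro T
    have := hcov (hgball T)
    simp only [Set.mem_iUnion, Metric.mem_ball] at this
    obtain ⟨z, hz, hz'⟩ := this
    exact ⟨z, htf.mem_toFinset.2 hz, hz'⟩
  choose z hz hz' using h1
  have : Infinite {T : tiles x u | (adjGraph (tiles x u)).Adj R T} := hinf.to_subtype
  obtain ⟨S, T, hne, he⟩ := Finite.exists_ne_map_eq_of_infinite
    (fun T => (⟨z T, hz T⟩ : htf.toFinset))
  simp only [Subtype.mk.injEq] at he
  have h2 := hgsep S T hne
  have h3 := dist_triangle (g S) (z S) (g T)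
  have h4 := hz' S
  have h5 := hz' T
  rw [dist_comm, ← he] at h5
  linarith

theorem sep_of_rescaled {𝒯 : Set DSquare} {a b δ : ℝ} {X : PMMSpace} (hδ : 0 < δ) (ha : δ ≤ a)
    (hX : IsRescaled 𝒯 a b X) : X ∈ Sep δ := by
  obtain ⟨R₀, e, h0, ho, hdist, _⟩ := hX
  intro p q hpq
  obtain ⟨S, rfl⟩ := e.surjective p
  obtain ⟨T, rfl⟩ := e.surjective q
  rw [hdist]
  have h1 : 0 < (adjGraph 𝒯).dist S.1 T.1 := by
    apply SimpleGraph.Reachable.pos_dist_of_ne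
    · exact S.2.symm.trans T.2
    · exact fun h => hpq (by rw [Subtype.ext h])
  have h2 : (1 : ℝ) ≤ ((adjGraph 𝒯).dist S.1 T.1 : ℝ) := by exact_mod_cast h1
  have h3 : 0 < a := by linarith
  exact ha.trans (le_mul_of_one_le_right h3.le h2)

end Pool.Agent.Y980
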